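import Pool.Agent.Lib.MP_3cdeb8_co.Scale

set_option autoImplicit false
set_option linter.unusedSectionVars false

namespace Pool.Agent.Lib.MP_3cdeb8_co

open Finset
open scoped Classical

theorem sum_log_le (d : ℕ) :
    ∑ i ∈ Finset.Icc 1 d, Real.log ((i : ℝ) + 1) ≤ ((d : ℝ) + 2) * Real.log (d + 1) - d := by
  induction d with
  | zero => simp
  | succ d ih =>
    rw [Finset.sum_Icc_succ_top (by omega)]
    push_cast
    have h1 : (0 : ℝ) < (d : ℝ) + 1 := by positivity
    have h2 : (0 : ℝ) < (d : ℝ) + 2 := by positivity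
    have h3 := Real.one_sub_inv_le_log_of_pos (div_pos h2 h1)
    rw [Real.log_div h2.ne' h1.ne', inv_div] at h3
    have h4 : (1 : ℝ) - (d + 1) / (d + 2) = 1 / (d + 2) := by field_simp; ring
    rw [h4] at h3
    have h5 : 1 ≤ ((d : ℝ) + 2) * (Real.log (d + 2) - Real.log (d + 1)) := by
      have := mul_le_mul_of_nonneg_left h3 h2.le
      rwa [mul_one_div, div_self h2.ne'] at this
    have h6 : (d : ℝ) + 1 + 1 = d + 2 := by ring
    rw [h6]
    linarith

theorem Lam_le {d : ℕ} (hd : 0 < d) :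
    ∑ i ∈ Finset.Icc 1 d, Real.log ((i : ℝ) + 1) - d * Real.log d + d ≤
      2 * Real.log d + 3 := by
  have hd' : (1 : ℝ) ≤ d := by exact_mod_cast hd
  have h0 := sum_log_le d
  have h1 : Real.log ((d : ℝ) + 1) - Real.log d ≤ 1 / d := by
    rw [← Real.log_div (by positivity) (by positivity)]
    have h2 := Real.log_le_sub_one_of_pos (show (0 : ℝ) < ((d : ℝ) + 1) / d by positivity)
    have h3 : ((d : ℝ) + 1) / d - 1 = 1 / d := by field_simp; ring
    linarith
  have h2 : (d : ℝ) * (Real.log ((d : ℝ) + 1) - Real.log d) ≤ 1 := by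
    have := mul_le_mul_of_nonneg_left h1 (by linarith : (0 : ℝ) ≤ d)
    rwa [mul_one_div, div_self (by positivity)] at this
  have h3 : 1 / (d : ℝ) ≤ 1 := by rw [div_le_one (by positivity)]; exact hd'
  nlinarith

theorem sum_inv_le {d : ℕ} (hd : 0 < d) :
    ∑ i ∈ Finset.Icc 1 (d - 1), 1 / ((i : ℝ) + 1) ≤ Real.log d := by
  obtain ⟨e, rfl⟩ : ∃ e, d = e + 1 := ⟨d - 1, by omega⟩
  rw [Nat.add_sub_cancel]
  clear hd
  induction e with
  | zero => simp
  | succ e ih =>
    rw [Finset.sum_Icc_succ_top (by omega)]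
    push_cast at ih ⊢
    have h1 : (0 : ℝ) < (e : ℝ) + 1 := by positivity
    have h2 : (0 : ℝ) < (e : ℝ) + 2 := by positivity
    have h3 := Real.one_sub_inv_le_log_of_pos (div_pos h2 h1)
    rw [Real.log_div h2.ne' h1.ne', inv_div] at h3
    have h4 : (1 : ℝ) - (e + 1) / (e + 2) = 1 / (e + 2) := by field_simp; ring
    have h6 : (e : ℝ) + 1 + 1 = e + 2 := by ring
    rw [h4] at h3
    rw [h6]
    linarith

theorem sum_sq_le (d : ℕ) :
    ∑ i ∈ Finset.Icc 1 (d - 1), 1 / ((i : ℝ) + 1) ^ 2 ≤ 1 := by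
  have h : ∀ e : ℕ, ∑ i ∈ Finset.Icc 1 e, 1 / ((i : ℝ) + 1) ^ 2 ≤ 1 - 1 / ((e : ℝ) + 1) := by
    intro e
    induction e with
    | zero => simp
    | succ e ih =>
      rw [Finset.sum_Icc_succ_top (by omega)]
      push_cast
      have h2 : (1 : ℝ) / ((e : ℝ) + 1 + 1) ^ 2 ≤ 1 / ((e : ℝ) + 1) - 1 / ((e : ℝ) + 1 + 1) := by
        rw [div_sub_div _ _ (by positivity) (by positivity), div_le_div_iff₀ (by positivity)
          (by positivity)]
        nlinarith [show (0 : ℝ) ≤ e by positivity]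
      linarith
  have h1 := h (d - 1)
  have h2 : (0 : ℝ) ≤ 1 / (((d - 1 : ℕ) : ℝ) + 1) := by positivity
  linarith

set_option maxHeartbeats 4000000 in
theorem upper_const {ε : ℝ} (hε : 0 < ε) : ∃ K : ℝ, 0 ≤ K ∧
    ∀ (V : Type) [Fintype V] (A : V → V → Prop) (d : ℕ), 0 < d → Reg A d →
      0 < Fintype.card V → (CF A).Nonempty →
      (Fintype.card V : ℝ) * (Real.log d - 1) ≤ Real.log ((CF A).card : ℝ) →
      (∑ σ ∈ CF A, (numCycles σ : ℝ)) / ((CF A).card : ℝ) ≤
        ((Fintype.card V : ℝ) / d) * ((1 + 4 * ε) * Real.log d + K) := by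
  obtain ⟨θ, hθ⟩ : ∃ θ : ℝ, θ = 2 / ε := ⟨_, rfl⟩
  have hθpos : 0 < θ := by rw [hθ]; positivity
  obtain ⟨Eθ, hEθ⟩ : ∃ x : ℝ, x = (Real.exp θ - 1) / θ := ⟨_, rfl⟩
  have hexp1 : 0 < Real.exp θ - 1 := by
    have := Real.add_one_lt_exp hθpos.ne'
    linarith
  have hEpos : 0 < Eθ := by rw [hEθ]; positivity
  obtain ⟨η, hη⟩ : ∃ x : ℝ, x = min (1 / 3) (ε / (3 * Eθ)) := ⟨_, rfl⟩
  have hηpos : 0 < η := by
    rw [hη]; exact lt_min (by norm_num) (by positivity)
  have hη3 : η ≤ 1 / 3 := by rw [hη]; exact min_le_left _ _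
  have hηE : 3 * η * Eθ ≤ ε := by
    have h1 : η ≤ ε / (3 * Eθ) := by rw [hη]; exact min_le_right _ _
    rw [le_div_iff₀ (by positivity)] at h1
    linarith
  obtain ⟨c, hc⟩ : ∃ x : ℝ, x = η * Real.exp (-(4 / η)) := ⟨_, rfl⟩
  have hcpos : 0 < c := by rw [hc]; positivity
  obtain ⟨C, hC⟩ : ∃ x : ℝ, x = (Real.exp 1 - 1) / phi (1 + ε) := ⟨_, rfl⟩
  have hphi := phi_pos hε
  have hCnn : 0 ≤ C := by
    have : 0 ≤ Real.exp 1 - 1 := by linarith [Real.one_le_exp (zero_le_one)]
    rw [hC]; positivity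
  obtain ⟨D, hD⟩ : ∃ x : ℝ, x = 1 + (1 / c) * (1 + C) := ⟨_, rfl⟩
  have hDpos : 0 < D := by rw [hD]; positivity
  obtain ⟨I0, hI0⟩ := exists_nat_ge (2 * Eθ * D / ε + 1)
  have hI0pos : (0 : ℝ) < I0 := by
    have : 0 ≤ 2 * Eθ * D / ε := by positivity
    linarith
  have hI0D : 2 * Eθ * D / I0 ≤ ε := by
    have h1 : 2 * Eθ * D / ε ≤ I0 := by linarith
    rw [div_le_iff₀ hε] at h1
    rw [div_le_iff₀ hI0pos]; linarith
  refine ⟨1 + (I0 + 3 / θ + Eθ * (3 * D / I0 + 2) + Eθ / η), by positivity, ?_⟩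
  intro V _ A d hd hA hV hCF hper
  have hd' : (0 : ℝ) < d := by exact_mod_cast hd
  have hV' : (0 : ℝ) < (Fintype.card V : ℝ) := by exact_mod_cast hV
  have hCFr := CF_rev_nonempty hCF
  have hs : ∑ i ∈ Finset.Icc 1 (d - 1), slack A d i ≤ 2 * Real.log d + 3 := by
    refine le_trans ?_ ((slack_total hA hV hd hCF hper).trans (Lam_le hd))
    exact Finset.sum_le_sum_of_subset_of_nonneg (Finset.Icc_subset_Icc_right (by omega))
      (fun i _ _ => slack_nonneg A d i)
  have hs' : ∑ i ∈ Finset.Icc 1 (d - 1), slack (rev A) d i ≤ 2 * Real.log d + 3 := by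
    refine le_trans ?_ ((slack_total (Reg_rev hA) hV hd hCFr
      (by rw [card_CF_rev]; exact hper)).trans (Lam_le hd))
    exact Finset.sum_le_sum_of_subset_of_nonneg (Finset.Icc_subset_Icc_right (by omega))
      (fun i _ _ => slack_nonneg (rev A) d i)
  have hlog : 0 ≤ Real.log d := Real.log_nonneg (by exact_mod_cast hd)
  -- pointwise bound
  have hpt : ∀ i ∈ Finset.Icc 1 (d - 1), aa A d i ≤
      (if i < I0 then (1 : ℝ) else 0) + (1 + ε + 3 * η * Eθ) * (1 / ((i : ℝ) + 1)) +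
      (1 / θ + (Eθ / I0) * (1 + (1 / c) * C)) * slack A d i +
      ((Eθ / I0) * (1 / c)) * slack (rev A) d i + (2 * Eθ) * (1 / ((i : ℝ) + 1) ^ 2) +
      Eθ / (η * d) := by
    intro i hi
    obtain ⟨hi1, hi2⟩ := Finset.mem_Icc.1 hi
    have hid : i ≤ d := by omega
    have hs0 := slack_nonneg A d i
    have hs0' := slack_nonneg (rev A) d i
    have hi' : (0 : ℝ) < i := by exact_mod_cast hi1
    have ht1 : (0 : ℝ) ≤ (1 + ε + 3 * η * Eθ) * (1 / ((i : ℝ) + 1)) := by positivity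
    have ht2 : 0 ≤ (1 / θ + (Eθ / I0) * (1 + (1 / c) * C)) * slack A d i := by positivity
    have ht3 : 0 ≤ ((Eθ / I0) * (1 / c)) * slack (rev A) d i := by positivity
    have ht4 : (0 : ℝ) ≤ (2 * Eθ) * (1 / ((i : ℝ) + 1) ^ 2) := by positivity
    have ht5 : (0 : ℝ) ≤ Eθ / (η * d) := by positivity
    by_cases h1 : i < I0
    · rw [if_pos h1]
      have := aa_le_one hV hd hCF hi1 hid
      linarith
    · rw [if_neg h1]
      push Not at h1
      have h1' : (I0 : ℝ) ≤ i := by exact_mod_cast h1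
      by_cases h2 : (i : ℝ) ≤ η * d
      · have e1 := aa_le_two hV hd hCF hi1 hid hθpos hε
        rw [← hEθ] at e1
        have e2 := ph_le hV hd hCF hi1 hηpos hη3 h2 hε
        rw [← hc, ← hC] at e2
        have e3 := aa_le_one_scale hV hd hCF hi1 hid (zero_le_one)
        rw [one_mul] at e3
        have e4 : (Real.exp 1 - 1) / ((i : ℝ) + 1) ≤ 2 * (1 / ((i : ℝ) + 1)) := by
          rw [mul_one_div]
          apply div_le_div_of_nonneg_right _ (by positivity)
          have := Real.exp_one_lt_d9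
          linarith
        have e5 : (1 : ℝ) / ((i : ℝ) + 1) ≤ 1 / I0 :=
          one_div_le_one_div_of_le hI0pos (by linarith)
        have e6 : ph A ε d i ≤ 3 * η + (slack A d i + 2 * (1 / ((i : ℝ) + 1))) +
            (1 / c) * (slack (rev A) d i + C * slack A d i) := by linarith
        have hq : (0 : ℝ) ≤ 1 / ((i : ℝ) + 1) := by positivity
        have e7 : Eθ * (1 / ((i : ℝ) + 1)) * ph A ε d i ≤ Eθ * (1 / ((i : ℝ) + 1)) *
            (3 * η + (slack A d i + 2 * (1 / ((i : ℝ) + 1))) +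
            (1 / c) * (slack (rev A) d i + C * slack A d i)) :=
          mul_le_mul_of_nonneg_left e6 (by positivity)
        have e8 : Eθ * (1 / ((i : ℝ) + 1)) *
            (3 * η + (slack A d i + 2 * (1 / ((i : ℝ) + 1))) +
            (1 / c) * (slack (rev A) d i + C * slack A d i)) =
            3 * η * Eθ * (1 / ((i : ℝ) + 1)) + (2 * Eθ) * (1 / ((i : ℝ) + 1) ^ 2) +
            (1 / ((i : ℝ) + 1)) * (Eθ * (slack A d i +
            (1 / c) * (slack (rev A) d i + C * slack A d i))) := by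
          have : (1 : ℝ) / ((i : ℝ) + 1) ^ 2 = (1 / ((i : ℝ) + 1)) ^ 2 := by
            rw [div_pow, one_pow]
          rw [this]; ring
        have e9 : (1 / ((i : ℝ) + 1)) * (Eθ * (slack A d i +
            (1 / c) * (slack (rev A) d i + C * slack A d i))) ≤
            (1 / I0) * (Eθ * (slack A d i +
            (1 / c) * (slack (rev A) d i + C * slack A d i))) :=
          mul_le_mul_of_nonneg_right e5 (by positivity)
        have e10 : (1 / (I0 : ℝ)) * (Eθ * (slack A d i +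
            (1 / c) * (slack (rev A) d i + C * slack A d i))) =
            ((Eθ / I0) * (1 + (1 / c) * C)) * slack A d i +
            ((Eθ / I0) * (1 / c)) * slack (rev A) d i := by ring
        have e11 : (1 + ε) / ((i : ℝ) + 1) = (1 + ε) * (1 / ((i : ℝ) + 1)) := by ring
        have e12 : (1 / θ + (Eθ / I0) * (1 + (1 / c) * C)) * slack A d i =
            (1 / θ) * slack A d i + ((Eθ / I0) * (1 + (1 / c) * C)) * slack A d i := by ring
        have e13 : (1 + ε + 3 * η * Eθ) * (1 / ((i : ℝ) + 1)) =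
            (1 + ε) * (1 / ((i : ℝ) + 1)) + 3 * η * Eθ * (1 / ((i : ℝ) + 1)) := by ring
        rw [e12, e13]
        linarith
      · push Not at h2
        have e1 := aa_le_one_scale hV hd hCF hi1 hid hθpos.le
        have e2 : aa A d i ≤ (1 / θ) * slack A d i + Eθ * (1 / ((i : ℝ) + 1)) := by
          have e3 : aa A d i ≤ (slack A d i + (Real.exp θ - 1) / (i + 1)) / θ := by
            rw [le_div_iff₀ hθpos]; linarith
          have e4 : (slack A d i + (Real.exp θ - 1) / ((i : ℝ) + 1)) / θ =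
              (1 / θ) * slack A d i + Eθ * (1 / ((i : ℝ) + 1)) := by
            rw [hEθ]; field_simp
          linarith
        have e5 : (1 : ℝ) / ((i : ℝ) + 1) ≤ 1 / (η * d) :=
          one_div_le_one_div_of_le (by positivity) (by linarith)
        have e6 : Eθ * (1 / ((i : ℝ) + 1)) ≤ Eθ / (η * d) := by
          rw [div_eq_mul_one_div Eθ]
          exact mul_le_mul_of_nonneg_left e5 hEpos.le
        have e7 : (1 / θ) * slack A d i ≤
            (1 / θ + (Eθ / I0) * (1 + (1 / c) * C)) * slack A d i := by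
          apply mul_le_mul_of_nonneg_right _ hs0
          have : 0 ≤ (Eθ / I0) * (1 + (1 / c) * C) := by positivity
          linarith
        linarith
  have hsum := Finset.sum_le_sum hpt
  simp only [Finset.sum_add_distrib, ← Finset.mul_sum] at hsum
  have g1 : ∑ i ∈ Finset.Icc 1 (d - 1), (if i < I0 then (1 : ℝ) else 0) ≤ I0 := by
    rw [Finset.sum_boole]
    have : ((Finset.Icc 1 (d - 1)).filter (fun i => i < I0)).card ≤ I0 := by
      refine (Finset.card_le_card (t := Finset.range I0) ?_).trans (by simp)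
      intro i hi
      exact Finset.mem_range.2 (Finset.mem_filter.1 hi).2
    exact_mod_cast this
  have g2 := sum_inv_le hd
  have g3 := sum_sq_le d
  have g4 : ∑ i ∈ Finset.Icc 1 (d - 1), Eθ / (η * d) ≤ Eθ / η := by
    rw [Finset.sum_const, nsmul_eq_mul, Nat.card_Icc]
    have h1 : ((d - 1 + 1 - 1 : ℕ) : ℝ) ≤ d := by
      have : d - 1 + 1 - 1 ≤ d := by omega
      exact_mod_cast this
    calc ((d - 1 + 1 - 1 : ℕ) : ℝ) * (Eθ / (η * d)) ≤ d * (Eθ / (η * d)) :=
          mul_le_mul_of_nonneg_right h1 (by positivity)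
      _ = Eθ / η := by field_simp
  have g5 : (1 + ε + 3 * η * Eθ) * ∑ i ∈ Finset.Icc 1 (d - 1), 1 / ((i : ℝ) + 1) ≤
      (1 + 2 * ε) * Real.log d := by
    apply mul_le_mul (by linarith) g2 (Finset.sum_nonneg (fun i _ => by positivity))
      (by positivity)
  have g6 : (1 / θ + (Eθ / I0) * (1 + (1 / c) * C)) * ∑ i ∈ Finset.Icc 1 (d - 1), slack A d i ≤
      (1 / θ + (Eθ / I0) * (1 + (1 / c) * C)) * (2 * Real.log d + 3) :=
    mul_le_mul_of_nonneg_left hs (by positivity)
  have g7 : ((Eθ / I0) * (1 / c)) * ∑ i ∈ Finset.Icc 1 (d - 1), slack (rev A) d i ≤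
      ((Eθ / I0) * (1 / c)) * (2 * Real.log d + 3) :=
    mul_le_mul_of_nonneg_left hs' (by positivity)
  have g8 : (2 * Eθ) * ∑ i ∈ Finset.Icc 1 (d - 1), 1 / ((i : ℝ) + 1) ^ 2 ≤ (2 * Eθ) * 1 :=
    mul_le_mul_of_nonneg_left g3 (by positivity)
  have g9 : (1 / θ + (Eθ / I0) * (1 + (1 / c) * C)) * (2 * Real.log d + 3) +
      ((Eθ / I0) * (1 / c)) * (2 * Real.log d + 3) =
      (2 / θ) * Real.log d + 3 / θ + (2 * Eθ * D / I0) * Real.log d + Eθ * (3 * D / I0) := by
    rw [hD]; ring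
  have g10 : (2 / θ) * Real.log d = ε * Real.log d := by
    rw [hθ]; field_simp
  have g11 : (2 * Eθ * D / I0) * Real.log d ≤ ε * Real.log d :=
    mul_le_mul_of_nonneg_right hI0D hlog
  have htot : 1 + ∑ i ∈ Finset.Icc 1 (d - 1), aa A d i ≤
      (1 + 4 * ε) * Real.log d + (1 + (I0 + 3 / θ + Eθ * (3 * D / I0 + 2) + Eθ / η)) := by
    have g12 : Eθ * (3 * D / I0 + 2) = Eθ * (3 * D / I0) + 2 * Eθ := by ring
    rw [g12]
    nlinarith
  refine (sum_numCycles hV hd hCF).trans ?_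
  exact mul_le_mul_of_nonneg_left htot (by positivity)

end Pool.Agent.Lib.MP_3cdeb8_co
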