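import Pool.Agent.Lib.MP_3cdeb8_co.Class

set_option autoImplicit false
set_option linter.unusedSectionVars false

namespace Pool.Agent.Lib.MP_3cdeb8_co

open Finset
open scoped Classical

variable {V : Type*} [Fintype V]

/-- Conditioning reduces entropy. -/
theorem log_mono (A : V → V → Prop) {S S' : Finset V} (hS : S' ⊆ S) {v : V} (hv : v ∈ S') :
    ∑ σ ∈ CF A, Real.log (Pr A S v σ (σ v)) ≤ ∑ σ ∈ CF A, Real.log (Pr A S' v σ (σ v)) := by
  have h1 : ∀ σ ∈ CF A, Real.log (Pr A S v σ (σ v)) - Real.log (Pr A S' v σ (σ v)) ≤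
      Pr A S v σ (σ v) / Pr A S' v σ (σ v) - 1 := by
    intro σ hσ
    rw [← Real.log_div (Pr_self_pos hσ v).ne' (Pr_self_pos hσ v).ne']
    have := Real.log_le_sub_one_of_pos (div_pos (Pr_self_pos (S := S) hσ v)
      (Pr_self_pos (S := S') hσ v))
    exact this
  have h2 : ∑ σ ∈ CF A, (Pr A S v σ (σ v) / Pr A S' v σ (σ v) - 1) ≤ 0 := by
    rw [avg_cls A S']
    apply Finset.sum_nonpos
    intro σ hσ
    have h3 : ∀ τ ∈ cls A S' σ, Pr A S v τ (τ v) / Pr A S' v τ (τ v) - 1 =
        (fun x => Pr A S v σ x / Pr A S' v σ x - 1) (τ v) := by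
      intro τ hτ
      have hτ' : τ ∈ cls A S σ :=
        mem_cls.2 ⟨(mem_cls.1 hτ).1, fun w hw => (mem_cls.1 hτ).2 w (fun h => hw (hS h))⟩
      simp only
      rw [Pr_congr hτ, Pr_congr hτ']
    rw [Finset.sum_congr rfl h3, fiber_cls hv (fun x => Pr A S v σ x / Pr A S' v σ x - 1)]
    have h4 : ∀ x ∈ av A S' v σ, Pr A S' v σ x * (Pr A S v σ x / Pr A S' v σ x - 1) ≤
        Pr A S v σ x - Pr A S' v σ x := by
      intro x _
      rcases (Pr_nonneg A S' v σ x).eq_or_lt with h | h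
      · rw [← h]; simpa using Pr_nonneg A S v σ x
      · apply le_of_eq; field_simp
    refine (Finset.sum_le_sum h4).trans ?_
    rw [Finset.sum_sub_distrib, Pr_sum hσ hv]
    have := Pr_sum_le (A := A) (S := S) hσ (hS hv) (av A S' v σ)
    linarith
  have h5 := Finset.sum_le_sum h1
  rw [Finset.sum_sub_distrib] at h5
  linarith

theorem filter_cls_erase (A : V → V → Prop) (S : Finset V) (v : V) (σ : Equiv.Perm V) :
    (cls A S σ).filter (fun τ => τ v = σ v) = cls A (S.erase v) σ := by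
  ext τ
  rw [Finset.mem_filter, mem_cls, mem_cls]
  constructor
  · rintro ⟨⟨h1, h2⟩, h3⟩
    refine ⟨h1, fun w hw => ?_⟩
    by_cases hwv : w = v
    · rw [hwv]; exact h3
    · exact h2 w (fun h => hw (Finset.mem_erase.2 ⟨hwv, h⟩))
  · rintro ⟨h1, h2⟩
    refine ⟨⟨h1, fun w hw => h2 w (fun h => hw (Finset.mem_of_mem_erase h))⟩, ?_⟩
    exact h2 v (fun h => (Finset.mem_erase.1 h).1 rfl)

theorem log_Pr_self {A : V → V → Prop} {S : Finset V} {σ : Equiv.Perm V} (hσ : σ ∈ CF A) (v : V) :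
    Real.log (Pr A S v σ (σ v)) =
      Real.log ((cls A (S.erase v) σ).card : ℝ) - Real.log ((cls A S σ).card : ℝ) := by
  unfold Pr
  rw [filter_cls_erase, Real.log_div (cls_pos hσ).ne' (cls_pos hσ).ne']

/-- Subadditivity of entropy for a block. -/
theorem chain_block (A : V → V → Prop) (S : Finset V) (B : Finset V) (hB : B ⊆ S) :
    ∑ b ∈ B, ∑ σ ∈ CF A, Real.log (Pr A S b σ (σ b)) ≤
      ∑ σ ∈ CF A, (Real.log ((cls A (S \ B) σ).card : ℝ) - Real.log ((cls A S σ).card : ℝ)) := by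
  induction B using Finset.induction_on with
  | empty => simp
  | insert b B hb ih =>
    rw [Finset.sum_insert hb]
    have hBS : B ⊆ S := (Finset.subset_insert _ _).trans hB
    have hbS : b ∈ S := hB (Finset.mem_insert_self _ _)
    have ih := ih hBS
    have h1 := log_mono A (S := S) (S' := S \ B) Finset.sdiff_subset
      (Finset.mem_sdiff.2 ⟨hbS, hb⟩)
    have h2 : ∀ σ ∈ CF A, Real.log (Pr A (S \ B) b σ (σ b)) =
        Real.log ((cls A (S \ insert b B) σ).card : ℝ) -
        Real.log ((cls A (S \ B) σ).card : ℝ) := by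
      intro σ hσ
      have h3 : (S \ B).erase b = S \ insert b B := by
        ext x; simp only [Finset.mem_erase, Finset.mem_sdiff, Finset.mem_insert]; tauto
      rw [log_Pr_self hσ, h3]
    rw [Finset.sum_congr rfl h2, Finset.sum_sub_distrib] at h1
    rw [Finset.sum_sub_distrib] at ih ⊢
    linarith

theorem Sf_zero {d : ℕ} (f : V → Fin d) : Sf 0 f = ∅ := by
  ext v; simp [Sf]

theorem Sf_top {d : ℕ} (f : V → Fin d) : Sf d f = univ := by
  ext v; simp [Sf]

theorem cls_empty {A : V → V → Prop} {σ : Equiv.Perm V} (hσ : σ ∈ CF A) :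
    cls A ∅ σ = {σ} := by
  ext τ
  rw [mem_cls, Finset.mem_singleton]
  constructor
  · rintro ⟨_, h⟩; exact Equiv.ext (fun w => h w (Finset.notMem_empty _))
  · rintro rfl; exact ⟨hσ, fun _ _ => rfl⟩

theorem cls_univ (A : V → V → Prop) (σ : Equiv.Perm V) : cls A univ σ = CF A := by
  ext τ
  rw [mem_cls]
  exact ⟨fun h => h.1, fun h => ⟨h, fun w hw => absurd (Finset.mem_univ _) hw⟩⟩

/-- The chain rule along a labelling. -/
theorem chain_labels (A : V → V → Prop) {d : ℕ} (f : V → Fin d) :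
    ∑ v, ∑ σ ∈ CF A, Real.log (Pr A (Sf ((f v).val + 1) f) v σ (σ v)) ≤
      - (((CF A).card : ℝ) * Real.log ((CF A).card : ℝ)) := by
  set G : ℕ → ℝ := fun i => ∑ σ ∈ CF A, Real.log ((cls A (Sf i f) σ).card : ℝ) with hG
  have h1 : ∀ i ∈ Finset.range d, ∑ v ∈ univ.filter (fun v => (f v).val = i),
      ∑ σ ∈ CF A, Real.log (Pr A (Sf (i + 1) f) v σ (σ v)) ≤ G i - G (i + 1) := by
    intro i _
    have h := chain_block A (Sf (i + 1) f) (univ.filter (fun v => (f v).val = i)) (by
      intro v hv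
      have := (Finset.mem_filter.1 hv).2
      simp [Sf]; omega)
    have h2 : Sf (i + 1) f \ (univ.filter (fun v => (f v).val = i)) = Sf i f := by
      ext v; simp [Sf]; omega
    rw [h2, Finset.sum_sub_distrib] at h
    exact h
  have h2 := Finset.sum_le_sum h1
  rw [Finset.sum_range_sub'] at h2
  have h3 : G 0 = 0 := by
    apply Finset.sum_eq_zero
    intro σ hσ
    rw [Sf_zero, cls_empty hσ]; simp
  have h4 : G d = ((CF A).card : ℝ) * Real.log ((CF A).card : ℝ) := by
    rw [hG]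
    simp only [Sf_top, cls_univ]
    rw [Finset.sum_const, nsmul_eq_mul]
  have h5 : ∑ i ∈ Finset.range d, ∑ v ∈ univ.filter (fun v => (f v).val = i),
      ∑ σ ∈ CF A, Real.log (Pr A (Sf (i + 1) f) v σ (σ v)) =
      ∑ v, ∑ σ ∈ CF A, Real.log (Pr A (Sf ((f v).val + 1) f) v σ (σ v)) := by
    rw [← Finset.sum_fiberwise_of_maps_to (s := (univ : Finset V)) (t := Finset.range d)
      (g := fun v => (f v).val) (fun v _ => Finset.mem_range.2 (f v).isLt)]
    refine Finset.sum_congr rfl (fun i _ => ?_)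
    refine Finset.sum_congr rfl (fun v hv => ?_)
    rw [(Finset.mem_filter.1 hv).2]
  rw [h5, h3, h4] at h2
  linarith

end Pool.Agent.Lib.MP_3cdeb8_co
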