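import Pool.Agent.Lib.MP_3cdeb8_co.Defs

set_option autoImplicit false
set_option linter.unusedSectionVars false

namespace Pool.Agent.Lib.MP_3cdeb8_co

open Finset
open scoped Classical

variable {V : Type*} [Fintype V]

theorem mem_CF {A : V → V → Prop} {σ : Equiv.Perm V} : σ ∈ CF A ↔ ∀ v, A v (σ v) := by
  simp [CF]

theorem mem_cls {A : V → V → Prop} {S : Finset V} {σ τ : Equiv.Perm V} :
    τ ∈ cls A S σ ↔ τ ∈ CF A ∧ ∀ w, w ∉ S → τ w = σ w := by
  simp [cls]

theorem self_mem_cls {A : V → V → Prop} {S : Finset V} {σ : Equiv.Perm V} (h : σ ∈ CF A) :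
    σ ∈ cls A S σ := mem_cls.2 ⟨h, fun _ _ => rfl⟩

theorem cls_congr {A : V → V → Prop} {S : Finset V} {σ τ : Equiv.Perm V} (h : τ ∈ cls A S σ) :
    cls A S τ = cls A S σ := by
  obtain ⟨_, h2⟩ := mem_cls.1 h
  ext ρ
  rw [mem_cls, mem_cls]
  constructor
  · rintro ⟨a, b⟩; exact ⟨a, fun w hw => (b w hw).trans (h2 w hw)⟩
  · rintro ⟨a, b⟩; exact ⟨a, fun w hw => (b w hw).trans (h2 w hw).symm⟩

theorem cls_symm {A : V → V → Prop} {S : Finset V} {σ τ : Equiv.Perm V} (hσ : σ ∈ CF A)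
    (h : τ ∈ cls A S σ) : σ ∈ cls A S τ := by
  rw [cls_congr h]; exact self_mem_cls hσ

theorem cls_pos {A : V → V → Prop} {S : Finset V} {σ : Equiv.Perm V} (h : σ ∈ CF A) :
    (0 : ℝ) < ((cls A S σ).card : ℝ) := by
  exact_mod_cast Finset.card_pos.2 ⟨σ, self_mem_cls h⟩

theorem Pr_nonneg (A : V → V → Prop) (S : Finset V) (v : V) (σ : Equiv.Perm V) (x : V) :
    0 ≤ Pr A S v σ x := by unfold Pr; positivity

theorem Pr_le_one (A : V → V → Prop) (S : Finset V) (v : V) (σ : Equiv.Perm V) (x : V) :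
    Pr A S v σ x ≤ 1 := by
  unfold Pr
  apply div_le_one_of_le₀ _ (by positivity)
  exact_mod_cast Finset.card_filter_le _ _

theorem Pr_congr {A : V → V → Prop} {S : Finset V} {σ τ : Equiv.Perm V} (h : τ ∈ cls A S σ)
    (v x : V) : Pr A S v τ x = Pr A S v σ x := by
  unfold Pr; rw [cls_congr h]

theorem Pr_self_pos {A : V → V → Prop} {S : Finset V} {σ : Equiv.Perm V} (h : σ ∈ CF A) (v : V) :
    0 < Pr A S v σ (σ v) := by
  unfold Pr
  apply div_pos _ (cls_pos h)
  have : 0 < ((cls A S σ).filter fun τ => τ v = σ v).card :=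
    Finset.card_pos.2 ⟨σ, Finset.mem_filter.2 ⟨self_mem_cls h, rfl⟩⟩
  exact_mod_cast this

theorem symm_mem_of_agree {S : Finset V} {σ τ : Equiv.Perm V} (h : ∀ w, w ∉ S → τ w = σ w)
    {v : V} (hv : v ∈ S) : σ.symm (τ v) ∈ S := by
  by_contra hc
  have h1 := h _ hc
  rw [Equiv.apply_symm_apply] at h1
  have h2 := τ.injective h1
  rw [h2] at hc
  exact hc hv

theorem symm_mem_iff {S : Finset V} {σ τ : Equiv.Perm V} (h : ∀ w, w ∉ S → τ w = σ w)
    (x : V) : σ.symm x ∈ S ↔ τ.symm x ∈ S := by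
  constructor
  · intro hx
    have := symm_mem_of_agree (S := S) (σ := τ) (τ := σ) (fun w hw => (h w hw).symm) hx
    simpa using this
  · intro hx
    have := symm_mem_of_agree (S := S) (σ := σ) (τ := τ) h hx
    simpa using this

theorem mem_av {A : V → V → Prop} {S : Finset V} {v x : V} {σ : Equiv.Perm V} :
    x ∈ av A S v σ ↔ A v x ∧ σ.symm x ∈ S := by simp [av]

theorem av_congr {A : V → V → Prop} {S : Finset V} {σ τ : Equiv.Perm V} (h : τ ∈ cls A S σ)
    (v : V) : av A S v τ = av A S v σ := by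
  ext x
  rw [mem_av, mem_av, symm_mem_iff (mem_cls.1 h).2]

theorem Kd_congr {A : V → V → Prop} {S : Finset V} {σ τ : Equiv.Perm V} (h : τ ∈ cls A S σ)
    (m : ℝ) (v : V) : Kd A m S v τ = Kd A m S v σ := by
  unfold Kd
  rw [av_congr h]
  exact Finset.sum_congr rfl (fun x _ => by rw [Pr_congr h])

theorem apply_mem_av {A : V → V → Prop} {S : Finset V} {σ τ : Equiv.Perm V}
    (h : τ ∈ cls A S σ) {v : V} (hv : v ∈ S) : τ v ∈ av A S v σ := by
  obtain ⟨h1, h2⟩ := mem_cls.1 h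
  exact mem_av.2 ⟨mem_CF.1 h1 v, symm_mem_of_agree h2 hv⟩

theorem Pr_eq_zero {A : V → V → Prop} {S : Finset V} {σ : Equiv.Perm V} {v : V} (hv : v ∈ S)
    {x : V} (hx : x ∉ av A S v σ) : Pr A S v σ x = 0 := by
  unfold Pr
  have : (cls A S σ).filter (fun τ => τ v = x) = ∅ := by
    rw [Finset.filter_eq_empty_iff]
    intro τ hτ h
    exact hx (h ▸ apply_mem_av hτ hv)
  rw [this]; simp

/-- Averaging over classes. -/
theorem avg_cls (A : V → V → Prop) (S : Finset V) (g : Equiv.Perm V → ℝ) :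
    ∑ σ ∈ CF A, g σ = ∑ σ ∈ CF A, (∑ τ ∈ cls A S σ, g τ) / ((cls A S σ).card : ℝ) := by
  have h1 : ∀ σ ∈ CF A, (∑ τ ∈ cls A S σ, g τ) / ((cls A S σ).card : ℝ) =
      ∑ τ ∈ CF A, if τ ∈ cls A S σ then g τ / ((cls A S τ).card : ℝ) else 0 := by
    intro σ hσ
    rw [Finset.sum_div, ← Finset.sum_filter]
    have : (CF A).filter (fun τ => τ ∈ cls A S σ) = cls A S σ := by
      ext τ; simp only [Finset.mem_filter]
      exact ⟨fun h => h.2, fun h => ⟨(mem_cls.1 h).1, h⟩⟩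
    rw [this]
    exact Finset.sum_congr rfl (fun τ hτ => by rw [cls_congr hτ])
  rw [Finset.sum_congr rfl h1, Finset.sum_comm]
  refine Finset.sum_congr rfl (fun τ hτ => ?_)
  rw [← Finset.sum_filter, Finset.sum_const]
  have : (CF A).filter (fun σ => τ ∈ cls A S σ) = cls A S τ := by
    ext σ; simp only [Finset.mem_filter]
    exact ⟨fun h => cls_symm h.1 h.2, fun h => ⟨(mem_cls.1 h).1, cls_symm hτ h⟩⟩
  rw [this, nsmul_eq_mul]
  have := cls_pos (S := S) hτ
  field_simp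

/-- Fibering over the value at `v`. -/
theorem fiber_cls {A : V → V → Prop} {S : Finset V} {σ : Equiv.Perm V} {v : V} (hv : v ∈ S)
    (F : V → ℝ) :
    (∑ τ ∈ cls A S σ, F (τ v)) / ((cls A S σ).card : ℝ) =
      ∑ x ∈ av A S v σ, Pr A S v σ x * F x := by
  rw [← Finset.sum_fiberwise_of_maps_to (s := cls A S σ) (t := av A S v σ) (g := fun τ => τ v)
    (fun τ hτ => apply_mem_av hτ hv), Finset.sum_div]
  refine Finset.sum_congr rfl (fun x _ => ?_)
  rw [Finset.sum_congr rfl (g := fun _ => F x)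
    (fun τ hτ => by rw [(Finset.mem_filter.1 hτ).2]), Finset.sum_const, nsmul_eq_mul]
  unfold Pr
  ring

theorem Pr_sum {A : V → V → Prop} {S : Finset V} {σ : Equiv.Perm V} (h : σ ∈ CF A) {v : V}
    (hv : v ∈ S) : ∑ x ∈ av A S v σ, Pr A S v σ x = 1 := by
  have := fiber_cls (A := A) (S := S) (σ := σ) hv (fun _ => 1)
  simp only [mul_one, Finset.sum_const, nsmul_eq_mul] at this
  rw [← this, div_self (cls_pos h).ne']

theorem Pr_sum_le {A : V → V → Prop} {S : Finset V} {σ : Equiv.Perm V} (h : σ ∈ CF A) {v : V}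
    (hv : v ∈ S) (B : Finset V) : ∑ x ∈ B, Pr A S v σ x ≤ 1 := by
  have h1 : ∑ x ∈ B, Pr A S v σ x = ∑ x ∈ B ∩ av A S v σ, Pr A S v σ x := by
    symm
    apply Finset.sum_subset Finset.inter_subset_left
    intro x hx hx2
    exact Pr_eq_zero hv (fun h => hx2 (Finset.mem_inter.2 ⟨hx, h⟩))
  rw [h1, ← Pr_sum h hv]
  exact Finset.sum_le_sum_of_subset_of_nonneg Finset.inter_subset_right
    (fun x _ _ => Pr_nonneg _ _ _ _ _)

/-! ### The function `phi` -/

theorem phi_lower (θ : ℝ) {z : ℝ} (hz : 0 ≤ z) : θ * z - (Real.exp θ - 1) ≤ phi z := by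
  unfold phi
  rcases hz.eq_or_lt with rfl | hz
  · simp; positivity
  · have h1 := Real.add_one_le_exp (θ - Real.log z)
    have h2 : Real.exp (θ - Real.log z) * z = Real.exp θ := by
      rw [Real.exp_sub, Real.exp_log hz]; field_simp
    nlinarith

theorem phi_nonneg {z : ℝ} (hz : 0 ≤ z) : 0 ≤ phi z := by
  have := phi_lower 0 hz
  simpa using this

theorem Kd_term_nonneg (A : V → V → Prop) {m : ℝ} (hm : 0 < m) (S : Finset V) (v : V)
    (σ : Equiv.Perm V) (x : V) : 0 ≤ phi (m * Pr A S v σ x) / m :=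
  div_nonneg (phi_nonneg (mul_nonneg hm.le (Pr_nonneg _ _ _ _ _))) hm.le

theorem Kd_nonneg (A : V → V → Prop) {m : ℝ} (hm : 0 < m) (S : Finset V) (v : V)
    (σ : Equiv.Perm V) : 0 ≤ Kd A m S v σ :=
  Finset.sum_nonneg (fun _ _ => Kd_term_nonneg A hm S v σ _)

/-- The basic identity for the deficit. -/
theorem Kd_sum (A : V → V → Prop) {m : ℝ} (hm : 0 < m) (S : Finset V) {v : V} (hv : v ∈ S) :
    ∑ σ ∈ CF A, Kd A m S v σ =
      ∑ σ ∈ CF A, (Real.log (m * Pr A S v σ (σ v)) + ((av A S v σ).card : ℝ) / m - 1) := by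
  rw [avg_cls A S (fun σ => Real.log (m * Pr A S v σ (σ v)) + ((av A S v σ).card : ℝ) / m - 1)]
  refine Finset.sum_congr rfl (fun σ hσ => ?_)
  have h1 : ∀ τ ∈ cls A S σ, Real.log (m * Pr A S v τ (τ v)) + ((av A S v τ).card : ℝ) / m - 1 =
      (fun x => Real.log (m * Pr A S v σ x) + (((av A S v σ).card : ℝ) / m - 1)) (τ v) := by
    intro τ hτ
    simp only
    rw [Pr_congr hτ, av_congr hτ]; ring
  rw [Finset.sum_congr rfl h1, fiber_cls hv
    (fun x => Real.log (m * Pr A S v σ x) + (((av A S v σ).card : ℝ) / m - 1))]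
  unfold Kd phi
  simp only [mul_add]
  rw [Finset.sum_add_distrib, ← Finset.sum_mul, Pr_sum hσ hv, one_mul]
  have h2 : ∀ x ∈ av A S v σ, (m * Pr A S v σ x * Real.log (m * Pr A S v σ x) -
      m * Pr A S v σ x + 1) / m =
      Pr A S v σ x * Real.log (m * Pr A S v σ x) - Pr A S v σ x + 1 / m := by
    intro x _; field_simp
  rw [Finset.sum_congr rfl h2, Finset.sum_add_distrib, Finset.sum_sub_distrib, Pr_sum hσ hv,
    Finset.sum_const, nsmul_eq_mul]
  ring

/-- A single probability is bounded by the deficit. -/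
theorem Pr_le_Kd (A : V → V → Prop) {m : ℝ} (hm : 0 < m) (S : Finset V) {v : V} (hv : v ∈ S)
    (σ : Equiv.Perm V) (θ : ℝ) (hθ : 0 ≤ θ) (x : V) :
    θ * Pr A S v σ x ≤ Kd A m S v σ + (Real.exp θ - 1) / m := by
  have h0 : 0 ≤ (Real.exp θ - 1) / m := div_nonneg (by linarith [Real.one_le_exp hθ]) hm.le
  by_cases hx : x ∈ av A S v σ
  · have h1 : phi (m * Pr A S v σ x) / m ≤ Kd A m S v σ :=
      Finset.single_le_sum (fun y _ => Kd_term_nonneg A hm S v σ y) hx
    have h2 := phi_lower θ (mul_nonneg hm.le (Pr_nonneg A S v σ x))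
    have h3 : (θ * (m * Pr A S v σ x) - (Real.exp θ - 1)) / m ≤ phi (m * Pr A S v σ x) / m :=
      div_le_div_of_nonneg_right h2 hm.le
    have h4 : (θ * (m * Pr A S v σ x) - (Real.exp θ - 1)) / m =
        θ * Pr A S v σ x - (Real.exp θ - 1) / m := by field_simp
    linarith
  · rw [Pr_eq_zero hv hx, mul_zero]
    exact add_nonneg (Kd_nonneg A hm S v σ) h0

/-- The probability of a set is bounded by the deficit plus a multiple of its size. -/
theorem Pr_set_le (A : V → V → Prop) {m : ℝ} (hm : 0 < m) (S : Finset V) {v : V} (hv : v ∈ S)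
    (σ : Equiv.Perm V) (B : Finset V) :
    ∑ x ∈ B, Pr A S v σ x ≤ Kd A m S v σ + (Real.exp 1 - 1) * (B.card : ℝ) / m := by
  have he : 0 ≤ Real.exp 1 - 1 := by linarith [Real.one_le_exp (zero_le_one)]
  have h1 : ∑ x ∈ B, Pr A S v σ x = ∑ x ∈ B ∩ av A S v σ, Pr A S v σ x := by
    symm
    apply Finset.sum_subset Finset.inter_subset_left
    intro x hx hx2
    exact Pr_eq_zero hv (fun h => hx2 (Finset.mem_inter.2 ⟨hx, h⟩))
  rw [h1]
  have h2 : ∀ x ∈ B ∩ av A S v σ, Pr A S v σ x ≤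
      phi (m * Pr A S v σ x) / m + (Real.exp 1 - 1) / m := by
    intro x _
    have h2 := phi_lower 1 (mul_nonneg hm.le (Pr_nonneg A S v σ x))
    have h3 : (1 * (m * Pr A S v σ x) - (Real.exp 1 - 1)) / m ≤ phi (m * Pr A S v σ x) / m :=
      div_le_div_of_nonneg_right h2 hm.le
    have h4 : (1 * (m * Pr A S v σ x) - (Real.exp 1 - 1)) / m =
        Pr A S v σ x - (Real.exp 1 - 1) / m := by field_simp
    linarith
  refine (Finset.sum_le_sum h2).trans ?_
  rw [Finset.sum_add_distrib, Finset.sum_const, nsmul_eq_mul]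
  have h5 : ∑ x ∈ B ∩ av A S v σ, phi (m * Pr A S v σ x) / m ≤ Kd A m S v σ :=
    Finset.sum_le_sum_of_subset_of_nonneg Finset.inter_subset_right
      (fun x _ _ => Kd_term_nonneg A hm S v σ x)
  have h6 : ((B ∩ av A S v σ).card : ℝ) ≤ (B.card : ℝ) := by
    exact_mod_cast Finset.card_le_card Finset.inter_subset_left
  have h7 : ((B ∩ av A S v σ).card : ℝ) * ((Real.exp 1 - 1) / m) ≤
      (Real.exp 1 - 1) * (B.card : ℝ) / m := by
    rw [mul_div_assoc', mul_comm]
    exact div_le_div_of_nonneg_right (mul_le_mul_of_nonneg_left h6 he) hm.le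
  linarith

end Pool.Agent.Lib.MP_3cdeb8_co
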