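import Pool.Agent.Lib.MP_3cdeb8_co.Defs

set_option autoImplicit false
set_option linter.unusedSectionVars false

namespace Pool.Agent.Lib.MP_3cdeb8_co

open Finset
open scoped Classical

variable {V : Type*} [Fintype V] {d : ℕ}

theorem mem_Sf {i : ℕ} {f : V → Fin d} {v : V} : v ∈ Sf i f ↔ (f v).val < i := by simp [Sf]

theorem mem_Tf {i : ℕ} {f : V → Fin d} {v : V} :
    v ∈ Tf i f ↔ i ≤ (f v).val ∧ (f v).val < 2 * i := by simp [Tf]

/-- Number of labellings with prescribed sets of allowed labels. -/
theorem card_pi (B : V → Finset (Fin d)) :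
    ((univ.filter fun f : V → Fin d => ∀ v, f v ∈ B v).card : ℝ) = ∏ v, ((B v).card : ℝ) := by
  have : (univ.filter fun f : V → Fin d => ∀ v, f v ∈ B v) = Fintype.piFinset B := by
    ext f; simp
  rw [this, Fintype.card_piFinset]
  push_cast
  rfl

theorem card_lt {i : ℕ} (hi : i ≤ d) : (univ.filter fun j : Fin d => j.val < i).card = i := by
  rw [Fin.card_filter_val_lt]; omega

theorem card_ge {i : ℕ} (hi : i ≤ d) : (univ.filter fun j : Fin d => i ≤ j.val).card = d - i := by
  have h := Finset.card_filter_add_card_filter_not (s := (univ : Finset (Fin d)))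
    (fun j => j.val < i)
  rw [card_lt hi] at h
  have h2 : (univ.filter fun j : Fin d => ¬ j.val < i) = univ.filter fun j : Fin d => i ≤ j.val := by
    ext j; simp
  rw [h2] at h
  simp at h
  omega

theorem card_mid {i : ℕ} (hi : 2 * i ≤ d) :
    (univ.filter fun j : Fin d => i ≤ j.val ∧ j.val < 2 * i).card = i := by
  have h := Finset.card_filter_add_card_filter_not
    (s := univ.filter fun j : Fin d => j.val < 2 * i) (fun j => j.val < i)
  rw [Finset.filter_filter, Finset.filter_filter, card_lt hi] at h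
  have h2 : (univ.filter fun j : Fin d => j.val < 2 * i ∧ j.val < i) =
      univ.filter fun j : Fin d => j.val < i := by
    ext j; simp; omega
  have h3 : (univ.filter fun j : Fin d => j.val < 2 * i ∧ ¬ j.val < i) =
      univ.filter fun j : Fin d => i ≤ j.val ∧ j.val < 2 * i := by
    ext j; simp; omega
  rw [h2, h3, card_lt (by omega : i ≤ d)] at h
  omega

/-- Changing the label of `v` inside `[0,i)` does not change `Sf i f`. -/
theorem Sf_update {i : ℕ} {f : V → Fin d} {v : V} {j : Fin d} (h1 : (f v).val < i)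
    (h2 : j.val < i) : Sf i (Function.update f v j) = Sf i f := by
  ext w
  rw [mem_Sf, mem_Sf]
  by_cases h : w = v
  · subst h; simp [h1, h2]
  · rw [Function.update_of_ne h]

theorem sum_shift_aux {i : ℕ} (v : V) (G : Finset V → ℝ) (j j' : Fin d) (hj : j.val < i)
    (hj' : j'.val < i) :
    ∑ f ∈ univ.filter (fun f : V → Fin d => f v = j), G (Sf i f) =
      ∑ f ∈ univ.filter (fun f : V → Fin d => f v = j'), G (Sf i f) := by
  refine Finset.sum_bij' (fun f _ => Function.update f v j') (fun f _ => Function.update f v j)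
    ?_ ?_ ?_ ?_ ?_
  · intro f _; simp
  · intro f _; simp
  · intro f hf
    have := (Finset.mem_filter.1 hf).2
    simp [← this]
  · intro f hf
    have := (Finset.mem_filter.1 hf).2
    simp [← this]
  · intro f hf
    have := (Finset.mem_filter.1 hf).2
    rw [Sf_update (by rw [this]; exact hj) hj']

theorem sum_shift {i : ℕ} (v : V) (G : Finset V → ℝ) (j : Fin d) (hj : j.val + 1 = i) :
    ∑ f ∈ univ.filter (fun f : V → Fin d => (f v).val < i), G (Sf i f) =
      (i : ℝ) * ∑ f ∈ univ.filter (fun f : V → Fin d => f v = j), G (Sf i f) := by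
  have hi : i ≤ d := by have := j.isLt; omega
  have h1 : ∑ f ∈ univ.filter (fun f : V → Fin d => (f v).val < i), G (Sf i f) =
      ∑ j' ∈ univ.filter (fun j' : Fin d => j'.val < i),
        ∑ f ∈ univ.filter (fun f : V → Fin d => f v = j'), G (Sf i f) := by
    rw [← Finset.sum_fiberwise_of_maps_to (s := univ.filter (fun f : V → Fin d => (f v).val < i))
      (t := univ.filter (fun j' : Fin d => j'.val < i)) (g := fun f => f v)
      (fun f hf => by simpa using hf)]
    refine Finset.sum_congr rfl (fun j' hj' => ?_)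
    rw [Finset.filter_filter]
    refine Finset.sum_congr ?_ (fun _ _ => rfl)
    ext f
    simp only [Finset.mem_filter, Finset.mem_univ, true_and, and_iff_right_iff_imp] at hj' ⊢
    intro h; rw [h]; exact hj'
  rw [h1, Finset.sum_congr rfl (fun j' hj' => sum_shift_aux v G j' j
    ((Finset.mem_filter.1 hj').2) (by omega)), Finset.sum_const, card_lt hi, nsmul_eq_mul]

/-- Regrouping a sum over labellings according to the label of the vertex. -/
theorem sum_regroup (G : Finset V → V → ℝ) :
    ∑ f : V → Fin d, ∑ v, G (Sf ((f v).val + 1) f) v =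
      ∑ i ∈ Finset.Icc 1 d, (1 / (i : ℝ)) * ∑ f : V → Fin d, ∑ v ∈ Sf i f, G (Sf i f) v := by
  have h1 : ∀ i ∈ Finset.Icc 1 d, (1 / (i : ℝ)) * ∑ f : V → Fin d, ∑ v ∈ Sf i f, G (Sf i f) v =
      ∑ v, ∑ f ∈ univ.filter (fun f : V → Fin d => (f v).val + 1 = i), G (Sf i f) v := by
    intro i hi
    obtain ⟨hi1, hi2⟩ := Finset.mem_Icc.1 hi
    have hi0 : (i : ℝ) ≠ 0 := by positivity
    have h2 : ∑ f : V → Fin d, ∑ v ∈ Sf i f, G (Sf i f) v =
        ∑ v, ∑ f ∈ univ.filter (fun f : V → Fin d => (f v).val < i), G (Sf i f) v := by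
      have : ∀ f : V → Fin d, ∑ v ∈ Sf i f, G (Sf i f) v =
          ∑ v, if (f v).val < i then G (Sf i f) v else 0 := by
        intro f
        rw [← Finset.sum_filter]
        exact Finset.sum_congr (by ext v; simp [mem_Sf]) (fun _ _ => rfl)
      rw [Finset.sum_congr rfl (fun f _ => this f), Finset.sum_comm]
      exact Finset.sum_congr rfl (fun v _ => by rw [Finset.sum_filter])
    rw [h2, Finset.mul_sum]
    refine Finset.sum_congr rfl (fun v _ => ?_)
    have h3 := sum_shift (d := d) (i := i) v (fun S => G S v) ⟨i - 1, by omega⟩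
      (by show i - 1 + 1 = i; omega)
    rw [h3, ← mul_assoc, one_div, inv_mul_cancel₀ hi0, one_mul]
    refine Finset.sum_congr ?_ (fun _ _ => rfl)
    ext f
    simp only [Finset.mem_filter, Finset.mem_univ, true_and]
    rw [Fin.ext_iff]
    show (f v).val = i - 1 ↔ _
    omega
  rw [Finset.sum_congr rfl h1, Finset.sum_comm (s := (univ : Finset (V → Fin d)))]
  rw [Finset.sum_comm (s := Finset.Icc 1 d)]
  refine Finset.sum_congr rfl (fun v _ => ?_)
  rw [← Finset.sum_fiberwise_of_maps_to (s := (univ : Finset (V → Fin d)))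
    (t := Finset.Icc 1 d) (g := fun f => (f v).val + 1)
    (fun f _ => Finset.mem_Icc.2 ⟨by omega, (f v).isLt⟩)]
  refine Finset.sum_congr rfl (fun i _ => ?_)
  refine Finset.sum_congr rfl (fun f hf => ?_)
  rw [(Finset.mem_filter.1 hf).2]

/-- Exchanging the labels `[0,i)` and `[i,2i)`. -/
def swp {i : ℕ} (hi : 2 * i ≤ d) (j : Fin d) : Fin d :=
  if h : j.val < i then ⟨j.val + i, by omega⟩
  else if h2 : j.val < 2 * i then ⟨j.val - i, by omega⟩ else j

theorem swp_swp {i : ℕ} (hi : 2 * i ≤ d) (j : Fin d) : swp hi (swp hi j) = j := by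
  unfold swp
  apply Fin.ext
  by_cases h : j.val < i
  · have h1 : ¬ (j.val + i < i) := by omega
    have h2 : j.val + i < 2 * i := by omega
    simp [h, h1, h2]
  · by_cases h2 : j.val < 2 * i
    · have h3 : j.val - i < i := by omega
      have h4 : j.val - i + i = j.val := by omega
      simp [h, h2, h3, h4]
    · simp [h, h2]

theorem swp_lt {i : ℕ} (hi : 2 * i ≤ d) (j : Fin d) :
    (swp hi j).val < i ↔ i ≤ j.val ∧ j.val < 2 * i := by
  unfold swp
  by_cases h : j.val < i
  · simp [h]
  · by_cases h2 : j.val < 2 * i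
    · simp [h, h2]; omega
    · simp [h, h2]

theorem Sf_swp {i : ℕ} (hi : 2 * i ≤ d) (f : V → Fin d) :
    Sf i (fun v => swp hi (f v)) = Tf i f := by
  ext v
  rw [mem_Sf, mem_Tf, swp_lt]

theorem sum_Tf {i : ℕ} (hi : 2 * i ≤ d) (G : Finset V → ℝ) :
    ∑ f : V → Fin d, G (Tf i f) = ∑ f : V → Fin d, G (Sf i f) := by
  refine Finset.sum_bij' (fun f _ => fun v => swp hi (f v)) (fun f _ => fun v => swp hi (f v))
    ?_ ?_ ?_ ?_ ?_
  · intro f _; exact Finset.mem_univ _
  · intro f _; exact Finset.mem_univ _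
  · intro f _; funext v; exact swp_swp hi _
  · intro f _; funext v; exact swp_swp hi _
  · intro f _; rw [Sf_swp]

/-- Number of labellings with all labels in `W` less than `i`. -/
theorem cnt_lt {i : ℕ} (hd : 0 < d) (hi : i ≤ d) (W : Finset V) :
    ((univ.filter fun f : V → Fin d => ∀ v ∈ W, (f v).val < i).card : ℝ) =
      (i / d : ℝ) ^ W.card * (d : ℝ) ^ Fintype.card V := by
  have hd' : (d : ℝ) ≠ 0 := by positivity
  have h := card_pi (V := V) (d := d)
    (fun v => if v ∈ W then univ.filter (fun j : Fin d => j.val < i) else univ)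
  have h1 : (univ.filter fun f : V → Fin d => ∀ v, f v ∈
      (if v ∈ W then univ.filter (fun j : Fin d => j.val < i) else univ)) =
      univ.filter fun f : V → Fin d => ∀ v ∈ W, (f v).val < i := by
    ext f
    simp only [Finset.mem_filter, Finset.mem_univ, true_and]
    refine forall_congr' (fun v => ?_)
    by_cases hv : v ∈ W <;> simp [hv]
  rw [h1] at h
  rw [h, ← Finset.prod_mul_prod_compl W]
  have h2 : ∏ v ∈ W, (((if v ∈ W then univ.filter (fun j : Fin d => j.val < i)
      else univ : Finset (Fin d))).card : ℝ) = (i : ℝ) ^ W.card := by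
    rw [Finset.prod_congr rfl (g := fun _ => (i : ℝ)), Finset.prod_const]
    intro v hv
    rw [if_pos hv, card_lt hi]
  have h3 : ∏ v ∈ Wᶜ, (((if v ∈ W then univ.filter (fun j : Fin d => j.val < i)
      else univ : Finset (Fin d))).card : ℝ) = (d : ℝ) ^ (Wᶜ).card := by
    rw [Finset.prod_congr rfl (g := fun _ => (d : ℝ)), Finset.prod_const]
    intro v hv
    rw [if_neg (Finset.mem_compl.1 hv)]
    simp
  rw [h2, h3, Finset.card_compl, div_pow, div_mul_eq_mul_div, eq_div_iff (by positivity),
    mul_assoc, ← pow_add, Nat.sub_add_cancel (Finset.card_le_univ W)]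

/-- Number of labellings such that `v` is the only element of `W` with label less than `i`. -/
theorem cnt_only {i : ℕ} (hd : 0 < d) (hi : i ≤ d) (W : Finset V) (v : V) (hv : v ∈ W) :
    ((univ.filter fun f : V → Fin d => (f v).val < i ∧
      ∀ w ∈ W, (f w).val < i → w = v).card : ℝ) =
      (i / d : ℝ) * (1 - i / d : ℝ) ^ (W.card - 1) * (d : ℝ) ^ Fintype.card V := by
  have hd' : (d : ℝ) ≠ 0 := by positivity
  set B : V → Finset (Fin d) := fun w => if w = v then univ.filter (fun j : Fin d => j.val < i)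
    else if w ∈ W then univ.filter (fun j : Fin d => i ≤ j.val) else univ with hB
  have h := card_pi (V := V) (d := d) B
  have h1 : (univ.filter fun f : V → Fin d => ∀ w, f w ∈ B w) =
      univ.filter fun f : V → Fin d => (f v).val < i ∧
      ∀ w ∈ W, (f w).val < i → w = v := by
    ext f
    simp only [Finset.mem_filter, Finset.mem_univ, true_and, hB]
    constructor
    · intro h
      refine ⟨by simpa using h v, fun w hw hlt => ?_⟩
      by_contra hne
      have := h w
      rw [if_neg hne, if_pos hw] at this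
      simp at this
      omega
    · rintro ⟨h1, h2⟩ w
      by_cases hwv : w = v
      · subst hwv; simpa using h1
      · rw [if_neg hwv]
        by_cases hw : w ∈ W
        · rw [if_pos hw]
          simp only [Finset.mem_filter, Finset.mem_univ, true_and]
          by_contra hc
          exact hwv (h2 w hw (by omega))
        · rw [if_neg hw]; simp
  rw [h1] at h
  rw [h, ← Finset.prod_mul_prod_compl W, ← Finset.mul_prod_erase W _ hv]
  have h2 : ((B v).card : ℝ) = i := by
    simp only [hB, if_true]; rw [card_lt hi]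
  have h3 : ∏ w ∈ W.erase v, ((B w).card : ℝ) = ((d - i : ℕ) : ℝ) ^ (W.card - 1) := by
    rw [Finset.prod_congr rfl (g := fun _ => ((d - i : ℕ) : ℝ)), Finset.prod_const,
      Finset.card_erase_of_mem hv]
    intro w hw
    have := Finset.mem_erase.1 hw
    simp only [hB]
    rw [if_neg this.1, if_pos this.2, card_ge hi]
  have h4 : ∏ w ∈ Wᶜ, ((B w).card : ℝ) = (d : ℝ) ^ (Wᶜ).card := by
    rw [Finset.prod_congr rfl (g := fun _ => (d : ℝ)), Finset.prod_const]
    intro w hw
    have hw := Finset.mem_compl.1 hw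
    have hwv : w ≠ v := by rintro rfl; exact hw hv
    simp only [hB]
    rw [if_neg hwv, if_neg hw]
    simp
  have hW : 1 ≤ W.card := Finset.card_pos.2 ⟨v, hv⟩
  have h5 : (1 - i / d : ℝ) = ((d - i : ℕ) : ℝ) / d := by
    rw [Nat.cast_sub hi]; field_simp
  have h6 : (d : ℝ) ^ Fintype.card V = d * (d : ℝ) ^ (W.card - 1) * (d : ℝ) ^ (Wᶜ).card := by
    rw [← pow_succ', ← pow_add, Finset.card_compl]
    congr 1
    have := Finset.card_le_univ W
    omega
  rw [h2, h3, h4, h5, h6, div_pow]
  field_simp

/-- Given `Sf i f = S`, the event that exactly one element of `Q` is in `Tf i f`. -/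
theorem cnt_one {i : ℕ} (hi : 2 * i < d) (S Q : Finset V) (hSQ : Disjoint S Q) :
    ((univ.filter fun f : V → Fin d => Sf i f = S).card : ℝ) *
      ((Q.card : ℝ) * (i / (d - i) : ℝ) * ((d - 2 * i) / (d - i) : ℝ) ^ (Q.card - 1)) ≤
    ((univ.filter fun f : V → Fin d => Sf i f = S ∧ (Tf i f ∩ Q).card = 1).card : ℝ) := by
  have hdi : (0 : ℝ) < (d : ℝ) - i := by
    have : (2 * i : ℝ) < d := by exact_mod_cast hi
    have : (0 : ℝ) ≤ i := by positivity
    linarith
  set B0 : V → Finset (Fin d) := fun w => if w ∈ S then univ.filter (fun j : Fin d => j.val < i)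
    else univ.filter (fun j : Fin d => i ≤ j.val) with hB0
  have h0 : (univ.filter fun f : V → Fin d => ∀ w, f w ∈ B0 w) =
      univ.filter fun f : V → Fin d => Sf i f = S := by
    ext f
    simp only [Finset.mem_filter, Finset.mem_univ, true_and, hB0]
    constructor
    · intro h
      ext w
      rw [mem_Sf]
      have := h w
      by_cases hw : w ∈ S
      · rw [if_pos hw] at this; simp at this; simp [hw, this]
      · rw [if_neg hw] at this; simp at this; simp [hw, this]
    · intro h w
      by_cases hw : w ∈ S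
      · rw [if_pos hw]
        rw [← h, mem_Sf] at hw; simpa using hw
      · rw [if_neg hw]
        rw [← h, mem_Sf] at hw; simpa using hw
  have hc0 := card_pi (V := V) (d := d) B0
  rw [h0] at hc0
  rw [hc0]
  set B : V → V → Finset (Fin d) := fun u w =>
    if w ∈ S then univ.filter (fun j : Fin d => j.val < i)
    else if w = u then univ.filter (fun j : Fin d => i ≤ j.val ∧ j.val < 2 * i)
    else if w ∈ Q then univ.filter (fun j : Fin d => 2 * i ≤ j.val)
    else univ.filter (fun j : Fin d => i ≤ j.val) with hB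
  have hsub : ∀ u ∈ Q, (univ.filter fun f : V → Fin d => ∀ w, f w ∈ B u w) ⊆
      univ.filter fun f : V → Fin d => Sf i f = S ∧ Tf i f ∩ Q = {u} := by
    intro u hu f hf
    have huS : u ∉ S := fun h => (Finset.disjoint_left.1 hSQ h) hu
    simp only [Finset.mem_filter, Finset.mem_univ, true_and] at hf ⊢
    refine ⟨?_, ?_⟩
    · ext w
      rw [mem_Sf]
      have := hf w
      simp only [hB] at this
      split_ifs at this with h1 h2 h3 <;> simp at this <;> simp [h1] <;> omega
    · ext w
      rw [Finset.mem_inter, mem_Tf, Finset.mem_singleton]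
      have := hf w
      simp only [hB] at this
      constructor
      · rintro ⟨h1, h2⟩
        by_contra hne
        have hwS : w ∉ S := fun h => (Finset.disjoint_left.1 hSQ h) h2
        rw [if_neg hwS, if_neg hne, if_pos h2] at this
        simp at this
        omega
      · rintro rfl
        rw [if_neg huS, if_pos rfl] at this
        simp at this
        exact ⟨this, hu⟩
  have hcard : ∀ u ∈ Q, ((univ.filter fun f : V → Fin d => ∀ w, f w ∈ B u w).card : ℝ) =
      (∏ w, ((B0 w).card : ℝ)) * ((i / (d - i) : ℝ) * ((d - 2 * i) / (d - i) : ℝ) ^ (Q.card - 1)) := by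
    intro u hu
    rw [card_pi]
    rw [← Finset.prod_mul_prod_compl Q, ← Finset.prod_mul_prod_compl Q (fun w => ((B0 w).card : ℝ)),
      ← Finset.mul_prod_erase Q _ hu]
    have huS : u ∉ S := fun h => (Finset.disjoint_left.1 hSQ h) hu
    have e1 : ((B u u).card : ℝ) = i := by
      have : B u u = univ.filter (fun j : Fin d => i ≤ j.val ∧ j.val < 2 * i) := by
        simp only [hB]; rw [if_neg huS]; simp
      rw [this, card_mid (by omega)]
    have e2 : ∏ w ∈ Q.erase u, ((B u w).card : ℝ) = ((d : ℝ) - 2 * i) ^ (Q.card - 1) := by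
      rw [Finset.prod_congr rfl (g := fun _ => ((d : ℝ) - 2 * i)), Finset.prod_const,
        Finset.card_erase_of_mem hu]
      intro w hw
      have := Finset.mem_erase.1 hw
      have hwS : w ∉ S := fun h => (Finset.disjoint_left.1 hSQ h) this.2
      simp only [hB]
      rw [if_neg hwS, if_neg this.1, if_pos this.2, card_ge (by omega), Nat.cast_sub (by omega)]
      push_cast; ring
    have e3 : ∏ w ∈ Qᶜ, ((B u w).card : ℝ) = ∏ w ∈ Qᶜ, ((B0 w).card : ℝ) := by
      refine Finset.prod_congr rfl (fun w hw => ?_)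
      have hw := Finset.mem_compl.1 hw
      simp only [hB, hB0]
      by_cases hwS : w ∈ S
      · rw [if_pos hwS, if_pos hwS]
      · have hwu : w ≠ u := by rintro rfl; exact hw hu
        rw [if_neg hwS, if_neg hwS, if_neg hwu, if_neg hw]
    have e4 : ∏ w ∈ Q, ((B0 w).card : ℝ) = ((d : ℝ) - i) ^ Q.card := by
      rw [Finset.prod_congr rfl (g := fun _ => ((d : ℝ) - i)), Finset.prod_const]
      intro w hw
      have hwS : w ∉ S := fun h => (Finset.disjoint_left.1 hSQ h) hw
      simp only [hB0]
      rw [if_neg hwS, card_ge (by omega), Nat.cast_sub (by omega)]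
    have hQ : Q.card = (Q.card - 1) + 1 := by
      have := Finset.card_pos.2 ⟨u, hu⟩
      omega
    rw [e1, e2, e3, e4, div_pow]
    have e5 : ((d : ℝ) - i) ^ Q.card = ((d : ℝ) - i) ^ (Q.card - 1) * ((d : ℝ) - i) := by
      rw [← pow_succ, ← hQ]
    have hdi' : ((d : ℝ) - i) ≠ 0 := hdi.ne'
    have hpw : ((d : ℝ) - i) ^ (Q.card - 1) ≠ 0 := pow_ne_zero _ hdi'
    rw [e5]
    generalize ((d : ℝ) - i) ^ (Q.card - 1) = P1 at *
    generalize ((d : ℝ) - 2 * i) ^ (Q.card - 1) = P2
    generalize ∏ w ∈ Qᶜ, ((B0 w).card : ℝ) = P3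
    generalize ((d : ℝ) - i) = D at *
    field_simp
  have hdisj : ((univ.filter fun f : V → Fin d => Sf i f = S ∧ (Tf i f ∩ Q).card = 1).card : ℝ) ≥
      ∑ u ∈ Q, ((univ.filter fun f : V → Fin d => Sf i f = S ∧ Tf i f ∩ Q = {u}).card : ℝ) := by
    rw [← Nat.cast_sum, ← Finset.card_biUnion]
    · norm_cast
      apply Finset.card_le_card
      intro f hf
      obtain ⟨u, _, hu⟩ := Finset.mem_biUnion.1 hf
      simp only [Finset.mem_filter, Finset.mem_univ, true_and] at hu ⊢
      exact ⟨hu.1, by rw [hu.2]; simp⟩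
    · intro u _ u' _ hne
      rw [Function.onFun, Finset.disjoint_left]
      intro f hf hf'
      simp only [Finset.mem_filter, Finset.mem_univ, true_and] at hf hf'
      have := hf.2.symm.trans hf'.2
      exact hne (Finset.singleton_injective this)
  refine le_trans ?_ hdisj
  have hle : ∑ u ∈ Q, ((univ.filter fun f : V → Fin d => ∀ w, f w ∈ B u w).card : ℝ) ≤
      ∑ u ∈ Q, ((univ.filter fun f : V → Fin d => Sf i f = S ∧ Tf i f ∩ Q = {u}).card : ℝ) :=
    Finset.sum_le_sum (fun u hu => by exact_mod_cast Finset.card_le_card (hsub u hu))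
  refine le_trans ?_ hle
  rw [Finset.sum_congr rfl hcard, Finset.sum_const, nsmul_eq_mul]
  apply le_of_eq; ring

end Pool.Agent.Lib.MP_3cdeb8_co
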