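import Pool.Agent.Lib.MP_3cdeb8_co.Chain
import Pool.Agent.Lib.MP_3cdeb8_co.Labels

set_option autoImplicit false
set_option linter.unusedSectionVars false

namespace Pool.Agent.Lib.MP_3cdeb8_co

open Finset
open scoped Classical

variable {V : Type*} [Fintype V]

theorem Nm_pos {A : V → V → Prop} {d i : ℕ} (hV : 0 < Fintype.card V) (hd : 0 < d) (hi : 0 < i)
    (hC : (CF A).Nonempty) : 0 < Nm A d i := by
  unfold Nm
  have h1 : (0 : ℝ) < (Fintype.card V : ℝ) := by exact_mod_cast hV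
  have h2 : (0 : ℝ) < d := by exact_mod_cast hd
  have h3 : (0 : ℝ) < i := by exact_mod_cast hi
  have h4 : (0 : ℝ) < ((CF A).card : ℝ) := by exact_mod_cast Finset.card_pos.2 hC
  positivity

theorem Nm_nonneg (A : V → V → Prop) (d i : ℕ) : 0 ≤ Nm A d i := by
  unfold Nm; positivity

theorem slack_nonneg (A : V → V → Prop) (d i : ℕ) : 0 ≤ slack A d i := by
  unfold slack Av Tot
  apply div_nonneg _ (Nm_nonneg A d i)
  refine Finset.sum_nonneg (fun f _ => Finset.sum_nonneg (fun σ _ => Finset.sum_nonneg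
    (fun v _ => Kd_nonneg A (by positivity) _ _ _)))

theorem sum_av_card {A : V → V → Prop} {d : ℕ} (hA : Reg A d) (hd : 0 < d) {i : ℕ} (hi : i ≤ d)
    {σ : Equiv.Perm V} (hσ : σ ∈ CF A) :
    ∑ f : V → Fin d, ∑ v ∈ Sf i f, ((av A (Sf i f) v σ).card : ℝ) ≤
      ((i : ℝ) + 1) * ((Fintype.card V : ℝ) * (i / d : ℝ) * (d : ℝ) ^ (Fintype.card V)) := by
  have hd' : (0 : ℝ) < d := by exact_mod_cast hd
  have h1 : ∀ f : V → Fin d, ∑ v ∈ Sf i f, ((av A (Sf i f) v σ).card : ℝ) =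
      ∑ v, ∑ x ∈ univ.filter (fun x => A v x),
        if (∀ w ∈ ({v, σ.symm x} : Finset V), (f w).val < i) then (1 : ℝ) else 0 := by
    intro f
    have h2 : ∑ v ∈ Sf i f, ((av A (Sf i f) v σ).card : ℝ) =
        ∑ v, if v ∈ Sf i f then ((av A (Sf i f) v σ).card : ℝ) else 0 := by
      rw [← Finset.sum_filter]
      exact Finset.sum_congr (by ext v; simp) (fun _ _ => rfl)
    rw [h2]
    refine Finset.sum_congr rfl (fun v _ => ?_)
    rw [Finset.sum_boole]
    by_cases hv : v ∈ Sf i f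
    · rw [if_pos hv]
      congr 2
      ext x
      simp only [mem_av, Finset.mem_filter, Finset.mem_univ, true_and, Finset.mem_insert,
        Finset.mem_singleton, forall_eq_or_imp, forall_eq, mem_Sf]
      rw [mem_Sf] at hv
      tauto
    · rw [if_neg hv]
      rw [mem_Sf] at hv
      symm
      norm_cast
      rw [Finset.card_eq_zero, Finset.filter_eq_empty_iff]
      intro x _ h
      exact hv (h v (by simp))
  rw [Finset.sum_congr rfl (fun f _ => h1 f), Finset.sum_comm]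
  have h3 : ∀ v ∈ (univ : Finset V), ∑ f : V → Fin d, ∑ x ∈ univ.filter (fun x => A v x),
      (if (∀ w ∈ ({v, σ.symm x} : Finset V), (f w).val < i) then (1 : ℝ) else 0) ≤
      ((i : ℝ) + 1) * ((i / d : ℝ) * (d : ℝ) ^ (Fintype.card V)) := by
    intro v _
    rw [Finset.sum_comm]
    have h4 : ∀ x ∈ univ.filter (fun x => A v x), ∑ f : V → Fin d,
        (if (∀ w ∈ ({v, σ.symm x} : Finset V), (f w).val < i) then (1 : ℝ) else 0) =
        if x = σ v then (i / d : ℝ) * (d : ℝ) ^ (Fintype.card V)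
        else (i / d : ℝ) ^ 2 * (d : ℝ) ^ (Fintype.card V) := by
      intro x _
      rw [Finset.sum_boole]
      rw [cnt_lt hd hi]
      by_cases hx : x = σ v
      · rw [if_pos hx, hx]; simp
      · rw [if_neg hx, Finset.card_pair]
        intro h
        exact hx (by rw [h]; simp)
    rw [Finset.sum_congr rfl h4]
    have h5 : σ v ∈ univ.filter (fun x => A v x) := by simpa using mem_CF.1 hσ v
    rw [← Finset.add_sum_erase _ _ h5, if_pos rfl]
    have h6 : ∑ x ∈ (univ.filter (fun x => A v x)).erase (σ v),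
        (if x = σ v then (i / d : ℝ) * (d : ℝ) ^ (Fintype.card V)
        else (i / d : ℝ) ^ 2 * (d : ℝ) ^ (Fintype.card V)) =
        ((d : ℝ) - 1) * ((i / d : ℝ) ^ 2 * (d : ℝ) ^ (Fintype.card V)) := by
      rw [Finset.sum_congr rfl (g := fun _ => (i / d : ℝ) ^ 2 * (d : ℝ) ^ (Fintype.card V)),
        Finset.sum_const, Finset.card_erase_of_mem h5, hA.1 v, nsmul_eq_mul, Nat.cast_sub hd]
      · push_cast; ring
      · intro x hx
        rw [if_neg (Finset.mem_erase.1 hx).1]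
    rw [h6]
    have h7 : (0 : ℝ) < (d : ℝ) ^ (Fintype.card V) := by positivity
    have h8 : (0 : ℝ) ≤ (i / d : ℝ) := by positivity
    have h9 : ((d : ℝ) - 1) * (i / d : ℝ) ≤ i := by
      rw [mul_div_assoc', div_le_iff₀ hd']
      have : (0 : ℝ) ≤ i := by positivity
      nlinarith
    have h10 : ((d : ℝ) - 1) * ((i / d : ℝ) ^ 2 * (d : ℝ) ^ (Fintype.card V)) =
        (((d : ℝ) - 1) * (i / d : ℝ)) * ((i / d : ℝ) * (d : ℝ) ^ (Fintype.card V)) := by ring
    rw [h10]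
    have h11 : 0 ≤ (i / d : ℝ) * (d : ℝ) ^ (Fintype.card V) := by positivity
    nlinarith [mul_le_mul_of_nonneg_right h9 h11]
  refine (Finset.sum_le_sum h3).trans ?_
  rw [Finset.sum_const, Finset.card_univ, nsmul_eq_mul]
  apply le_of_eq; ring

/-- The averaged log-probability at scale `i`. -/
noncomputable def AvL (A : V → V → Prop) (d i : ℕ) : ℝ :=
  Av A d i (fun S v σ => Real.log (Pr A S v σ (σ v)))

theorem sum_Sf_card {d : ℕ} (hd : 0 < d) {i : ℕ} (hi : i ≤ d) :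
    ∑ f : V → Fin d, ((Sf i f).card : ℝ) =
      (Fintype.card V : ℝ) * (i / d : ℝ) * (d : ℝ) ^ (Fintype.card V) := by
  have h1 : ∀ f : V → Fin d, ((Sf i f).card : ℝ) =
      ∑ v, if (∀ w ∈ ({v} : Finset V), (f w).val < i) then (1 : ℝ) else 0 := by
    intro f
    rw [Finset.sum_boole]
    congr 2
    ext v; simp [mem_Sf]
  rw [Finset.sum_congr rfl (fun f _ => h1 f), Finset.sum_comm]
  rw [Finset.sum_congr rfl (g := fun _ => (i / d : ℝ) * (d : ℝ) ^ (Fintype.card V)),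
    Finset.sum_const, Finset.card_univ, nsmul_eq_mul]
  · ring
  · intro v _
    rw [Finset.sum_boole, cnt_lt hd hi]; simp

theorem slack_le {A : V → V → Prop} {d : ℕ} (hA : Reg A d) (hV : 0 < Fintype.card V)
    (hd : 0 < d) (hC : (CF A).Nonempty) {i : ℕ} (hi1 : 1 ≤ i) (hi : i ≤ d) :
    slack A d i ≤ Real.log (i + 1) + AvL A d i := by
  have hN := Nm_pos hV hd hi1 hC
  have hm : (0 : ℝ) < (i : ℝ) + 1 := by positivity
  unfold slack AvL Av
  rw [div_le_iff₀ hN, add_mul, div_mul_cancel₀ _ hN.ne']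
  unfold Tot
  have h1 : ∀ f : V → Fin d, ∑ σ ∈ CF A, ∑ v ∈ Sf i f, Kd A (i + 1) (Sf i f) v σ =
      ∑ σ ∈ CF A, ∑ v ∈ Sf i f, (Real.log ((i : ℝ) + 1) + Real.log (Pr A (Sf i f) v σ (σ v)) +
        ((av A (Sf i f) v σ).card : ℝ) / (i + 1) - 1) := by
    intro f
    rw [Finset.sum_comm, Finset.sum_comm (s := CF A)]
    refine Finset.sum_congr rfl (fun v hv => ?_)
    rw [Kd_sum A hm _ hv]
    refine Finset.sum_congr rfl (fun σ hσ => ?_)
    rw [Real.log_mul hm.ne' (Pr_self_pos hσ v).ne']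
  rw [Finset.sum_congr rfl (fun f _ => h1 f)]
  have h2 : ∑ f : V → Fin d, ∑ σ ∈ CF A, ∑ v ∈ Sf i f, (Real.log ((i : ℝ) + 1) +
      Real.log (Pr A (Sf i f) v σ (σ v)) + ((av A (Sf i f) v σ).card : ℝ) / (i + 1) - 1) =
      (Real.log ((i : ℝ) + 1) - 1) * Nm A d i +
      ∑ f : V → Fin d, ∑ σ ∈ CF A, ∑ v ∈ Sf i f, Real.log (Pr A (Sf i f) v σ (σ v)) +
      (∑ f : V → Fin d, ∑ σ ∈ CF A, ∑ v ∈ Sf i f, ((av A (Sf i f) v σ).card : ℝ)) / (i + 1) := by
    have e1 : ∀ f : V → Fin d, ∑ σ ∈ CF A, ∑ v ∈ Sf i f, (Real.log ((i : ℝ) + 1) +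
      Real.log (Pr A (Sf i f) v σ (σ v)) + ((av A (Sf i f) v σ).card : ℝ) / (i + 1) - 1) =
      (Real.log ((i : ℝ) + 1) - 1) * (((CF A).card : ℝ) * ((Sf i f).card : ℝ)) +
      ∑ σ ∈ CF A, ∑ v ∈ Sf i f, Real.log (Pr A (Sf i f) v σ (σ v)) +
      (∑ σ ∈ CF A, ∑ v ∈ Sf i f, ((av A (Sf i f) v σ).card : ℝ)) / (i + 1) := by
      intro f
      rw [Finset.sum_div]
      have e2 : (Real.log ((i : ℝ) + 1) - 1) * (((CF A).card : ℝ) * ((Sf i f).card : ℝ)) =
          ∑ σ ∈ CF A, ∑ v ∈ Sf i f, (Real.log ((i : ℝ) + 1) - 1) := by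
        rw [Finset.sum_const, Finset.sum_const, nsmul_eq_mul, nsmul_eq_mul]; ring
      rw [e2, ← Finset.sum_add_distrib, ← Finset.sum_add_distrib]
      refine Finset.sum_congr rfl (fun σ _ => ?_)
      rw [Finset.sum_div, ← Finset.sum_add_distrib, ← Finset.sum_add_distrib]
      exact Finset.sum_congr rfl (fun v _ => by ring)
    rw [Finset.sum_congr rfl (fun f _ => e1 f), Finset.sum_add_distrib, Finset.sum_add_distrib,
      ← Finset.mul_sum, ← Finset.mul_sum, sum_Sf_card hd hi, ← Finset.sum_div]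
    unfold Nm; ring
  rw [h2]
  have h3 : ∑ f : V → Fin d, ∑ σ ∈ CF A, ∑ v ∈ Sf i f, ((av A (Sf i f) v σ).card : ℝ) ≤
      ((i : ℝ) + 1) * Nm A d i := by
    rw [Finset.sum_comm]
    refine (Finset.sum_le_sum (fun σ hσ => sum_av_card hA hd hi hσ)).trans ?_
    rw [Finset.sum_const, nsmul_eq_mul]
    unfold Nm
    apply le_of_eq; ring
  have h4 : (∑ f : V → Fin d, ∑ σ ∈ CF A, ∑ v ∈ Sf i f, ((av A (Sf i f) v σ).card : ℝ)) /
      ((i : ℝ) + 1) ≤ Nm A d i := by
    rw [div_le_iff₀ hm]; linarith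
  linarith

theorem sum_AvL {A : V → V → Prop} {d : ℕ} (hV : 0 < Fintype.card V)
    (hd : 0 < d) (hC : (CF A).Nonempty) :
    ∑ i ∈ Finset.Icc 1 d, AvL A d i ≤
      - ((d : ℝ) / (Fintype.card V : ℝ) * Real.log ((CF A).card : ℝ)) := by
  have hV' : (0 : ℝ) < (Fintype.card V : ℝ) := by exact_mod_cast hV
  have hd' : (0 : ℝ) < d := by exact_mod_cast hd
  have hC' : (0 : ℝ) < ((CF A).card : ℝ) := by exact_mod_cast Finset.card_pos.2 hC
  set c : ℝ := (d : ℝ) / ((Fintype.card V : ℝ) * (d : ℝ) ^ (Fintype.card V) * ((CF A).card : ℝ))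
    with hc
  have hcpos : 0 < c := by positivity
  have h1 : ∀ i ∈ Finset.Icc 1 d, AvL A d i = c * ((1 / (i : ℝ)) *
      ∑ f : V → Fin d, ∑ v ∈ Sf i f, ∑ σ ∈ CF A, Real.log (Pr A (Sf i f) v σ (σ v))) := by
    intro i hi
    have hi0 : (0 : ℝ) < i := by
      have := (Finset.mem_Icc.1 hi).1
      positivity
    unfold AvL Av Tot Nm
    have : ∑ f : V → Fin d, ∑ σ ∈ CF A, ∑ v ∈ Sf i f, Real.log (Pr A (Sf i f) v σ (σ v)) =
        ∑ f : V → Fin d, ∑ v ∈ Sf i f, ∑ σ ∈ CF A, Real.log (Pr A (Sf i f) v σ (σ v)) :=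
      Finset.sum_congr rfl (fun f _ => Finset.sum_comm)
    rw [this, hc]
    field_simp
  rw [Finset.sum_congr rfl h1, ← Finset.mul_sum,
    ← sum_regroup (fun S v => ∑ σ ∈ CF A, Real.log (Pr A S v σ (σ v)))]
  have h2 : ∑ f : V → Fin d, ∑ v, ∑ σ ∈ CF A,
      Real.log (Pr A (Sf ((f v).val + 1) f) v σ (σ v)) ≤
      (d : ℝ) ^ (Fintype.card V) * (- (((CF A).card : ℝ) * Real.log ((CF A).card : ℝ))) := by
    refine (Finset.sum_le_sum (fun f _ => chain_labels A f)).trans ?_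
    rw [Finset.sum_const, Finset.card_univ, nsmul_eq_mul]
    simp
  have h3 := mul_le_mul_of_nonneg_left h2 hcpos.le
  refine h3.trans (le_of_eq ?_)
  rw [hc]
  field_simp

/-- The total entropy deficit is at most `Λ = Σ log(i+1) - d log d + d`. -/
theorem slack_total {A : V → V → Prop} {d : ℕ} (hA : Reg A d) (hV : 0 < Fintype.card V)
    (hd : 0 < d) (hC : (CF A).Nonempty)
    (hper : (Fintype.card V : ℝ) * (Real.log d - 1) ≤ Real.log ((CF A).card : ℝ)) :
    ∑ i ∈ Finset.Icc 1 d, slack A d i ≤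
      ∑ i ∈ Finset.Icc 1 d, Real.log ((i : ℝ) + 1) - d * Real.log d + d := by
  have hV' : (0 : ℝ) < (Fintype.card V : ℝ) := by exact_mod_cast hV
  have hd' : (0 : ℝ) < d := by exact_mod_cast hd
  have h1 : ∑ i ∈ Finset.Icc 1 d, slack A d i ≤
      ∑ i ∈ Finset.Icc 1 d, (Real.log ((i : ℝ) + 1) + AvL A d i) :=
    Finset.sum_le_sum (fun i hi => slack_le hA hV hd hC (Finset.mem_Icc.1 hi).1
      (Finset.mem_Icc.1 hi).2)
  rw [Finset.sum_add_distrib] at h1
  have h2 := sum_AvL (A := A) hV hd hC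
  have h3 : (d : ℝ) * (Real.log d - 1) ≤
      (d : ℝ) / (Fintype.card V : ℝ) * Real.log ((CF A).card : ℝ) := by
    have h4 := mul_le_mul_of_nonneg_left hper (div_pos hd' hV').le
    refine le_trans (le_of_eq ?_) h4
    field_simp
  linarith

end Pool.Agent.Lib.MP_3cdeb8_co
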