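import Pool.Agent.Lib.MP_3cdeb8_co.Path
import Pool.Agent.Lib.MP_3cdeb8_co.Slack

set_option autoImplicit false
set_option linter.unusedSectionVars false

namespace Pool.Agent.Lib.MP_3cdeb8_co

open Finset
open scoped Classical

variable {V : Type*} [Fintype V]

/-- The cycle of `v`. -/
noncomputable def cyc (σ : Equiv.Perm V) (v : V) : Finset V :=
  univ.filter fun w => σ.SameCycle v w

theorem mem_cyc {σ : Equiv.Perm V} {v w : V} : w ∈ cyc σ v ↔ σ.SameCycle v w := by simp [cyc]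

theorem self_mem_cyc (σ : Equiv.Perm V) (v : V) : v ∈ cyc σ v :=
  mem_cyc.2 (Equiv.Perm.SameCycle.refl σ v)

theorem cyc_card_pos (σ : Equiv.Perm V) (v : V) : 1 ≤ (cyc σ v).card :=
  Finset.card_pos.2 ⟨v, self_mem_cyc σ v⟩

theorem numCycles_eq (σ : Equiv.Perm V) :
    (numCycles σ : ℝ) = ∑ v, 1 / ((cyc σ v).card : ℝ) := by
  unfold numCycles
  rw [← Finset.sum_fiberwise_of_maps_to (s := (univ : Finset V))
    (t := (univ : Finset (Quotient (Equiv.Perm.SameCycle.setoid σ))))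
    (g := fun v => (Quotient.mk (Equiv.Perm.SameCycle.setoid σ) v)) (fun _ _ => Finset.mem_univ _)]
  rw [Finset.sum_congr rfl (g := fun _ => (1 : ℝ))]
  · simp
  · intro q _
    induction q using Quotient.inductionOn with
    | h u =>
      have h1 : (univ.filter fun v => Quotient.mk (Equiv.Perm.SameCycle.setoid σ) v =
          Quotient.mk (Equiv.Perm.SameCycle.setoid σ) u) = cyc σ u := by
        ext w
        rw [mem_cyc]
        simp only [Finset.mem_filter, Finset.mem_univ, true_and, Quotient.eq]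
        exact ⟨fun h => Equiv.Perm.SameCycle.symm h, fun h => Equiv.Perm.SameCycle.symm h⟩
      rw [h1]
      have h2 : ∀ w ∈ cyc σ u, 1 / ((cyc σ w).card : ℝ) = 1 / ((cyc σ u).card : ℝ) := by
        intro w hw
        rw [mem_cyc] at hw
        congr 3
        ext x
        rw [mem_cyc, mem_cyc]
        exact ⟨fun h => hw.trans h, fun h => hw.symm.trans h⟩
      rw [Finset.sum_congr rfl h2, Finset.sum_const, nsmul_eq_mul]
      have h3 : ((cyc σ u).card : ℝ) ≠ 0 := by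
        have := cyc_card_pos σ u
        positivity
      field_simp

/-- Probability that the cycle of `v` is a loop at scale `i`. -/
noncomputable def aa (A : V → V → Prop) (d i : ℕ) : ℝ :=
  Av A d i (fun S v σ => if σ v = pth S σ v then 1 else 0)

theorem tot_loop {d : ℕ} (hd : 0 < d) {i : ℕ} (hi : i ≤ d) (σ : Equiv.Perm V) :
    ∑ f : V → Fin d, ∑ v ∈ Sf i f, (if σ v = pth (Sf i f) σ v then (1 : ℝ) else 0) =
      ∑ v, (i / d : ℝ) * (1 - i / d : ℝ) ^ ((cyc σ v).card - 1) * (d : ℝ) ^ Fintype.card V := by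
  have h1 : ∀ f : V → Fin d, ∑ v ∈ Sf i f, (if σ v = pth (Sf i f) σ v then (1 : ℝ) else 0) =
      ∑ v, if ((f v).val < i ∧ ∀ w ∈ cyc σ v, (f w).val < i → w = v) then (1 : ℝ) else 0 := by
    intro f
    have h2 : ∑ v ∈ Sf i f, (if σ v = pth (Sf i f) σ v then (1 : ℝ) else 0) =
        ∑ v, if v ∈ Sf i f then (if σ v = pth (Sf i f) σ v then (1 : ℝ) else 0) else 0 := by
      rw [Finset.sum_ite_mem, Finset.univ_inter]
    rw [h2]
    refine Finset.sum_congr rfl (fun v _ => ?_)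
    by_cases hv : v ∈ Sf i f
    · rw [if_pos hv]
      have h3 := loop_iff σ hv
      have h4 : (σ v = pth (Sf i f) σ v) ↔
          ((f v).val < i ∧ ∀ w ∈ cyc σ v, (f w).val < i → w = v) := by
        rw [h3]
        constructor
        · intro h
          exact ⟨mem_Sf.1 hv, fun w hw hlt => h w (mem_Sf.2 hlt) (mem_cyc.1 hw)⟩
        · rintro ⟨_, h⟩ w hw hc
          exact h w (mem_cyc.2 hc) (mem_Sf.1 hw)
      by_cases h5 : σ v = pth (Sf i f) σ v
      · rw [if_pos h5, if_pos (h4.1 h5)]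
      · rw [if_neg h5, if_neg (fun h => h5 (h4.2 h))]
    · rw [if_neg hv, if_neg]
      rintro ⟨h, _⟩
      exact hv (mem_Sf.2 h)
  rw [Finset.sum_congr rfl (fun f _ => h1 f), Finset.sum_comm]
  refine Finset.sum_congr rfl (fun v _ => ?_)
  rw [Finset.sum_boole, cnt_only hd hi _ v (self_mem_cyc σ v)]

theorem aa_eq {A : V → V → Prop} {d : ℕ} (hV : 0 < Fintype.card V) (hd : 0 < d)
    (hC : (CF A).Nonempty) {i : ℕ} (hi1 : 1 ≤ i) (hi : i ≤ d) :
    aa A d i = (∑ σ ∈ CF A, ∑ v, (1 - i / d : ℝ) ^ ((cyc σ v).card - 1)) /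
      ((Fintype.card V : ℝ) * ((CF A).card : ℝ)) := by
  have hV' : (0 : ℝ) < (Fintype.card V : ℝ) := by exact_mod_cast hV
  have hd' : (0 : ℝ) < d := by exact_mod_cast hd
  have hi' : (0 : ℝ) < i := by exact_mod_cast hi1
  have hC' : (0 : ℝ) < ((CF A).card : ℝ) := by exact_mod_cast Finset.card_pos.2 hC
  unfold aa Av Tot Nm
  rw [Finset.sum_comm, Finset.sum_congr rfl (fun σ _ => tot_loop hd hi σ)]
  have h1 : ∀ σ ∈ CF A, ∑ v, (i / d : ℝ) * (1 - i / d : ℝ) ^ ((cyc σ v).card - 1) *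
      (d : ℝ) ^ Fintype.card V = ((i / d : ℝ) * (d : ℝ) ^ Fintype.card V) *
      ∑ v, (1 - i / d : ℝ) ^ ((cyc σ v).card - 1) := by
    intro σ _
    rw [Finset.mul_sum]
    exact Finset.sum_congr rfl (fun v _ => by ring)
  rw [Finset.sum_congr rfl h1, ← Finset.mul_sum]
  field_simp

theorem pow_sum_lower (d l : ℕ) (hl : 1 ≤ l) :
    (d : ℝ) ^ l ≤ l * ∑ j ∈ Finset.range d, ((j : ℝ) + 1) ^ (l - 1) := by
  induction d with
  | zero => simp [show l ≠ 0 by omega]
  | succ d ih =>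
    rw [Finset.sum_range_succ, mul_add]
    have h1 : ((d : ℝ) + 1) ^ l - (d : ℝ) ^ l ≤ l * ((d : ℝ) + 1) ^ (l - 1) := by
      have h2 := Commute.mul_geom_sum₂ (Commute.all ((d : ℝ) + 1) (d : ℝ)) l
      rw [add_sub_cancel_left, one_mul] at h2
      rw [← h2]
      have h3 : ∀ i ∈ Finset.range l, ((d : ℝ) + 1) ^ i * (d : ℝ) ^ (l - 1 - i) ≤
          ((d : ℝ) + 1) ^ (l - 1) := by
        intro i hi
        have hi := Finset.mem_range.1 hi
        calc ((d : ℝ) + 1) ^ i * (d : ℝ) ^ (l - 1 - i)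
            ≤ ((d : ℝ) + 1) ^ i * ((d : ℝ) + 1) ^ (l - 1 - i) := by
              apply mul_le_mul_of_nonneg_left _ (by positivity)
              exact pow_le_pow_left₀ (by positivity) (by linarith) _
          _ = ((d : ℝ) + 1) ^ (l - 1) := by rw [← pow_add]; congr 1; omega
      refine (Finset.sum_le_sum h3).trans ?_
      rw [Finset.sum_const, Finset.card_range, nsmul_eq_mul]
    push_cast
    linarith

theorem inv_le_sum {d l : ℕ} (hd : 0 < d) (hl : 1 ≤ l) :
    1 / (l : ℝ) ≤ (1 / (d : ℝ)) * (1 + ∑ i ∈ Finset.Icc 1 (d - 1), (1 - i / d : ℝ) ^ (l - 1)) := by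
  have hd' : (0 : ℝ) < d := by exact_mod_cast hd
  have hl' : (0 : ℝ) < l := by exact_mod_cast hl
  have h1 := pow_sum_lower d l hl
  have h2 : 1 + ∑ i ∈ Finset.Icc 1 (d - 1), (1 - i / d : ℝ) ^ (l - 1) =
      ∑ i ∈ Finset.range d, (1 - i / d : ℝ) ^ (l - 1) := by
    have e1 : Finset.range d = insert 0 (Finset.Icc 1 (d - 1)) := by
      ext x; simp; omega
    rw [e1, Finset.sum_insert (by simp)]
    simp
  have h3 : ∑ i ∈ Finset.range d, (1 - i / d : ℝ) ^ (l - 1) =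
      (∑ j ∈ Finset.range d, ((j : ℝ) + 1) ^ (l - 1)) / (d : ℝ) ^ (l - 1) := by
    rw [← Finset.sum_range_reflect, Finset.sum_div]
    refine Finset.sum_congr rfl (fun j hj => ?_)
    have hj := Finset.mem_range.1 hj
    rw [← div_pow]
    congr 1
    rw [Nat.sub_sub, Nat.cast_sub (by omega)]
    push_cast
    field_simp
    ring
  rw [h2, h3, div_mul_div_comm, one_mul, ← pow_succ', Nat.sub_add_cancel hl,
    div_le_div_iff₀ hl' (by positivity)]
  linarith

/-- Expected number of cycles in terms of the loop probabilities at the scales `i / d`. -/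
theorem sum_numCycles {A : V → V → Prop} {d : ℕ} (hV : 0 < Fintype.card V) (hd : 0 < d)
    (hC : (CF A).Nonempty) :
    (∑ σ ∈ CF A, (numCycles σ : ℝ)) / ((CF A).card : ℝ) ≤
      ((Fintype.card V : ℝ) / d) * (1 + ∑ i ∈ Finset.Icc 1 (d - 1), aa A d i) := by
  have hV' : (0 : ℝ) < (Fintype.card V : ℝ) := by exact_mod_cast hV
  have hd' : (0 : ℝ) < d := by exact_mod_cast hd
  have hC' : (0 : ℝ) < ((CF A).card : ℝ) := by exact_mod_cast Finset.card_pos.2 hC
  have h1 : ∀ σ ∈ CF A, (numCycles σ : ℝ) ≤ ∑ v : V, (1 / (d : ℝ)) *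
      (1 + ∑ i ∈ Finset.Icc 1 (d - 1), (1 - i / d : ℝ) ^ ((cyc σ v).card - 1)) := by
    intro σ _
    rw [numCycles_eq]
    exact Finset.sum_le_sum (fun v _ => inv_le_sum hd (cyc_card_pos σ v))
  have h2 : ∑ i ∈ Finset.Icc 1 (d - 1), aa A d i =
      (∑ i ∈ Finset.Icc 1 (d - 1), ∑ σ ∈ CF A, ∑ v, (1 - i / d : ℝ) ^ ((cyc σ v).card - 1)) /
      ((Fintype.card V : ℝ) * ((CF A).card : ℝ)) := by
    rw [Finset.sum_div]
    refine Finset.sum_congr rfl (fun i hi => ?_)
    have := Finset.mem_Icc.1 hi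
    exact aa_eq hV hd hC this.1 (by omega)
  have h3 : ∑ σ ∈ CF A, ∑ v : V, (1 / (d : ℝ)) *
      (1 + ∑ i ∈ Finset.Icc 1 (d - 1), (1 - i / d : ℝ) ^ ((cyc σ v).card - 1)) =
      (1 / (d : ℝ)) * ((Fintype.card V : ℝ) * ((CF A).card : ℝ) +
      ∑ i ∈ Finset.Icc 1 (d - 1), ∑ σ ∈ CF A, ∑ v, (1 - i / d : ℝ) ^ ((cyc σ v).card - 1)) := by
    rw [Finset.sum_comm (s := Finset.Icc 1 (d - 1))]
    have e1 : ∀ σ ∈ CF A, ∑ v : V, (1 / (d : ℝ)) *
        (1 + ∑ i ∈ Finset.Icc 1 (d - 1), (1 - i / d : ℝ) ^ ((cyc σ v).card - 1)) =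
        (1 / (d : ℝ)) * ((Fintype.card V : ℝ) +
        ∑ i ∈ Finset.Icc 1 (d - 1), ∑ v : V, (1 - i / d : ℝ) ^ ((cyc σ v).card - 1)) := by
      intro σ _
      rw [← Finset.mul_sum, Finset.sum_add_distrib, Finset.sum_comm]
      simp
    rw [Finset.sum_congr rfl e1, ← Finset.mul_sum, Finset.sum_add_distrib, Finset.sum_const,
      nsmul_eq_mul]
    ring
  rw [h2, div_le_iff₀ hC']
  refine (Finset.sum_le_sum h1).trans (le_of_eq ?_)
  rw [h3]
  field_simp

end Pool.Agent.Lib.MP_3cdeb8_co
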