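import Pool.Agent.Lib.MP_3cdeb8_co.Model

/-!
Basic objects for the cycle-factor problem: `d`-regular directed graphs (relations), their
cycle-factors, the classes of cycle-factors which agree off a set, conditional probabilities.
-/

set_option autoImplicit false

namespace Pool.Agent.Lib.MP_3cdeb8_co

open Finset
open scoped Classical

variable {V : Type*} [Fintype V]

/-- Cycle-factors which agree with `σ` off `S`. -/
noncomputable def cls (A : V → V → Prop) (S : Finset V) (σ : Equiv.Perm V) :
    Finset (Equiv.Perm V) :=
  (CF A).filter fun τ => ∀ w, w ∉ S → τ w = σ w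

/-- Conditional probability of `τ v = x` given that `τ` agrees with `σ` off `S`. -/
noncomputable def Pr (A : V → V → Prop) (S : Finset V) (v : V) (σ : Equiv.Perm V) (x : V) : ℝ :=
  (((cls A S σ).filter fun τ => τ v = x).card : ℝ) / ((cls A S σ).card : ℝ)

/-- The out-neighbours of `v` which are still available when `σ` is revealed off `S`. -/
noncomputable def av (A : V → V → Prop) (S : Finset V) (v : V) (σ : Equiv.Perm V) : Finset V :=
  univ.filter fun x => A v x ∧ σ.symm x ∈ S

/-- The convex function `z log z - z + 1`. -/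
noncomputable def phi (z : ℝ) : ℝ := z * Real.log z - z + 1

/-- The local entropy deficit, relative to the reference value `m`. -/
noncomputable def Kd (A : V → V → Prop) (m : ℝ) (S : Finset V) (v : V) (σ : Equiv.Perm V) : ℝ :=
  ∑ x ∈ av A S v σ, phi (m * Pr A S v σ x) / m

/-- The set of vertices with label less than `i`. -/
noncomputable def Sf {d : ℕ} (i : ℕ) (f : V → Fin d) : Finset V :=
  univ.filter fun v => (f v).val < i

/-- The set of vertices with label in `[i, 2i)`. -/
noncomputable def Tf {d : ℕ} (i : ℕ) (f : V → Fin d) : Finset V :=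
  univ.filter fun v => i ≤ (f v).val ∧ (f v).val < 2 * i

/-- Unnormalised average of `g S v σ` over labellings `f`, cycle-factors `σ` and `v ∈ S = Sf i f`. -/
noncomputable def Tot (A : V → V → Prop) (d i : ℕ) (g : Finset V → V → Equiv.Perm V → ℝ) : ℝ :=
  ∑ f : V → Fin d, ∑ σ ∈ CF A, ∑ v ∈ Sf i f, g (Sf i f) v σ

/-- The normalising constant of `Tot`. -/
noncomputable def Nm (A : V → V → Prop) (d i : ℕ) : ℝ :=
  (Fintype.card V : ℝ) * (i / d : ℝ) * (d : ℝ) ^ (Fintype.card V) * ((CF A).card : ℝ)

/-- Normalised average. -/
noncomputable def Av (A : V → V → Prop) (d i : ℕ) (g : Finset V → V → Equiv.Perm V → ℝ) : ℝ :=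
  Tot A d i g / Nm A d i

/-- The average entropy deficit at scale `i`. -/
noncomputable def slack (A : V → V → Prop) (d i : ℕ) : ℝ :=
  Av A d i (fun S v σ => Kd A (i + 1) S v σ)

/-- Number of steps backwards from `v` inside the complement of `S`. -/
noncomputable def mm (S : Finset V) (σ : Equiv.Perm V) (v : V) : ℕ :=
  sInf {r : ℕ | (σ⁻¹ ^ (r + 1)) v ∈ S}

/-- The first vertex of the revealed path which ends in `v`. -/
noncomputable def pth (S : Finset V) (σ : Equiv.Perm V) (v : V) : V :=
  (σ⁻¹ ^ (mm S σ v)) v

end Pool.Agent.Lib.MP_3cdeb8_co
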