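import Pool.Agent.Lib.MP_3cdeb8_co.Loop

set_option autoImplicit false
set_option linter.unusedSectionVars false

namespace Pool.Agent.Lib.MP_3cdeb8_co

open Finset
open scoped Classical

variable {V : Type*} [Fintype V]

/-- Disjoint union of complete directed graphs with loops, the blocks being the fibres of `b`. -/
def blk (b : V → ℕ) : V → V → Prop := fun x y => b x = b y

theorem blk_Pr_eq (b : V → ℕ) {S : Finset V} {v : V} {σ : Equiv.Perm V}
    {x x' : V} (hx : x ∈ av (blk b) S v σ) (hx' : x' ∈ av (blk b) S v σ) :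
    Pr (blk b) S v σ x ≤ Pr (blk b) S v σ x' := by
  unfold Pr
  apply div_le_div_of_nonneg_right _ (by positivity)
  have h : ((cls (blk b) S σ).filter fun τ => τ v = x).card ≤
      ((cls (blk b) S σ).filter fun τ => τ v = x').card := by
    refine Finset.card_le_card_of_injOn (fun τ => Equiv.swap x x' * τ) ?_ ?_
    · intro τ hτ
      rw [Finset.mem_coe, Finset.mem_filter, mem_cls, mem_CF] at hτ
      obtain ⟨⟨h1, h2⟩, h3⟩ := hτ
      obtain ⟨hb, hs⟩ := mem_av.1 hx
      obtain ⟨hb', hs'⟩ := mem_av.1 hx'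
      have hb : b v = b x := hb
      have hb' : b v = b x' := hb'
      rw [Finset.mem_coe, Finset.mem_filter, mem_cls, mem_CF]
      refine ⟨⟨fun u => ?_, fun w hw => ?_⟩, ?_⟩
      · have hu : b u = b (τ u) := h1 u
        show b u = b (Equiv.swap x x' (τ u))
        rcases Equiv.swap_apply_eq_iff.1 (rfl : Equiv.swap x x' (τ u) = _) with _
        by_cases e1 : τ u = x
        · rw [e1, Equiv.swap_apply_left, hu, e1, ← hb, hb']
        · by_cases e2 : τ u = x'
          · rw [e2, Equiv.swap_apply_right, hu, e2, ← hb', hb]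
          · rw [Equiv.swap_apply_of_ne_of_ne e1 e2, hu]
      · show Equiv.swap x x' (τ w) = σ w
        have hw2 := h2 w hw
        have e1 : τ w ≠ x := by
          intro h
          rw [hw2] at h
          apply hw
          rw [← h] at hs
          simpa using hs
        have e2 : τ w ≠ x' := by
          intro h
          rw [hw2] at h
          apply hw
          rw [← h] at hs'
          simpa using hs'
        rw [Equiv.swap_apply_of_ne_of_ne e1 e2, hw2]
      · show Equiv.swap x x' (τ v) = x'
        rw [h3, Equiv.swap_apply_left]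
    · intro τ _ τ' _ h
      exact mul_left_cancel h
  exact_mod_cast h

theorem blk_Pr (b : V → ℕ) {S : Finset V} {v : V} (hv : v ∈ S) {σ : Equiv.Perm V}
    (hσ : σ ∈ CF (blk b)) {x : V} (hx : x ∈ av (blk b) S v σ) :
    Pr (blk b) S v σ x = 1 / ((av (blk b) S v σ).card : ℝ) := by
  have h1 := Pr_sum (A := blk b) (S := S) hσ hv
  rw [Finset.sum_congr rfl (g := fun _ => Pr (blk b) S v σ x) (fun y hy =>
    le_antisymm (blk_Pr_eq b hy hx) (blk_Pr_eq b hx hy)), Finset.sum_const,
    nsmul_eq_mul] at h1
  have h2 : ((av (blk b) S v σ).card : ℝ) ≠ 0 := by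
    intro h
    rw [h, zero_mul] at h1
    exact one_ne_zero h1.symm
  rw [eq_div_iff h2]; linarith

theorem blk_inv {b : V → ℕ} {σ : Equiv.Perm V} (hσ : σ ∈ CF (blk b)) (v : V) :
    b (σ⁻¹ v) = b v := by
  have h := mem_CF.1 hσ (σ⁻¹ v)
  have h : b (σ⁻¹ v) = b (σ (σ⁻¹ v)) := h
  simpa using h

theorem blk_inv_pow {b : V → ℕ} {σ : Equiv.Perm V} (hσ : σ ∈ CF (blk b)) (v : V) (r : ℕ) :
    b ((σ⁻¹ ^ r) v) = b v := by
  induction r with
  | zero => simp
  | succ r ih => rw [inv_pow_succ, blk_inv hσ, ih]

theorem pth_mem_av {b : V → ℕ} {S : Finset V} {v : V} (hv : v ∈ S) {σ : Equiv.Perm V}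
    (hσ : σ ∈ CF (blk b)) : pth S σ v ∈ av (blk b) S v σ := by
  rw [mem_av]
  refine ⟨?_, ?_⟩
  · show b v = b (pth S σ v)
    unfold pth
    rw [blk_inv_pow hσ]
  · have := mm_spec σ hv
    rw [inv_pow_succ] at this
    exact this

theorem blk_av_card {b : V → ℕ} {S : Finset V} (v : V) {σ : Equiv.Perm V}
    (hσ : σ ∈ CF (blk b)) :
    (av (blk b) S v σ).card = (S.filter fun w => b w = b v).card := by
  symm
  refine Finset.card_bij (fun w _ => σ w) ?_ ?_ ?_
  · intro w hw
    obtain ⟨h1, h2⟩ := Finset.mem_filter.1 hw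
    rw [mem_av]
    refine ⟨?_, by simpa using h1⟩
    have h3 : b w = b (σ w) := mem_CF.1 hσ w
    show b v = b (σ w)
    rw [← h3, h2]
  · intro w _ w' _ h; exact σ.injective h
  · intro x hx
    rw [mem_av] at hx
    refine ⟨σ.symm x, ?_, by simp⟩
    rw [Finset.mem_filter]
    refine ⟨hx.2, ?_⟩
    have h3 : b v = b x := hx.1
    have h4 : b (σ⁻¹ x) = b x := blk_inv hσ x
    rw [h3]; exact h4

/-- The number of cycles is the number of minima of cycles. -/
theorem numCycles_min {n : ℕ} (σ : Equiv.Perm (Fin n)) :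
    (numCycles σ : ℝ) = ∑ v : Fin n,
      if σ v = pth (univ.filter fun w => w ≤ v) σ v then (1 : ℝ) else 0 := by
  unfold numCycles
  rw [← Finset.sum_fiberwise_of_maps_to (s := (univ : Finset (Fin n)))
    (t := (univ : Finset (Quotient (Equiv.Perm.SameCycle.setoid σ))))
    (g := fun v => (Quotient.mk (Equiv.Perm.SameCycle.setoid σ) v)) (fun _ _ => Finset.mem_univ _)]
  rw [Finset.sum_congr rfl (g := fun _ => (1 : ℝ))]
  · simp
  · intro q _
    induction q using Quotient.inductionOn with
    | h u =>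
      have h1 : (univ.filter fun v => Quotient.mk (Equiv.Perm.SameCycle.setoid σ) v =
          Quotient.mk (Equiv.Perm.SameCycle.setoid σ) u) = cyc σ u := by
        ext w
        rw [mem_cyc]
        simp only [Finset.mem_filter, Finset.mem_univ, true_and, Quotient.eq]
        exact ⟨fun h => Equiv.Perm.SameCycle.symm h, fun h => Equiv.Perm.SameCycle.symm h⟩
      rw [h1]
      have hne : (cyc σ u).Nonempty := ⟨u, self_mem_cyc σ u⟩
      set m := (cyc σ u).min' hne with hm
      have hmc : m ∈ cyc σ u := Finset.min'_mem _ _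
      have h2 : ∀ v ∈ cyc σ u,
          (if σ v = pth (univ.filter fun w => w ≤ v) σ v then (1 : ℝ) else 0) =
          if v = m then 1 else 0 := by
        intro v hv
        have h3 := loop_iff (S := univ.filter fun w => w ≤ v) σ (v := v) (by simp)
        have h4 : (σ v = pth (univ.filter fun w => w ≤ v) σ v) ↔ v = m := by
          rw [h3]
          constructor
          · intro h
            have h5 : m ≤ v := Finset.min'_le _ _ hv
            have h6 : σ.SameCycle v m := (mem_cyc.1 hv).symm.trans (mem_cyc.1 hmc)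
            exact (h m (by simpa using h5) h6).symm
          · rintro rfl w hw hc
            have h5 : w ≤ m := by simpa using hw
            have h6 : w ∈ cyc σ u := mem_cyc.2 ((mem_cyc.1 hv).trans hc)
            exact le_antisymm h5 (Finset.min'_le _ _ h6)
        by_cases h5 : v = m
        · rw [if_pos h5, if_pos (h4.2 h5)]
        · rw [if_neg h5, if_neg (fun h => h5 (h4.1 h))]
      rw [Finset.sum_congr rfl h2, Finset.sum_ite_eq', if_pos hmc]

/-- Expected number of cycles for a disjoint union of complete directed graphs. -/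
theorem mean_blk {n : ℕ} (b : Fin n → ℕ) (hC : (CF (blk b)).Nonempty) :
    (∑ σ ∈ CF (blk b), (numCycles σ : ℝ)) / ((CF (blk b)).card : ℝ) =
      ∑ v : Fin n, 1 / (((univ.filter fun w => w ≤ v).filter fun w => b w = b v).card : ℝ) := by
  have hC' : (0 : ℝ) < ((CF (blk b)).card : ℝ) := by exact_mod_cast Finset.card_pos.2 hC
  rw [Finset.sum_congr rfl (fun σ _ => numCycles_min σ), Finset.sum_comm,
    div_eq_iff hC'.ne', Finset.sum_mul]
  refine Finset.sum_congr rfl (fun v _ => ?_)
  have hv : v ∈ univ.filter fun w => w ≤ v := by simp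
  have h0 : ∑ σ ∈ CF (blk b), (if σ v = pth (univ.filter fun w => w ≤ v) σ v then (1 : ℝ)
      else 0) = ∑ σ ∈ CF (blk b), Pr (blk b) (univ.filter fun w => w ≤ v) v σ
        (pth (univ.filter fun w => w ≤ v) σ v) := by
    convert loop_avg (blk b) (univ.filter fun w => w ≤ v) hv
  rw [h0]
  have h1 : ∀ σ ∈ CF (blk b), Pr (blk b) (univ.filter fun w => w ≤ v) v σ
      (pth (univ.filter fun w => w ≤ v) σ v) =
      1 / (((univ.filter fun w => w ≤ v).filter fun w => b w = b v).card : ℝ) := by
    intro σ hσ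
    rw [blk_Pr b hv hσ (pth_mem_av hv hσ), blk_av_card v hσ]
  rw [Finset.sum_congr rfl h1, Finset.sum_const, nsmul_eq_mul]
  ring

end Pool.Agent.Lib.MP_3cdeb8_co
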