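import Pool.Agent.Lib.MP_3cdeb8_co.Class
import Pool.Agent.Lib.MP_2b959d_co.VdWList
import Pool.Agent.Lib.MP_2b959d_co.Block

set_option autoImplicit false
set_option linter.unusedSectionVars false

namespace Pool.Agent.Lib.MP_3cdeb8_co

open Finset
open scoped Classical

/-- Number of cycle-factors of a regular directed graph (van der Waerden's inequality). -/
theorem card_CF_lower {n d : ℕ} (hn : 0 < n) (hd : 0 < d) (A : Fin n → Fin n → Prop)
    (hA : Reg A d) :
    ((d : ℝ) / Real.exp 1) ^ n ≤ ((CF A).card : ℝ) := by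
  have hd' : (0 : ℝ) < d := by exact_mod_cast hd
  set M : Matrix (Fin n) (Fin n) ℝ := fun i j => if A j i then 1 / (d : ℝ) else 0 with hM
  have hper : M.permanent = ((CF A).card : ℝ) / (d : ℝ) ^ n := by
    unfold Matrix.permanent
    have h1 : ∀ σ : Equiv.Perm (Fin n), ∏ i, M (σ i) i =
        if σ ∈ CF A then (1 / (d : ℝ)) ^ n else 0 := by
      intro σ
      by_cases h : σ ∈ CF A
      · rw [if_pos h]
        rw [mem_CF] at h
        simp only [hM]
        rw [Finset.prod_congr rfl (fun i _ => if_pos (h i)), Finset.prod_const]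
        simp
      · rw [if_neg h]
        rw [mem_CF] at h
        push Not at h
        obtain ⟨v, hv⟩ := h
        apply Finset.prod_eq_zero (Finset.mem_univ v)
        simp [hM, hv]
    rw [Finset.sum_congr rfl (fun σ _ => h1 σ), Finset.sum_ite_mem, Finset.univ_inter,
      Finset.sum_const, nsmul_eq_mul]
    rw [one_div, inv_pow, div_eq_mul_inv]
  have hcol : ∀ j, ∑ i, M i j = 1 := by
    intro j
    simp only [hM]
    rw [← Finset.sum_filter, Finset.sum_const, hA.1 j, nsmul_eq_mul]
    field_simp
  have hrow : ∀ i, ∑ j, M i j = 1 := by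
    intro i
    simp only [hM]
    rw [← Finset.sum_filter, Finset.sum_const, hA.2 i, nsmul_eq_mul]
    field_simp
  have hnn : ∀ i j, 0 ≤ M i j := by
    intro i j; simp only [hM]; split_ifs <;> positivity
  have key := MP_2b959d_co.vdw_list (univ : Finset (Fin n))
    ((univ : Finset (Fin n)).toList.map (fun j i => M i j)) (by simp)
    (by
      intro v hv i _
      obtain ⟨j, _, rfl⟩ := List.mem_map.1 hv
      exact hnn i j)
    (by
      intro v hv
      obtain ⟨j, _, rfl⟩ := List.mem_map.1 hv
      exact hcol j)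
    (by
      intro i _
      rw [List.map_map]
      have : ((univ : Finset (Fin n)).toList.map ((fun v : Fin n → ℝ => v i) ∘
          fun j i => M i j)).sum = ∑ j, M i j := by
        rw [← Finset.sum_map_toList]
        rfl
      rw [this, hrow i])
    (fun i => M i ⟨0, hn⟩)
    (List.mem_map.2 ⟨⟨0, hn⟩, by simp, rfl⟩)
  rw [← MP_2b959d_co.permanent_eq_mper, hper] at key
  have hcard : ((univ : Finset (Fin n)).card) = n := by simp
  rw [hcard] at key
  have h0 : (n.factorial : ℝ) / (n : ℝ) ^ n ≤ ((CF A).card : ℝ) / (d : ℝ) ^ n := by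
    refine le_trans ?_ key
    have : (1 : ℝ) ≤ 1 + (∑ i, (M i ⟨0, hn⟩ - 1 / (n : ℝ)) ^ 2) / 2 := by
      have : 0 ≤ (∑ i, (M i ⟨0, hn⟩ - 1 / (n : ℝ)) ^ 2) / 2 := by positivity
      linarith
    exact le_mul_of_one_le_right (by positivity) this
  have hn' : (0 : ℝ) < n := by exact_mod_cast hn
  have h1 : (1 / Real.exp 1) ^ n ≤ (n.factorial : ℝ) / (n : ℝ) ^ n := by
    have h2 := Real.pow_div_factorial_le_exp (n : ℝ) hn'.le n
    rw [one_div, inv_pow, ← Real.exp_nat_mul, mul_one]
    rw [div_le_iff₀ (by positivity)] at h2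
    rw [inv_le_comm₀ (Real.exp_pos _) (by positivity), inv_div, div_le_iff₀ (by positivity)]
    exact h2
  have h3 := h1.trans h0
  rw [le_div_iff₀ (by positivity)] at h3
  refine le_trans (le_of_eq ?_) h3
  rw [← mul_pow]
  congr 1
  ring

theorem CF_nonempty {n d : ℕ} (hn : 0 < n) (hd : 0 < d) (A : Fin n → Fin n → Prop)
    (hA : Reg A d) : (CF A).Nonempty := by
  have h := card_CF_lower hn hd A hA
  have hd' : (0 : ℝ) < d := by exact_mod_cast hd
  have h2 : (0 : ℝ) < ((CF A).card : ℝ) := lt_of_lt_of_le (by positivity) h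
  exact Finset.card_pos.1 (by exact_mod_cast h2)

theorem log_card_CF {n d : ℕ} (hn : 0 < n) (hd : 0 < d) (A : Fin n → Fin n → Prop)
    (hA : Reg A d) :
    (Fintype.card (Fin n) : ℝ) * (Real.log d - 1) ≤ Real.log ((CF A).card : ℝ) := by
  have h := card_CF_lower hn hd A hA
  have hd' : (0 : ℝ) < d := by exact_mod_cast hd
  have h1 := Real.log_le_log (by positivity) h
  rw [Real.log_pow, Real.log_div (by positivity) (by positivity), Real.log_exp] at h1
  simpa using h1

end Pool.Agent.Lib.MP_3cdeb8_co
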