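import Pool.Agent.Lib.MP_3cdeb8_co.Assemble
import Pool.Agent.Lib.MP_3cdeb8_co.Lower
import Pool.Agent.Lib.MP_3cdeb8_co.Vdw

set_option autoImplicit false
set_option linter.unusedSectionVars false

namespace Pool.Agent.Lib.MP_3cdeb8_co

open Finset
open scoped Classical

/-- Upper bound for all regular directed graphs. -/
theorem upper_all {ε : ℝ} (hε : 0 < ε) : ∃ K : ℝ, 0 ≤ K ∧ ∀ (d n : ℕ), 1 ≤ d → 1 ≤ n →
    ∀ A : Fin n → Fin n → Prop, Reg A d →
      meanCycles A ≤ ((n : ℝ) / d) * ((1 + ε) * Real.log d + K) := by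
  obtain ⟨K, hK0, hK⟩ := upper_const (show 0 < ε / 4 by positivity)
  refine ⟨K, hK0, ?_⟩
  intro d n hd hn A hA
  have h := hK (Fin n) A d hd hA (by rw [Fintype.card_fin]; exact hn) (CF_nonempty hn hd A hA)
    (log_card_CF hn hd A hA)
  have h2 : 1 + 4 * (ε / 4) = 1 + ε := by ring
  rw [h2] at h
  simpa [meanCycles] using h

/-! ### The disjoint union of `k` complete directed graphs on `d` vertices -/

/-- Block index of a vertex. -/
def bidx (k d : ℕ) (v : Fin (k * d)) : ℕ := (finProdFinEquiv.symm v).1.val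

theorem bidx_pair (k d : ℕ) (p : Fin k × Fin d) : bidx k d (finProdFinEquiv p) = p.1.val := by
  simp [bidx]

theorem block_card (k d : ℕ) (a : Fin k) (P : Fin (k * d) → Prop) :
    ((univ.filter fun w : Fin (k * d) => P w ∧ bidx k d w = a.val).card) =
      (univ.filter fun j : Fin d => P (finProdFinEquiv (a, j))).card := by
  symm
  refine Finset.card_bij (fun j _ => finProdFinEquiv (a, j)) ?_ ?_ ?_
  · intro j hj
    simp only [Finset.mem_filter, Finset.mem_univ, true_and] at hj ⊢
    exact ⟨hj, by rw [bidx_pair]⟩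
  · intro j _ j' _ h
    have := finProdFinEquiv.injective h
    exact (Prod.ext_iff.1 this).2
  · intro w hw
    simp only [Finset.mem_filter, Finset.mem_univ, true_and] at hw
    refine ⟨(finProdFinEquiv.symm w).2, ?_, ?_⟩
    · have h1 : (a, (finProdFinEquiv.symm w).2) = finProdFinEquiv.symm w :=
        Prod.ext (Fin.ext hw.2.symm) rfl
      simp only [Finset.mem_filter, Finset.mem_univ, true_and]
      rw [h1, Equiv.apply_symm_apply]
      exact hw.1
    · have h1 : (a, (finProdFinEquiv.symm w).2) = finProdFinEquiv.symm w :=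
        Prod.ext (Fin.ext hw.2.symm) rfl
      rw [h1, Equiv.apply_symm_apply]

theorem Reg_blk (k d : ℕ) : Reg (blk (bidx k d)) d := by
  have h : ∀ v : Fin (k * d), (univ.filter fun w : Fin (k * d) => bidx k d w = bidx k d v).card
      = d := by
    intro v
    have h1 := block_card k d (finProdFinEquiv.symm v).1 (fun _ => True)
    simp only [true_and, Finset.filter_true, Finset.card_univ, Fintype.card_fin] at h1
    exact h1
  constructor
  · intro v
    refine Eq.trans (congrArg Finset.card ?_) (h v)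
    ext w; simp only [Finset.mem_filter, Finset.mem_univ, true_and]
    exact ⟨fun h => Eq.symm h, fun h => Eq.symm h⟩
  · intro v
    refine Eq.trans (congrArg Finset.card ?_) (h v)
    ext w; simp only [Finset.mem_filter, Finset.mem_univ, true_and]
    exact Iff.rfl

theorem mean_union (k d : ℕ) (hk : 1 ≤ k) (hd : 1 ≤ d) :
    meanCycles (blk (bidx k d)) = k * ∑ j ∈ Finset.range d, 1 / ((j : ℝ) + 1) := by
  have hC : (CF (blk (bidx k d))).Nonempty :=
    CF_nonempty (Nat.mul_pos hk hd) hd _ (Reg_blk k d)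
  unfold meanCycles
  rw [mean_blk _ hC]
  rw [← Equiv.sum_comp (finProdFinEquiv (m := k) (n := d)), Fintype.sum_prod_type]
  have h1 : ∀ (a : Fin k) (j : Fin d), (1 : ℝ) / ((((univ.filter fun w : Fin (k * d) =>
      w ≤ finProdFinEquiv (a, j)).filter fun w => bidx k d w =
      bidx k d (finProdFinEquiv (a, j))).card : ℕ) : ℝ) = 1 / ((j.val : ℝ) + 1) := by
    intro a j
    have h2 : (univ.filter fun j' : Fin d => finProdFinEquiv (a, j') ≤
        (finProdFinEquiv (a, j) : Fin (k * d))) = Finset.Iic j := by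
      ext j'
      simp only [Finset.mem_filter, Finset.mem_univ, true_and, Finset.mem_Iic]
      rw [Fin.le_def, Fin.le_def]
      simp
    have h3 : (((univ.filter fun w : Fin (k * d) =>
      w ≤ finProdFinEquiv (a, j)).filter fun w => bidx k d w =
      bidx k d (finProdFinEquiv (a, j))).card) = j.val + 1 := by
      have h4 := block_card k d a (fun w => w ≤ finProdFinEquiv (a, j))
      have h5 : (univ.filter fun j' : Fin d => finProdFinEquiv (a, j') ≤
        (finProdFinEquiv (a, j) : Fin (k * d))).card = j.val + 1 := by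
        rw [h2, Fin.card_Iic]
      rw [Finset.filter_filter, bidx_pair]
      refine Eq.trans ?_ (h4.trans ?_)
      · congr 1
        ext x
        simp
      · rw [← h5]
        congr 1
        ext x
        simp
    rw [h3]
    push_cast
    rfl
  have h3 : ∀ a : Fin k, ∑ j : Fin d, (1 : ℝ) / ((((univ.filter fun w : Fin (k * d) =>
      w ≤ finProdFinEquiv (a, j)).filter fun w => bidx k d w =
      bidx k d (finProdFinEquiv (a, j))).card : ℕ) : ℝ) =
      ∑ j ∈ Finset.range d, 1 / ((j : ℝ) + 1) := by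
    intro a
    rw [Finset.sum_congr rfl (fun j _ => h1 a j), Finset.sum_range]
  rw [Finset.sum_congr rfl (fun a _ => h3 a), Finset.sum_const, Finset.card_univ,
    Fintype.card_fin, nsmul_eq_mul]

theorem harmonic_eq (d : ℕ) : ((harmonic d : ℚ) : ℝ) = ∑ j ∈ Finset.range d, 1 / ((j : ℝ) + 1) := by
  unfold harmonic
  push_cast
  exact Finset.sum_congr rfl (fun j _ => by rw [one_div])

theorem maxMean_greatest (d k : ℕ) :
    IsGreatest {x : ℝ | ∃ A : Fin (k * d) → Fin (k * d) → Prop, Reg A d ∧ x = meanCycles A}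
      (maxMean d (k * d)) := by
  have hfin : {x : ℝ | ∃ A : Fin (k * d) → Fin (k * d) → Prop, Reg A d ∧
      x = meanCycles A}.Finite := by
    apply Set.Finite.subset (Set.finite_range
      (fun A : Fin (k * d) → Fin (k * d) → Prop => meanCycles A))
    rintro x ⟨A, _, rfl⟩
    exact ⟨A, rfl⟩
  have hne : {x : ℝ | ∃ A : Fin (k * d) → Fin (k * d) → Prop, Reg A d ∧
      x = meanCycles A}.Nonempty := ⟨_, blk (bidx k d), Reg_blk k d, rfl⟩
  exact ⟨hne.csSup_mem hfin, fun x hx => le_csSup hfin.bddAbove hx⟩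

theorem main_limit {ε : ℝ} (hε : 0 < ε) : ∃ D : ℕ, ∀ d : ℕ, D ≤ d → ∀ k : ℕ, 1 ≤ k →
    |maxMean d (k * d) / ((k : ℝ) * ((harmonic d : ℚ) : ℝ)) - 1| ≤ ε := by
  obtain ⟨K, hK0, hK⟩ := upper_all (show 0 < ε / 2 by positivity)
  obtain ⟨D, hD⟩ := exists_nat_ge (Real.exp (2 * K / ε))
  refine ⟨max D 1, ?_⟩
  intro d hd k hk
  have hd1 : 1 ≤ d := le_trans (le_max_right _ _) hd
  have hdD : D ≤ d := le_trans (le_max_left _ _) hd
  have hd' : (0 : ℝ) < d := by exact_mod_cast hd1
  have hk' : (0 : ℝ) < k := by exact_mod_cast hk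
  obtain ⟨⟨A, hA, hAeq⟩, hub⟩ := maxMean_greatest d k
  have hH : Real.log d ≤ ((harmonic d : ℚ) : ℝ) := by
    refine le_trans ?_ (log_add_one_le_harmonic d)
    apply Real.log_le_log hd'
    push_cast; linarith
  have hH0 : 0 < ((harmonic d : ℚ) : ℝ) := by
    exact_mod_cast harmonic_pos (by omega)
  have hKlog : K ≤ (ε / 2) * Real.log d := by
    have h1 : Real.exp (2 * K / ε) ≤ d := hD.trans (by exact_mod_cast hdD)
    have h2 := (Real.le_log_iff_exp_le hd').2 h1
    have h3 : K = (ε / 2) * (2 * K / ε) := by field_simp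
    rw [h3]
    exact mul_le_mul_of_nonneg_left h2 (by positivity)
  have hlo : (k : ℝ) * ((harmonic d : ℚ) : ℝ) ≤ maxMean d (k * d) := by
    rw [harmonic_eq, ← mean_union k d hk hd1]
    exact hub ⟨_, Reg_blk k d, rfl⟩
  have hup : maxMean d (k * d) ≤ (1 + ε) * ((k : ℝ) * ((harmonic d : ℚ) : ℝ)) := by
    rw [hAeq]
    have h1 := hK d (k * d) hd1 (Nat.mul_pos hk hd1) A hA
    have h2 : (((k * d : ℕ) : ℝ) / d) = k := by push_cast; field_simp
    rw [h2] at h1
    refine h1.trans ?_
    have h3 : (1 + ε / 2) * Real.log d + K ≤ (1 + ε) * ((harmonic d : ℚ) : ℝ) := by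
      have : (1 + ε / 2) * Real.log d + K ≤ (1 + ε) * Real.log d := by linarith
      exact this.trans (mul_le_mul_of_nonneg_left hH (by positivity))
    calc (k : ℝ) * ((1 + ε / 2) * Real.log d + K)
        ≤ k * ((1 + ε) * ((harmonic d : ℚ) : ℝ)) := mul_le_mul_of_nonneg_left h3 hk'.le
      _ = _ := by ring
  have hpos : 0 < (k : ℝ) * ((harmonic d : ℚ) : ℝ) := by positivity
  rw [abs_le]
  constructor
  · have : 1 ≤ maxMean d (k * d) / ((k : ℝ) * ((harmonic d : ℚ) : ℝ)) := by
      rw [le_div_iff₀ hpos]; linarith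
    linarith
  · have : maxMean d (k * d) / ((k : ℝ) * ((harmonic d : ℚ) : ℝ)) ≤ 1 + ε := by
      rw [div_le_iff₀ hpos]; exact hup
    linarith

end Pool.Agent.Lib.MP_3cdeb8_co
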