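import Pool.Agent.Lib.MP_3cdeb8_co.Slack

set_option autoImplicit false
set_option linter.unusedSectionVars false

namespace Pool.Agent.Lib.MP_3cdeb8_co

open Finset
open scoped Classical

variable {V : Type*} [Fintype V]

/-- The reversed directed graph. -/
def rev (A : V → V → Prop) : V → V → Prop := fun x v => A v x

theorem Reg_rev {A : V → V → Prop} {d : ℕ} (hA : Reg A d) : Reg (rev A) d := ⟨hA.2, hA.1⟩

theorem inv_mem_CF {A : V → V → Prop} {σ : Equiv.Perm V} : σ⁻¹ ∈ CF (rev A) ↔ σ ∈ CF A := by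
  rw [mem_CF, mem_CF]
  constructor
  · intro h v
    have := h (σ v)
    simpa [rev] using this
  · intro h v
    have := h (σ⁻¹ v)
    simpa [rev] using this

theorem sum_CF_rev (A : V → V → Prop) (g : Equiv.Perm V → ℝ) :
    ∑ σ ∈ CF A, g σ⁻¹ = ∑ σ ∈ CF (rev A), g σ := by
  refine Finset.sum_bij' (fun σ _ => σ⁻¹) (fun σ _ => σ⁻¹) ?_ ?_ ?_ ?_ ?_
  · intro σ hσ; exact inv_mem_CF.2 hσ
  · intro σ hσ
    rw [← inv_mem_CF (A := A)]
    simpa using hσ
  · intro σ _; simp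
  · intro σ _; simp
  · intro σ _; rfl

theorem card_CF_rev (A : V → V → Prop) : ((CF (rev A)).card : ℝ) = ((CF A).card : ℝ) := by
  have := sum_CF_rev A (fun _ => 1)
  simpa using this.symm

theorem CF_rev_nonempty {A : V → V → Prop} (h : (CF A).Nonempty) : (CF (rev A)).Nonempty := by
  obtain ⟨σ, hσ⟩ := h
  exact ⟨σ⁻¹, inv_mem_CF.2 hσ⟩

theorem inv_mem_cls {A : V → V → Prop} {T : Finset V} {σ τ : Equiv.Perm V} :
    τ⁻¹ ∈ cls (rev A) (T.image σ) σ⁻¹ ↔ τ ∈ cls A T σ := by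
  rw [mem_cls, mem_cls, inv_mem_CF]
  refine and_congr_right (fun _ => ?_)
  constructor
  · intro h w hw
    have h1 := h (σ w) (fun h => by
      obtain ⟨u, hu, huw⟩ := Finset.mem_image.1 h
      exact hw (σ.injective huw ▸ hu))
    rw [Equiv.Perm.inv_eq_iff_eq] at h1
    simpa using h1.symm
  · intro h w hw
    have h1 := h (σ⁻¹ w) (fun h => hw (Finset.mem_image.2 ⟨_, h, by simp⟩))
    rw [Equiv.Perm.inv_eq_iff_eq, h1]
    simp

theorem cls_rev (A : V → V → Prop) (T : Finset V) (σ : Equiv.Perm V) :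
    cls (rev A) (T.image σ) σ⁻¹ = (cls A T σ).image (fun τ => τ⁻¹) := by
  ext ρ
  rw [Finset.mem_image]
  constructor
  · intro h
    refine ⟨ρ⁻¹, ?_, by simp⟩
    rw [← inv_mem_cls]; simpa using h
  · rintro ⟨τ, hτ, rfl⟩
    exact inv_mem_cls.2 hτ

theorem Pr_rev (A : V → V → Prop) (T : Finset V) (σ : Equiv.Perm V) (y u : V) :
    Pr (rev A) (T.image σ) y σ⁻¹ u = Pr A T u σ y := by
  unfold Pr
  rw [cls_rev]
  have hinj : Function.Injective (fun τ : Equiv.Perm V => τ⁻¹) := inv_injective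
  rw [Finset.card_image_of_injective _ hinj]
  congr 2
  rw [Finset.filter_image, Finset.card_image_of_injective _ hinj]
  congr 1
  ext τ
  simp only [Finset.mem_filter, and_congr_right_iff]
  intro _
  rw [Equiv.Perm.inv_eq_iff_eq]
  exact eq_comm

theorem image_Tf {d : ℕ} (i : ℕ) (f : V → Fin d) (σ : Equiv.Perm V) :
    (Tf i f).image σ = Tf i (fun y => f (σ⁻¹ y)) := by
  ext y
  rw [Finset.mem_image, mem_Tf]
  constructor
  · rintro ⟨u, hu, rfl⟩
    rw [mem_Tf] at hu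
    simpa using hu
  · intro h
    exact ⟨σ⁻¹ y, mem_Tf.2 h, by simp⟩

/-- The column version of the deficit is the deficit of the reversed graph. -/
theorem tot_rev (A : V → V → Prop) {d i : ℕ} (hi : 2 * i ≤ d) (m : ℝ) :
    ∑ f : V → Fin d, ∑ σ ∈ CF A, ∑ y ∈ (Tf i f).image σ,
      Kd (rev A) m ((Tf i f).image σ) y σ⁻¹ =
    Tot (rev A) d i (fun S v σ => Kd (rev A) m S v σ) := by
  unfold Tot
  rw [Finset.sum_comm, Finset.sum_comm (t := CF (rev A))]
  have h1 : ∀ σ ∈ CF A, ∑ f : V → Fin d, ∑ y ∈ (Tf i f).image σ,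
      Kd (rev A) m ((Tf i f).image σ) y σ⁻¹ =
      (fun ρ : Equiv.Perm V => ∑ f : V → Fin d, ∑ y ∈ Sf i f, Kd (rev A) m (Sf i f) y ρ) σ⁻¹ := by
    intro σ _
    simp only
    rw [← sum_Tf hi (fun S => ∑ y ∈ S, Kd (rev A) m S y σ⁻¹)]
    refine Finset.sum_bij' (fun f _ => fun y => f (σ⁻¹ y)) (fun f _ => fun y => f (σ y))
      ?_ ?_ ?_ ?_ ?_
    · intro f _; exact Finset.mem_univ _
    · intro f _; exact Finset.mem_univ _
    · intro f _; funext y; simp
    · intro f _; funext y; simp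
    · intro f _
      rw [image_Tf]
  rw [Finset.sum_congr rfl h1]
  exact sum_CF_rev A
    (fun ρ : Equiv.Perm V => ∑ f : V → Fin d, ∑ y ∈ Sf i f, Kd (rev A) m (Sf i f) y ρ)

/-- The conditional law on `S` only depends on the values on `S`. -/
theorem Pr_indep {A : V → V → Prop} {S : Finset V} {σ τ : Equiv.Perm V} (hσ : σ ∈ CF A)
    (hτ : τ ∈ CF A) (h : ∀ w ∈ S, τ w = σ w) {v : V} (hv : v ∈ S) (x : V) :
    Pr A S v τ x = Pr A S v σ x := by
  -- the bijection `ρ ↦ τ σ⁻¹ ρ`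
  have key : ∀ (σ τ : Equiv.Perm V), τ ∈ CF A → (∀ w ∈ S, τ w = σ w) →
      ∀ ρ ∈ cls A S σ, τ * σ⁻¹ * ρ ∈ cls A S τ ∧ ∀ w ∈ S, (τ * σ⁻¹ * ρ) w = ρ w := by
    intro σ τ hτ h ρ hρ
    obtain ⟨h1, h2⟩ := mem_cls.1 hρ
    have h3 : ∀ w ∈ S, (τ * σ⁻¹ * ρ) w = ρ w := by
      intro w hw
      have h4 : σ⁻¹ (ρ w) ∈ S := symm_mem_of_agree h2 hw
      simp only [Equiv.Perm.mul_apply]
      rw [h _ h4]; simp
    refine ⟨mem_cls.2 ⟨mem_CF.2 (fun w => ?_), fun w hw => ?_⟩, h3⟩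
    · by_cases hw : w ∈ S
      · rw [h3 w hw]; exact mem_CF.1 h1 w
      · simp only [Equiv.Perm.mul_apply]
        rw [h2 w hw]
        simpa using mem_CF.1 hτ w
    · simp only [Equiv.Perm.mul_apply]
      rw [h2 w hw]; simp
  have hle : ∀ (σ τ : Equiv.Perm V), τ ∈ CF A → (∀ w ∈ S, τ w = σ w) → ∀ (p : V → Prop),
      ((cls A S σ).filter (fun ρ => p (ρ v))).card ≤
      ((cls A S τ).filter (fun ρ => p (ρ v))).card := by
    intro σ τ hτ h p
    refine Finset.card_le_card_of_injOn (fun ρ => τ * σ⁻¹ * ρ) ?_ ?_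
    · intro ρ hρ
      rw [Finset.mem_coe, Finset.mem_filter] at hρ
      obtain ⟨h1, h2⟩ := key σ τ hτ h ρ hρ.1
      rw [Finset.mem_coe, Finset.mem_filter]
      refine ⟨h1, ?_⟩
      rw [h2 v hv]; exact hρ.2
    · intro ρ _ ρ' _ h
      exact mul_left_cancel h
  have heq : ∀ (p : V → Prop), ((cls A S σ).filter (fun ρ => p (ρ v))).card =
      ((cls A S τ).filter (fun ρ => p (ρ v))).card := fun p =>
    le_antisymm (hle σ τ hτ h p) (hle τ σ hσ (fun w hw => (h w hw).symm) p)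
  unfold Pr
  have h1 := heq (fun y => y = x)
  have h2 := heq (fun _ => True)
  simp only [Finset.filter_true] at h2
  rw [h1, h2]

theorem av_indep {A : V → V → Prop} {S : Finset V} {σ τ : Equiv.Perm V}
    (h : ∀ w ∈ S, τ w = σ w) (v : V) : av A S v τ = av A S v σ := by
  ext x
  rw [mem_av, mem_av]
  refine and_congr_right (fun _ => ?_)
  constructor
  · intro hx
    have := h _ hx
    rw [Equiv.apply_symm_apply] at this
    have h2 : σ.symm x = τ.symm x := by rw [Equiv.symm_apply_eq]; exact this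
    rwa [h2]
  · intro hx
    have := h _ hx
    rw [Equiv.apply_symm_apply] at this
    have h2 : τ.symm x = σ.symm x := by rw [Equiv.symm_apply_eq]; exact this.symm
    rwa [h2]

end Pool.Agent.Lib.MP_3cdeb8_co
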