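import Pool.Agent.Lib.MP_3cdeb8_co.Cycle
import Pool.Agent.Lib.MP_3cdeb8_co.Rev

set_option autoImplicit false
set_option linter.unusedSectionVars false

namespace Pool.Agent.Lib.MP_3cdeb8_co

open Finset
open scoped Classical

variable {V : Type*} [Fintype V]

theorem loop_avg (A : V → V → Prop) (S : Finset V) {v : V} (hv : v ∈ S) :
    ∑ σ ∈ CF A, (if σ v = pth S σ v then (1 : ℝ) else 0) =
      ∑ σ ∈ CF A, Pr A S v σ (pth S σ v) := by
  rw [avg_cls A S]
  refine Finset.sum_congr rfl (fun σ hσ => ?_)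
  unfold Pr
  congr 1
  rw [Finset.sum_boole]
  congr 2
  ext τ
  simp only [Finset.mem_filter, and_congr_right_iff]
  intro hτ
  rw [agree_pth (mem_cls.1 hτ).2 hv]

theorem Tot_swap (A : V → V → Prop) (d i : ℕ) (g : Finset V → V → Equiv.Perm V → ℝ) :
    Tot A d i g = ∑ f : V → Fin d, ∑ v ∈ Sf i f, ∑ σ ∈ CF A, g (Sf i f) v σ := by
  unfold Tot
  exact Finset.sum_congr rfl (fun f _ => Finset.sum_comm)

theorem Tot_const {A : V → V → Prop} {d i : ℕ} (hd : 0 < d) (hi : i ≤ d) (c : ℝ) :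
    Tot A d i (fun _ _ _ => c) = c * Nm A d i := by
  unfold Tot Nm
  rw [← sum_Sf_card hd hi]
  simp only [Finset.sum_const, nsmul_eq_mul]
  rw [Finset.sum_mul, Finset.mul_sum]
  exact Finset.sum_congr rfl (fun f _ => by ring)

theorem Tot_add (A : V → V → Prop) (d i : ℕ) (g h : Finset V → V → Equiv.Perm V → ℝ) :
    Tot A d i (fun S v σ => g S v σ + h S v σ) = Tot A d i g + Tot A d i h := by
  unfold Tot
  simp only [Finset.sum_add_distrib]

theorem Tot_mul (A : V → V → Prop) (d i : ℕ) (c : ℝ) (g : Finset V → V → Equiv.Perm V → ℝ) :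
    Tot A d i (fun S v σ => c * g S v σ) = c * Tot A d i g := by
  unfold Tot
  simp only [Finset.mul_sum]

theorem Tot_mono (A : V → V → Prop) (d i : ℕ) {g h : Finset V → V → Equiv.Perm V → ℝ}
    (hgh : ∀ f : V → Fin d, ∀ σ ∈ CF A, ∀ v ∈ Sf i f, g (Sf i f) v σ ≤ h (Sf i f) v σ) :
    Tot A d i g ≤ Tot A d i h := by
  unfold Tot
  exact Finset.sum_le_sum (fun f _ => Finset.sum_le_sum (fun σ hσ =>
    Finset.sum_le_sum (fun v hv => hgh f σ hσ v hv)))

theorem Av_const {A : V → V → Prop} {d i : ℕ} (hV : 0 < Fintype.card V) (hd : 0 < d)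
    (hC : (CF A).Nonempty) (hi1 : 1 ≤ i) (hi : i ≤ d) (c : ℝ) :
    Av A d i (fun _ _ _ => c) = c := by
  unfold Av
  rw [Tot_const hd hi, mul_div_assoc, div_self (Nm_pos hV hd hi1 hC).ne', mul_one]

theorem Av_add (A : V → V → Prop) (d i : ℕ) (g h : Finset V → V → Equiv.Perm V → ℝ) :
    Av A d i (fun S v σ => g S v σ + h S v σ) = Av A d i g + Av A d i h := by
  unfold Av
  rw [Tot_add, add_div]

theorem Av_mul (A : V → V → Prop) (d i : ℕ) (c : ℝ) (g : Finset V → V → Equiv.Perm V → ℝ) :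
    Av A d i (fun S v σ => c * g S v σ) = c * Av A d i g := by
  unfold Av
  rw [Tot_mul, mul_div_assoc]

theorem Av_mono (A : V → V → Prop) (d i : ℕ) {g h : Finset V → V → Equiv.Perm V → ℝ}
    (hgh : ∀ f : V → Fin d, ∀ σ ∈ CF A, ∀ v ∈ Sf i f, g (Sf i f) v σ ≤ h (Sf i f) v σ) :
    Av A d i g ≤ Av A d i h :=
  div_le_div_of_nonneg_right (Tot_mono A d i hgh) (Nm_nonneg A d i)

theorem aa_eq_Pr (A : V → V → Prop) (d i : ℕ) :
    aa A d i = Av A d i (fun S v σ => Pr A S v σ (pth S σ v)) := by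
  unfold aa Av
  rw [Tot_swap, Tot_swap]
  congr 1
  exact Finset.sum_congr rfl (fun f _ => Finset.sum_congr rfl (fun v hv => loop_avg A _ hv))

/-- First bound for the loop probability. -/
theorem aa_le_one_scale {A : V → V → Prop} {d i : ℕ} (hV : 0 < Fintype.card V) (hd : 0 < d)
    (hC : (CF A).Nonempty) (hi1 : 1 ≤ i) (hi : i ≤ d) {θ : ℝ} (hθ : 0 ≤ θ) :
    θ * aa A d i ≤ slack A d i + (Real.exp θ - 1) / (i + 1) := by
  rw [aa_eq_Pr, ← Av_mul]
  have h1 : Av A d i (fun S v σ => θ * Pr A S v σ (pth S σ v)) ≤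
      Av A d i (fun S v σ => Kd A (i + 1) S v σ + (Real.exp θ - 1) / (i + 1)) := by
    apply Av_mono
    intro f σ _ v hv
    exact Pr_le_Kd A (by positivity) _ hv σ θ hθ _
  rw [Av_add, Av_const hV hd hC hi1 hi] at h1
  exact h1

theorem aa_nonneg (A : V → V → Prop) (d i : ℕ) : 0 ≤ aa A d i := by
  rw [aa_eq_Pr]
  unfold Av Tot
  apply div_nonneg _ (Nm_nonneg A d i)
  exact Finset.sum_nonneg (fun f _ => Finset.sum_nonneg (fun σ _ => Finset.sum_nonneg
    (fun v _ => Pr_nonneg _ _ _ _ _)))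

theorem aa_le_one {A : V → V → Prop} {d i : ℕ} (hV : 0 < Fintype.card V) (hd : 0 < d)
    (hC : (CF A).Nonempty) (hi1 : 1 ≤ i) (hi : i ≤ d) : aa A d i ≤ 1 := by
  rw [aa_eq_Pr, ← Av_const hV hd hC hi1 hi (1 : ℝ)]
  apply Av_mono
  intro f σ _ v _
  exact Pr_le_one _ _ _ _ _

/-- The heavy values at `v`. -/
noncomputable def heavy (A : V → V → Prop) (m ε : ℝ) (S : Finset V) (v : V)
    (σ : Equiv.Perm V) : Finset V :=
  (av A S v σ).filter fun x => 1 + ε < m * Pr A S v σ x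

theorem phi_mono {a b : ℝ} (ha : 1 ≤ a) (hab : a ≤ b) : phi a ≤ phi b := by
  have ha0 : 0 < a := by linarith
  have h1 := phi_lower (Real.log a) (z := b) (by linarith)
  rw [Real.exp_log ha0] at h1
  have h2 : 0 ≤ Real.log a := Real.log_nonneg ha
  have h3 : phi a = Real.log a * a - (a - 1) := by unfold phi; ring
  rw [h3]
  nlinarith

theorem phi_pos {ε : ℝ} (hε : 0 < ε) : 0 < phi (1 + ε) := by
  have h := phi_lower (Real.log (1 + ε / 2)) (z := 1 + ε) (by linarith)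
  rw [Real.exp_log (by linarith)] at h
  have h2 : 1 - (1 + ε / 2)⁻¹ ≤ Real.log (1 + ε / 2) :=
    Real.one_sub_inv_le_log_of_pos (by linarith)
  have h3 : 1 - (1 + ε / 2)⁻¹ = (ε / 2) / (1 + ε / 2) := by field_simp; ring
  rw [h3] at h2
  have h4 : (ε / 2) / (1 + ε / 2) * (1 + ε) ≤ Real.log (1 + ε / 2) * (1 + ε) :=
    mul_le_mul_of_nonneg_right h2 (by linarith)
  have h5 : ε / 2 < (ε / 2) / (1 + ε / 2) * (1 + ε) := by
    rw [div_mul_eq_mul_div, lt_div_iff₀ (by linarith)]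
    nlinarith
  linarith

theorem heavy_card (A : V → V → Prop) {m ε : ℝ} (hm : 0 < m) (hε : 0 < ε) (S : Finset V)
    (v : V) (σ : Equiv.Perm V) :
    ((heavy A m ε S v σ).card : ℝ) * phi (1 + ε) ≤ m * Kd A m S v σ := by
  have h1 : ∑ x ∈ heavy A m ε S v σ, phi (1 + ε) / m ≤ Kd A m S v σ := by
    unfold Kd
    refine le_trans ?_ (Finset.sum_le_sum_of_subset_of_nonneg (Finset.filter_subset
      (fun x => 1 + ε < m * Pr A S v σ x) (av A S v σ))
      (fun x _ _ => Kd_term_nonneg A hm S v σ x))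
    apply Finset.sum_le_sum
    intro x hx
    have := (Finset.mem_filter.1 hx).2
    exact div_le_div_of_nonneg_right (phi_mono (by linarith) this.le) hm.le
  rw [Finset.sum_const, nsmul_eq_mul] at h1
  have h2 := mul_le_mul_of_nonneg_left h1 hm.le
  refine le_trans (le_of_eq ?_) h2
  field_simp

/-- The probability that the start of the revealed path is a heavy value. -/
noncomputable def ph (A : V → V → Prop) (ε : ℝ) (d i : ℕ) : ℝ :=
  Av A d i (fun S v σ => if pth S σ v ∈ heavy A (i + 1) ε S v σ then 1 else 0)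

/-- Second bound for the loop probability. -/
theorem aa_le_two {A : V → V → Prop} {d i : ℕ} (hV : 0 < Fintype.card V) (hd : 0 < d)
    (hC : (CF A).Nonempty) (hi1 : 1 ≤ i) (hi : i ≤ d) {θ ε : ℝ} (hθ : 0 < θ) (hε : 0 < ε) :
    aa A d i ≤ (1 + ε) / (i + 1) + (1 / θ) * slack A d i +
      ((Real.exp θ - 1) / θ) * (1 / (i + 1)) * ph A ε d i := by
  have hm : (0 : ℝ) < (i : ℝ) + 1 := by positivity
  have hexp : 0 ≤ Real.exp θ - 1 := by linarith [Real.one_le_exp hθ.le]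
  rw [aa_eq_Pr]
  have h1 : Av A d i (fun S v σ => Pr A S v σ (pth S σ v)) ≤
      Av A d i (fun S v σ => ((1 + ε) / (i + 1) + (1 / θ) * Kd A (i + 1) S v σ) +
        ((Real.exp θ - 1) / θ) * (1 / (i + 1)) *
        (if pth S σ v ∈ heavy A (i + 1) ε S v σ then (1 : ℝ) else 0)) := by
    apply Av_mono
    intro f σ _ v hv
    have hK := Kd_nonneg A hm (Sf i f) v σ
    have h0 : 0 ≤ (1 + ε) / ((i : ℝ) + 1) := by positivity
    by_cases hh : pth (Sf i f) σ v ∈ heavy A (i + 1) ε (Sf i f) v σ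
    · rw [if_pos hh]
      have h2 := Pr_le_Kd A hm (Sf i f) hv σ θ hθ.le (pth (Sf i f) σ v)
      have h3 : Pr A (Sf i f) v σ (pth (Sf i f) σ v) ≤
          (1 / θ) * (Kd A (i + 1) (Sf i f) v σ + (Real.exp θ - 1) / (i + 1)) := by
        rw [one_div, ← div_eq_inv_mul, le_div_iff₀ hθ]; linarith
      have h4 : (1 / θ) * (Kd A (i + 1) (Sf i f) v σ + (Real.exp θ - 1) / (i + 1)) =
          (1 / θ) * Kd A (i + 1) (Sf i f) v σ +
          ((Real.exp θ - 1) / θ) * (1 / (i + 1)) * 1 := by field_simp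
      linarith
    · rw [if_neg hh, mul_zero, add_zero]
      have h5 : 0 ≤ (1 / θ) * Kd A (i + 1) (Sf i f) v σ := by positivity
      by_cases hav : pth (Sf i f) σ v ∈ av A (Sf i f) v σ
      · have h6 : ¬ (1 + ε < ((i : ℝ) + 1) * Pr A (Sf i f) v σ (pth (Sf i f) σ v)) :=
          fun h => hh (Finset.mem_filter.2 ⟨hav, h⟩)
        push Not at h6
        have h7 : Pr A (Sf i f) v σ (pth (Sf i f) σ v) ≤ (1 + ε) / ((i : ℝ) + 1) := by
          rw [le_div_iff₀ hm]; linarith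
        linarith
      · rw [Pr_eq_zero hv hav]
        linarith
  rw [Av_add, Av_add, Av_const hV hd hC hi1 hi, Av_mul, Av_mul] at h1
  exact h1

end Pool.Agent.Lib.MP_3cdeb8_co
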