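import Mathlib

/-!
# The objects of problem MP_3cdeb8_co

A directed graph on a finite vertex set `V` without multiple arcs (loops allowed) is a relation
`A : V → V → Prop`; `A v x` says that there is an arc from `v` to `x`.
-/

set_option autoImplicit false

namespace Pool.Agent.Lib.MP_3cdeb8_co

open Finset
open scoped Classical

variable {V : Type*} [Fintype V]

/-- `Reg A d`: the directed graph `A` is `d`-regular, i.e. every vertex has exactly `d`
out-neighbours and exactly `d` in-neighbours (a loop counts once toward each). -/
def Reg (A : V → V → Prop) (d : ℕ) : Prop :=
  (∀ v, (univ.filter fun x => A v x).card = d) ∧ (∀ x, (univ.filter fun v => A v x).card = d)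

/-- The cycle-factors of the directed graph `A`: the permutations `σ` of the vertex set such that
`(v, σ v)` is an arc for every vertex `v`. -/
noncomputable def CF (A : V → V → Prop) : Finset (Equiv.Perm V) :=
  univ.filter fun σ => ∀ v, A v (σ v)

/-- The number of cycles of a permutation, fixed points included: the number of classes of the
relation of being in the same cycle. -/
noncomputable def numCycles (σ : Equiv.Perm V) : ℕ :=
  Fintype.card (Quotient (Equiv.Perm.SameCycle.setoid σ))

/-- The expected number of cycles of a uniformly random cycle-factor of `A`. -/
noncomputable def meanCycles (A : V → V → Prop) : ℝ :=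
  (∑ σ ∈ CF A, (numCycles σ : ℝ)) / ((CF A).card : ℝ)

/-- `maxMean d n` is `M_d(n)`: the largest expected number of cycles of a uniformly random
cycle-factor over all `d`-regular directed graphs on `n` vertices. -/
noncomputable def maxMean (d n : ℕ) : ℝ :=
  sSup {x : ℝ | ∃ A : Fin n → Fin n → Prop, Reg A d ∧ x = meanCycles A}

end Pool.Agent.Lib.MP_3cdeb8_co
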