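import Pool.Agent.Lib.MP_3cdeb8_co.Class

set_option autoImplicit false
set_option linter.unusedSectionVars false

namespace Pool.Agent.Lib.MP_3cdeb8_co

open Finset
open scoped Classical

variable {V : Type*} [Fintype V]

theorem mm_nonempty {S : Finset V} (σ : Equiv.Perm V) {v : V} (hv : v ∈ S) :
    {r : ℕ | (σ⁻¹ ^ (r + 1)) v ∈ S}.Nonempty := by
  refine ⟨orderOf σ⁻¹ - 1, ?_⟩
  have h := orderOf_pos σ⁻¹
  have h2 : orderOf σ⁻¹ - 1 + 1 = orderOf σ⁻¹ := by omega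
  show (σ⁻¹ ^ (orderOf σ⁻¹ - 1 + 1)) v ∈ S
  rw [h2, pow_orderOf_eq_one]
  exact hv

theorem mm_spec {S : Finset V} (σ : Equiv.Perm V) {v : V} (hv : v ∈ S) :
    (σ⁻¹ ^ (mm S σ v + 1)) v ∈ S := Nat.sInf_mem (mm_nonempty σ hv)

theorem mm_min {S : Finset V} (σ : Equiv.Perm V) {v : V} {r : ℕ} (hr : r < mm S σ v) :
    (σ⁻¹ ^ (r + 1)) v ∉ S := fun h => Nat.notMem_of_lt_sInf hr h

theorem mm_min' {S : Finset V} (σ : Equiv.Perm V) {v : V} {r : ℕ} (h1 : 1 ≤ r)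
    (hr : r ≤ mm S σ v) : (σ⁻¹ ^ r) v ∉ S := by
  have := mm_min (S := S) σ (v := v) (r := r - 1) (by omega)
  rwa [Nat.sub_add_cancel h1] at this

theorem mm_eq {S : Finset V} (σ : Equiv.Perm V) {v : V} {m : ℕ}
    (h1 : ∀ r, 1 ≤ r → r ≤ m → (σ⁻¹ ^ r) v ∉ S) (h2 : (σ⁻¹ ^ (m + 1)) v ∈ S) :
    mm S σ v = m := by
  apply le_antisymm
  · exact Nat.sInf_le h2
  · by_contra hc
    push Not at hc
    have h3 : (σ⁻¹ ^ (mm S σ v + 1)) v ∈ S :=
      Nat.sInf_mem (s := {r : ℕ | (σ⁻¹ ^ (r + 1)) v ∈ S}) ⟨m, h2⟩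
    exact h1 _ (by omega) (by omega) h3

theorem inv_pow_succ (σ : Equiv.Perm V) (r : ℕ) (v : V) :
    (σ⁻¹ ^ (r + 1)) v = σ⁻¹ ((σ⁻¹ ^ r) v) := by
  rw [pow_succ', Equiv.Perm.mul_apply]

theorem agree_pow {S : Finset V} {σ τ : Equiv.Perm V} (h : ∀ w, w ∉ S → τ w = σ w) (v : V)
    (r : ℕ) (hr : r ≤ mm S σ v) : (τ⁻¹ ^ r) v = (σ⁻¹ ^ r) v := by
  induction r with
  | zero => simp
  | succ r ih =>
    have ih := ih (by omega)
    have h1 := mm_min (S := S) σ (v := v) (r := r) (by omega)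
    have h2 := h _ h1
    rw [inv_pow_succ, ih]
    rw [inv_pow_succ] at h2 ⊢
    have e1 : σ (σ⁻¹ ((σ⁻¹ ^ r) v)) = (σ⁻¹ ^ r) v := by simp
    rw [e1] at h2
    rw [Equiv.Perm.inv_eq_iff_eq]
    exact h2.symm

theorem agree_mm {S : Finset V} {σ τ : Equiv.Perm V} (h : ∀ w, w ∉ S → τ w = σ w) {v : V}
    (hv : v ∈ S) : mm S τ v = mm S σ v := by
  apply mm_eq
  · intro r h1 h2
    rw [agree_pow h v r h2]
    exact mm_min' σ h1 h2
  · rw [inv_pow_succ, agree_pow h v _ le_rfl]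
    by_contra hc
    have h2 := h _ hc
    have e1 : τ (τ⁻¹ ((σ⁻¹ ^ mm S σ v) v)) = (σ⁻¹ ^ mm S σ v) v := by simp
    rw [e1] at h2
    have h3 : σ⁻¹ ((σ⁻¹ ^ mm S σ v) v) = τ⁻¹ ((σ⁻¹ ^ mm S σ v) v) := by
      rw [Equiv.Perm.inv_eq_iff_eq]; exact h2
    rw [← h3, ← inv_pow_succ] at hc
    exact hc (mm_spec σ hv)

theorem agree_pth {S : Finset V} {σ τ : Equiv.Perm V} (h : ∀ w, w ∉ S → τ w = σ w) {v : V}
    (hv : v ∈ S) : pth S τ v = pth S σ v := by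
  unfold pth
  rw [agree_mm h hv]
  exact agree_pow h v _ le_rfl

theorem inv_pow_add (σ : Equiv.Perm V) (r s : ℕ) (v : V) :
    (σ⁻¹ ^ (r + s)) v = (σ⁻¹ ^ r) ((σ⁻¹ ^ s) v) := by
  rw [pow_add, Equiv.Perm.mul_apply]

/-- The revealed paths are disjoint. -/
theorem path_disj {S : Finset V} (σ : Equiv.Perm V) {v v' : V} (hv : v ∈ S) (hv' : v' ∈ S)
    {r r' : ℕ} (hr : r ≤ mm S σ v) (hr' : r' ≤ mm S σ v')
    (h : (σ⁻¹ ^ r) v = (σ⁻¹ ^ r') v') : v = v' ∧ r = r' := by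
  wlog hle : r ≤ r' generalizing v v' r r'
  · obtain ⟨h1, h2⟩ := this hv' hv hr' hr h.symm (by omega)
    exact ⟨h1.symm, h2.symm⟩
  obtain ⟨s, rfl⟩ := Nat.exists_eq_add_of_le hle
  rw [inv_pow_add] at h
  have h1 := (σ⁻¹ ^ r).injective h
  rcases Nat.eq_zero_or_pos s with rfl | hs
  · exact ⟨by simpa using h1, rfl⟩
  · exfalso
    have := mm_min' (S := S) σ (v := v') hs (by omega)
    exact this (h1 ▸ hv)

theorem pth_inj {S : Finset V} (σ : Equiv.Perm V) {v v' : V} (hv : v ∈ S) (hv' : v' ∈ S)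
    (h : pth S σ v = pth S σ v') : v = v' :=
  (path_disj σ hv hv' le_rfl le_rfl h).1

theorem sum_mm_le (S : Finset V) (σ : Equiv.Perm V) :
    ∑ v ∈ S, (mm S σ v + 1) ≤ Fintype.card V := by
  have h1 : ∑ v ∈ S, (mm S σ v + 1) =
      (S.sigma fun v => Finset.range (mm S σ v + 1)).card := by
    rw [Finset.card_sigma]; simp
  rw [h1, ← Finset.card_univ]
  refine Finset.card_le_card_of_injOn (fun p => (σ⁻¹ ^ p.2) p.1) (fun _ _ => Finset.mem_univ _) ?_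
  rintro ⟨v, r⟩ hp ⟨v', r'⟩ hp' h
  simp only [Finset.coe_sigma, Set.mem_sigma_iff, Finset.mem_coe, Finset.mem_range] at hp hp'
  obtain ⟨h1, h2⟩ := path_disj σ hp.1 hp'.1 (Nat.lt_succ_iff.1 hp.2) (Nat.lt_succ_iff.1 hp'.2) h
  subst h1; subst h2; rfl

theorem loop_iff {S : Finset V} (σ : Equiv.Perm V) {v : V} (hv : v ∈ S) :
    σ v = pth S σ v ↔ ∀ w ∈ S, σ.SameCycle v w → w = v := by
  constructor
  · intro h w hw hc
    have h1 : (σ⁻¹ ^ (mm S σ v + 1)) v = v := by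
      rw [inv_pow_succ]
      show σ⁻¹ (pth S σ v) = v
      rw [← h]; simp
    have hc' : σ⁻¹.SameCycle v w := Equiv.Perm.sameCycle_inv.2 hc
    obtain ⟨k, hk⟩ := hc'.exists_nat_pow_eq
    -- reduce `k` modulo `mm + 1`
    have h2 : ∀ q : ℕ, (σ⁻¹ ^ ((mm S σ v + 1) * q)) v = v := by
      intro q
      induction q with
      | zero => simp
      | succ q ih => rw [Nat.mul_succ, inv_pow_add, h1, ih]
    have h3 : (σ⁻¹ ^ (k % (mm S σ v + 1))) v = w := by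
      conv at hk => lhs; rw [← Nat.mod_add_div k (mm S σ v + 1), inv_pow_add, h2]
      exact hk
    rcases Nat.eq_zero_or_pos (k % (mm S σ v + 1)) with h0 | h0
    · rw [h0] at h3; simpa using h3.symm
    · exfalso
      have h4 : k % (mm S σ v + 1) < mm S σ v + 1 := Nat.mod_lt _ (by omega)
      have := mm_min' (S := S) σ (v := v) h0 (by omega)
      rw [h3] at this
      exact this hw
  · intro h
    have h1 := h _ (mm_spec σ hv) (by
      refine ⟨-((mm S σ v + 1 : ℕ) : ℤ), ?_⟩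
      rw [zpow_neg, zpow_natCast, inv_pow])
    rw [inv_pow_succ, Equiv.Perm.inv_eq_iff_eq] at h1
    exact h1.symm

/-- The rows of the revealed path which ends in `v`. -/
noncomputable def Qs (S : Finset V) (σ : Equiv.Perm V) (v : V) : Finset V :=
  (Finset.Icc 1 (mm S σ v)).image fun r => (σ⁻¹ ^ r) v

theorem Qs_card {S : Finset V} (σ : Equiv.Perm V) {v : V} (hv : v ∈ S) :
    (Qs S σ v).card = mm S σ v := by
  unfold Qs
  rw [Finset.card_image_of_injOn]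
  · simp
  · intro r hr r' hr' h
    exact (path_disj σ hv hv (Finset.mem_Icc.1 hr).2 (Finset.mem_Icc.1 hr').2 h).2

theorem Qs_disj (S : Finset V) (σ : Equiv.Perm V) (v : V) : Disjoint S (Qs S σ v) := by
  rw [Finset.disjoint_right]
  intro w hw
  obtain ⟨r, hr, rfl⟩ := Finset.mem_image.1 hw
  exact mm_min' σ (Finset.mem_Icc.1 hr).1 (Finset.mem_Icc.1 hr).2

theorem agree_Qs {S : Finset V} {σ τ : Equiv.Perm V} (h : ∀ w, w ∉ S → τ w = σ w) {v : V}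
    (hv : v ∈ S) : Qs S τ v = Qs S σ v := by
  unfold Qs
  rw [agree_mm h hv]
  refine Finset.image_congr ?_
  intro r hr
  exact agree_pow h v r (Finset.mem_Icc.1 hr).2

/-- If exactly one row of the path of `v` is in `T`, the path factors through this row. -/
theorem two_level {S T : Finset V} (σ : Equiv.Perm V) {v : V}
    (hv : v ∈ S) (h1 : (T ∩ Qs S σ v).card = 1) :
    σ⁻¹ (pth (S ∪ T) σ v) ∈ T ∧
      pth (S ∪ T) σ (σ⁻¹ (pth (S ∪ T) σ v)) = pth S σ v := by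
  obtain ⟨u, hu⟩ := Finset.card_eq_one.1 h1
  have hu1 : u ∈ T ∩ Qs S σ v := by rw [hu]; simp
  obtain ⟨huT, huQ⟩ := Finset.mem_inter.1 hu1
  obtain ⟨r, hr, rfl⟩ := Finset.mem_image.1 huQ
  obtain ⟨hr1, hr2⟩ := Finset.mem_Icc.1 hr
  -- other rows of the path are not in `T`
  have hoth : ∀ s, 1 ≤ s → s ≤ mm S σ v → s ≠ r → (σ⁻¹ ^ s) v ∉ S ∪ T := by
    intro s hs1 hs2 hsr hs
    rcases Finset.mem_union.1 hs with h | h
    · exact mm_min' σ hs1 hs2 h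
    · have : (σ⁻¹ ^ s) v ∈ T ∩ Qs S σ v :=
        Finset.mem_inter.2 ⟨h, Finset.mem_image.2 ⟨s, Finset.mem_Icc.2 ⟨hs1, hs2⟩, rfl⟩⟩
      rw [hu, Finset.mem_singleton] at this
      exact hsr (path_disj σ hv hv hs2 hr2 this).2
  have hm1 : mm (S ∪ T) σ v = r - 1 := by
    apply mm_eq
    · intro s hs1 hs2
      exact hoth s hs1 (by omega) (by omega)
    · rw [Nat.sub_add_cancel hr1]
      exact Finset.mem_union_right _ huT
  have hp1 : σ⁻¹ (pth (S ∪ T) σ v) = (σ⁻¹ ^ r) v := by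
    unfold pth
    rw [hm1, ← inv_pow_succ, Nat.sub_add_cancel hr1]
  have hm2 : mm (S ∪ T) σ ((σ⁻¹ ^ r) v) = mm S σ v - r := by
    apply mm_eq
    · intro s hs1 hs2
      rw [← inv_pow_add]
      exact hoth (s + r) (by omega) (by omega) (by omega)
    · rw [← inv_pow_add]
      have : mm S σ v - r + 1 + r = mm S σ v + 1 := by omega
      rw [this]
      exact Finset.mem_union_left _ (mm_spec σ hv)
  rw [hp1]
  refine ⟨huT, ?_⟩
  unfold pth
  rw [hm2, ← inv_pow_add, Nat.sub_add_cancel hr2]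

end Pool.Agent.Lib.MP_3cdeb8_co
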