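import Pool.Agent.Lib.MP_3cdeb8_co.Loop

set_option autoImplicit false
set_option linter.unusedSectionVars false

namespace Pool.Agent.Lib.MP_3cdeb8_co

open Finset
open scoped Classical

variable {V : Type*} [Fintype V]

/-- The rows of `T` whose second-level path starts at a heavy value of `v`. -/
noncomputable def bad (A : V → V → Prop) (m ε : ℝ) (S T : Finset V) (v : V)
    (σ : Equiv.Perm V) : Finset V :=
  T.filter fun u => pth (S ∪ T) σ u ∈ heavy A m ε S v σ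

theorem bad_card (A : V → V → Prop) (m ε : ℝ) (S T : Finset V) (v : V) (σ : Equiv.Perm V) :
    (bad A m ε S T v σ).card ≤ (heavy A m ε S v σ).card := by
  refine Finset.card_le_card_of_injOn (fun u => pth (S ∪ T) σ u) ?_ ?_
  · intro u hu
    exact (Finset.mem_filter.1 hu).2
  · intro u hu u' hu' h
    have h1 := (Finset.mem_filter.1 hu).1
    have h2 := (Finset.mem_filter.1 hu').1
    exact pth_inj σ (Finset.mem_union_right _ h1) (Finset.mem_union_right _ h2) h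

theorem heavy_indep {A : V → V → Prop} {m ε : ℝ} {S : Finset V} {σ τ : Equiv.Perm V}
    (hσ : σ ∈ CF A) (hτ : τ ∈ CF A) (h : ∀ w ∈ S, τ w = σ w) {v : V} (hv : v ∈ S) :
    heavy A m ε S v τ = heavy A m ε S v σ := by
  unfold heavy
  rw [av_indep h]
  refine Finset.filter_congr (fun x _ => ?_)
  rw [Pr_indep hσ hτ h hv]

theorem bad_congr {A : V → V → Prop} {m ε : ℝ} {S T : Finset V} (hST : Disjoint S T)
    {σ τ : Equiv.Perm V} (hσ : σ ∈ CF A) (hτ : τ ∈ cls A T σ) {v : V} (hv : v ∈ S) :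
    bad A m ε S T v τ = bad A m ε S T v σ := by
  obtain ⟨h1, h2⟩ := mem_cls.1 hτ
  unfold bad
  refine Finset.filter_congr (fun u hu => ?_)
  rw [heavy_indep hσ h1 (fun w hw => h2 w (Finset.disjoint_left.1 hST hw)) hv,
    agree_pth (fun w hw => h2 w (fun h => hw (Finset.mem_union_right _ h)))
      (Finset.mem_union_right _ hu)]

theorem prob_bad_le {A : V → V → Prop} {m : ℝ} (hm : 0 < m) (T : Finset V)
    {σ : Equiv.Perm V} (y : V) (B : Finset V) (hB : B ⊆ T) :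
    (∑ τ ∈ cls A T σ, if τ⁻¹ y ∈ B then (1 : ℝ) else 0) / ((cls A T σ).card : ℝ) ≤
      (if y ∈ T.image σ then Kd (rev A) m (T.image σ) y σ⁻¹ else 0) +
        (Real.exp 1 - 1) * (B.card : ℝ) / m := by
  have he : 0 ≤ Real.exp 1 - 1 := by linarith [Real.one_le_exp (zero_le_one)]
  have h1 : (∑ τ ∈ cls A T σ, if τ⁻¹ y ∈ B then (1 : ℝ) else 0) / ((cls A T σ).card : ℝ) =
      ∑ u ∈ B, Pr A T u σ y := by
    unfold Pr
    rw [← Finset.sum_div]
    congr 1
    have h2 : ∀ τ ∈ cls A T σ, (if τ⁻¹ y ∈ B then (1 : ℝ) else 0) =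
        ∑ u ∈ B, if τ u = y then (1 : ℝ) else 0 := by
      intro τ _
      have h3 : ∀ u, (τ u = y) ↔ (u = τ⁻¹ y) := by
        intro u
        rw [Equiv.Perm.eq_inv_iff_eq]
      simp only [h3]
      rw [Finset.sum_ite_eq']
    rw [Finset.sum_congr rfl h2, Finset.sum_comm]
    refine Finset.sum_congr rfl (fun u _ => ?_)
    rw [Finset.sum_boole]
  rw [h1]
  by_cases hy : y ∈ T.image σ
  · rw [if_pos hy]
    have h2 : ∀ u ∈ B, Pr A T u σ y = Pr (rev A) (T.image σ) y σ⁻¹ u :=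
      fun u _ => (Pr_rev A T σ y u).symm
    rw [Finset.sum_congr rfl h2]
    exact Pr_set_le (rev A) hm (T.image σ) hy σ⁻¹ B
  · rw [if_neg hy, zero_add]
    have h2 : ∀ u ∈ B, Pr A T u σ y = 0 := by
      intro u hu
      apply Pr_eq_zero (hB hu)
      intro h
      apply hy
      rw [Finset.mem_image]
      exact ⟨σ.symm y, (mem_av.1 h).2, by simp⟩
    rw [Finset.sum_congr rfl h2, Finset.sum_const_zero]
    positivity

theorem resample_one (A : V → V → Prop) {m ε : ℝ} (hm : 0 < m) (hε : 0 < ε) {S T : Finset V}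
    (hST : Disjoint S T) :
    ∑ σ ∈ CF A, ∑ v ∈ S, (if pth S σ v ∈ heavy A m ε S v σ ∧ (T ∩ Qs S σ v).card = 1
      then (1 : ℝ) else 0) ≤
    ∑ σ ∈ CF A, (∑ y ∈ T.image σ, Kd (rev A) m (T.image σ) y σ⁻¹ +
      ((Real.exp 1 - 1) / phi (1 + ε)) * ∑ v ∈ S, Kd A m S v σ) := by
  have he : 0 ≤ Real.exp 1 - 1 := by linarith [Real.one_le_exp (zero_le_one)]
  have hphi := phi_pos hε
  have h1 : ∑ σ ∈ CF A, ∑ v ∈ S, (if pth S σ v ∈ heavy A m ε S v σ ∧ (T ∩ Qs S σ v).card = 1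
      then (1 : ℝ) else 0) ≤
      ∑ σ ∈ CF A, ∑ v ∈ S, (if σ⁻¹ (pth (S ∪ T) σ v) ∈ bad A m ε S T v σ
      then (1 : ℝ) else 0) := by
    refine Finset.sum_le_sum (fun σ _ => Finset.sum_le_sum (fun v hv => ?_))
    by_cases h : pth S σ v ∈ heavy A m ε S v σ ∧ (T ∩ Qs S σ v).card = 1
    · obtain ⟨h2, h3⟩ := two_level (T := T) σ hv h.2
      rw [if_pos h, if_pos]
      rw [bad, Finset.mem_filter]
      exact ⟨h2, by rw [h3]; exact h.1⟩
    · rw [if_neg h]
      split_ifs <;> norm_num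
  refine h1.trans ?_
  rw [avg_cls A T]
  refine Finset.sum_le_sum (fun σ hσ => ?_)
  have h2 : ∀ τ ∈ cls A T σ, ∑ v ∈ S, (if τ⁻¹ (pth (S ∪ T) τ v) ∈ bad A m ε S T v τ
      then (1 : ℝ) else 0) = ∑ v ∈ S, (if τ⁻¹ (pth (S ∪ T) σ v) ∈ bad A m ε S T v σ
      then (1 : ℝ) else 0) := by
    intro τ hτ
    refine Finset.sum_congr rfl (fun v hv => ?_)
    rw [bad_congr hST hσ hτ hv,
      agree_pth (fun w hw => (mem_cls.1 hτ).2 w (fun h => hw (Finset.mem_union_right _ h)))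
        (Finset.mem_union_left _ hv)]
  rw [Finset.sum_congr rfl h2, Finset.sum_comm, Finset.sum_div]
  have h3 : ∀ v ∈ S, (∑ τ ∈ cls A T σ, if τ⁻¹ (pth (S ∪ T) σ v) ∈ bad A m ε S T v σ
      then (1 : ℝ) else 0) / ((cls A T σ).card : ℝ) ≤
      (if pth (S ∪ T) σ v ∈ T.image σ then
        Kd (rev A) m (T.image σ) (pth (S ∪ T) σ v) σ⁻¹ else 0) +
      ((Real.exp 1 - 1) / phi (1 + ε)) * Kd A m S v σ := by
    intro v _
    refine (prob_bad_le hm T (pth (S ∪ T) σ v) _ (Finset.filter_subset _ _)).trans ?_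
    have h4 : ((bad A m ε S T v σ).card : ℝ) * phi (1 + ε) ≤ m * Kd A m S v σ := by
      refine le_trans ?_ (heavy_card A hm hε S v σ)
      exact mul_le_mul_of_nonneg_right (by exact_mod_cast bad_card A m ε S T v σ) hphi.le
    have h5 : (Real.exp 1 - 1) * ((bad A m ε S T v σ).card : ℝ) / m ≤
        ((Real.exp 1 - 1) / phi (1 + ε)) * Kd A m S v σ := by
      rw [div_mul_eq_mul_div, div_le_div_iff₀ hm hphi]
      nlinarith [mul_le_mul_of_nonneg_left h4 he]
    have h6 : (Real.exp 1 - 1) * ((T.filter fun u =>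
      pth (S ∪ T) σ u ∈ heavy A m ε S v σ).card : ℝ) / m ≤
        ((Real.exp 1 - 1) / phi (1 + ε)) * Kd A m S v σ := h5
    exact add_le_add le_rfl h5
  refine (Finset.sum_le_sum h3).trans ?_
  rw [Finset.sum_add_distrib, ← Finset.mul_sum]
  apply add_le_add _ le_rfl
  rw [← Finset.sum_filter]
  have hinj : Set.InjOn (fun v => pth (S ∪ T) σ v)
      (S.filter fun v => pth (S ∪ T) σ v ∈ T.image σ) := by
    intro v hv v' hv' h
    exact pth_inj σ (Finset.mem_union_left _ (Finset.mem_filter.1 hv).1)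
      (Finset.mem_union_left _ (Finset.mem_filter.1 hv').1) h
  rw [← Finset.sum_image (f := fun y => Kd (rev A) m (T.image σ) y σ⁻¹) hinj]
  apply Finset.sum_le_sum_of_subset_of_nonneg
  · intro y hy
    obtain ⟨v, hv, rfl⟩ := Finset.mem_image.1 hy
    exact (Finset.mem_filter.1 hv).2
  · intro y _ _
    exact Kd_nonneg (rev A) hm _ _ _

theorem Sf_Tf_disj {d : ℕ} (i : ℕ) (f : V → Fin d) : Disjoint (Sf i f) (Tf i f) := by
  rw [Finset.disjoint_left]
  intro v hv hv'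
  rw [mem_Sf] at hv
  rw [mem_Tf] at hv'
  omega

/-- The resampling bound. -/
theorem resample (A : V → V → Prop) {d i : ℕ} (hi : 2 * i ≤ d) {ε : ℝ} (hε : 0 < ε) :
    ∑ f : V → Fin d, ∑ σ ∈ CF A, ∑ v ∈ Sf i f,
      (if pth (Sf i f) σ v ∈ heavy A (i + 1) ε (Sf i f) v σ ∧
        (Tf i f ∩ Qs (Sf i f) σ v).card = 1 then (1 : ℝ) else 0) ≤
    Tot (rev A) d i (fun S v σ => Kd (rev A) (i + 1) S v σ) +
      ((Real.exp 1 - 1) / phi (1 + ε)) * Tot A d i (fun S v σ => Kd A (i + 1) S v σ) := by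
  have hm : (0 : ℝ) < (i : ℝ) + 1 := by positivity
  refine (Finset.sum_le_sum (fun f _ => resample_one A hm hε (Sf_Tf_disj i f))).trans ?_
  rw [← tot_rev A hi]
  unfold Tot
  rw [Finset.mul_sum, ← Finset.sum_add_distrib]
  refine le_of_eq (Finset.sum_congr rfl (fun f _ => ?_))
  rw [Finset.sum_add_distrib, Finset.mul_sum]

end Pool.Agent.Lib.MP_3cdeb8_co
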