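import Pool.Agent.Lib.MP_3cdeb8_co.Resample

set_option autoImplicit false
set_option linter.unusedSectionVars false

namespace Pool.Agent.Lib.MP_3cdeb8_co

open Finset
open scoped Classical

variable {V : Type*} [Fintype V]

theorem group_T {d i : ℕ} (hi : 2 * i < d) (E : Finset V → V → Prop)
    (Q : Finset V → V → Finset V) (hQ : ∀ S v, Disjoint S (Q S v)) {c : ℝ}
    (hc : ∀ S v, v ∈ S → E S v → c ≤ ((Q S v).card : ℝ) * (i / (d - i) : ℝ) *
      ((d - 2 * i) / (d - i) : ℝ) ^ ((Q S v).card - 1)) :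
    c * ∑ f : V → Fin d, ∑ v ∈ Sf i f, (if E (Sf i f) v then (1 : ℝ) else 0) ≤
      ∑ f : V → Fin d, ∑ v ∈ Sf i f,
        (if E (Sf i f) v ∧ (Tf i f ∩ Q (Sf i f) v).card = 1 then (1 : ℝ) else 0) := by
  rw [← Finset.sum_fiberwise_of_maps_to (s := (univ : Finset (V → Fin d)))
    (t := (univ : Finset (Finset V))) (g := fun f => Sf i f) (fun _ _ => Finset.mem_univ _),
    ← Finset.sum_fiberwise_of_maps_to (s := (univ : Finset (V → Fin d)))
    (t := (univ : Finset (Finset V))) (g := fun f => Sf i f) (fun _ _ => Finset.mem_univ _),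
    Finset.mul_sum]
  refine Finset.sum_le_sum (fun S _ => ?_)
  have h1 : ∑ f ∈ univ.filter (fun f : V → Fin d => Sf i f = S), ∑ v ∈ Sf i f,
      (if E (Sf i f) v then (1 : ℝ) else 0) =
      ∑ v ∈ S, if E S v then ((univ.filter fun f : V → Fin d => Sf i f = S).card : ℝ) else 0 := by
    have : ∀ f ∈ univ.filter (fun f : V → Fin d => Sf i f = S), ∑ v ∈ Sf i f,
        (if E (Sf i f) v then (1 : ℝ) else 0) = ∑ v ∈ S, (if E S v then (1 : ℝ) else 0) := by
      intro f hf
      rw [(Finset.mem_filter.1 hf).2]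
    rw [Finset.sum_congr rfl this, Finset.sum_const, nsmul_eq_mul, Finset.mul_sum]
    exact Finset.sum_congr rfl (fun v _ => by split_ifs <;> simp)
  have h2 : ∑ f ∈ univ.filter (fun f : V → Fin d => Sf i f = S), ∑ v ∈ Sf i f,
      (if E (Sf i f) v ∧ (Tf i f ∩ Q (Sf i f) v).card = 1 then (1 : ℝ) else 0) =
      ∑ v ∈ S, if E S v then ((univ.filter fun f : V → Fin d =>
        Sf i f = S ∧ (Tf i f ∩ Q S v).card = 1).card : ℝ) else 0 := by
    have : ∀ f ∈ univ.filter (fun f : V → Fin d => Sf i f = S), ∑ v ∈ Sf i f,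
        (if E (Sf i f) v ∧ (Tf i f ∩ Q (Sf i f) v).card = 1 then (1 : ℝ) else 0) =
        ∑ v ∈ S, (if E S v ∧ (Tf i f ∩ Q S v).card = 1 then (1 : ℝ) else 0) := by
      intro f hf
      rw [(Finset.mem_filter.1 hf).2]
    rw [Finset.sum_congr rfl this, Finset.sum_comm]
    refine Finset.sum_congr rfl (fun v _ => ?_)
    by_cases hE : E S v
    · rw [if_pos hE, Finset.sum_boole, Finset.filter_filter]
      congr 2
      ext f; simp [hE]
    · rw [if_neg hE]
      apply Finset.sum_eq_zero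
      intro f _
      rw [if_neg (fun h => hE h.1)]
  rw [h1, h2, Finset.mul_sum]
  refine Finset.sum_le_sum (fun v hv => ?_)
  by_cases hE : E S v
  · rw [if_pos hE, if_pos hE]
    refine le_trans ?_ (cnt_one hi S (Q S v) (hQ S v))
    rw [mul_comm]
    exact mul_le_mul_of_nonneg_left (hc S v hv hE) (by positivity)
  · rw [if_neg hE, if_neg hE, mul_zero]

theorem tot_pair {d : ℕ} (hd : 0 < d) {i : ℕ} (hi : i ≤ d) (w : V → V) :
    ∑ f : V → Fin d, ∑ v ∈ Sf i f, (if w v ∈ Sf i f ∧ w v ≠ v then (1 : ℝ) else 0) ≤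
      (Fintype.card V : ℝ) * (i / d : ℝ) ^ 2 * (d : ℝ) ^ Fintype.card V := by
  have h1 : ∀ f : V → Fin d, ∑ v ∈ Sf i f, (if w v ∈ Sf i f ∧ w v ≠ v then (1 : ℝ) else 0) =
      ∑ v, if (w v ≠ v ∧ ∀ u ∈ ({v, w v} : Finset V), (f u).val < i) then (1 : ℝ) else 0 := by
    intro f
    have h2 : ∑ v ∈ Sf i f, (if w v ∈ Sf i f ∧ w v ≠ v then (1 : ℝ) else 0) =
        ∑ v, if v ∈ Sf i f then (if w v ∈ Sf i f ∧ w v ≠ v then (1 : ℝ) else 0) else 0 := by
      rw [Finset.sum_ite_mem, Finset.univ_inter]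
    rw [h2]
    refine Finset.sum_congr rfl (fun v _ => ?_)
    simp only [mem_Sf, Finset.mem_insert, Finset.mem_singleton, forall_eq_or_imp, forall_eq]
    by_cases h3 : (f v).val < i <;> by_cases h4 : (f (w v)).val < i <;>
      by_cases h5 : w v = v <;> simp [h3, h4, h5]
  rw [Finset.sum_congr rfl (fun f _ => h1 f), Finset.sum_comm]
  have h3 : ∀ v ∈ (univ : Finset V), ∑ f : V → Fin d,
      (if (w v ≠ v ∧ ∀ u ∈ ({v, w v} : Finset V), (f u).val < i) then (1 : ℝ) else 0) ≤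
      (i / d : ℝ) ^ 2 * (d : ℝ) ^ Fintype.card V := by
    intro v _
    by_cases hw : w v = v
    · have : ∑ f : V → Fin d,
        (if (w v ≠ v ∧ ∀ u ∈ ({v, w v} : Finset V), (f u).val < i) then (1 : ℝ) else 0) = 0 := by
        apply Finset.sum_eq_zero
        intro f _
        rw [if_neg (fun h => h.1 hw)]
      rw [this]; positivity
    · have h4 := cnt_lt (V := V) hd hi ({v, w v} : Finset V)
      rw [Finset.card_pair (fun h => hw h.symm)] at h4
      rw [← h4, Finset.sum_boole]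
      apply le_of_eq
      congr 2
      ext f; simp [hw]
  refine (Finset.sum_le_sum h3).trans ?_
  rw [Finset.sum_const, Finset.card_univ, nsmul_eq_mul]
  apply le_of_eq; ring

theorem Av_long {A : V → V → Prop} {d i : ℕ} (hV : 0 < Fintype.card V) (hd : 0 < d)
    (hC : (CF A).Nonempty) (hi1 : 1 ≤ i) {X : ℝ} (hX : 0 < X) :
    Av A d i (fun S v σ => if X < (mm S σ v : ℝ) + 1 then 1 else 0) ≤ (d / i : ℝ) / X := by
  have hN := Nm_pos hV hd hi1 hC
  have hi' : (0 : ℝ) < i := by exact_mod_cast hi1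
  have hd' : (0 : ℝ) < d := by exact_mod_cast hd
  unfold Av
  rw [div_le_iff₀ hN]
  unfold Tot
  have h1 : ∀ f : V → Fin d, ∀ σ ∈ CF A, ∑ v ∈ Sf i f,
      (if X < (mm (Sf i f) σ v : ℝ) + 1 then (1 : ℝ) else 0) ≤ (Fintype.card V : ℝ) / X := by
    intro f σ _
    have h2 : ∀ v ∈ Sf i f, (if X < (mm (Sf i f) σ v : ℝ) + 1 then (1 : ℝ) else 0) ≤
        ((mm (Sf i f) σ v + 1 : ℕ) : ℝ) / X := by
      intro v _
      split_ifs with h
      · rw [le_div_iff₀ hX]; push_cast; linarith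
      · positivity
    refine (Finset.sum_le_sum h2).trans ?_
    rw [← Finset.sum_div]
    apply div_le_div_of_nonneg_right _ hX.le
    exact_mod_cast sum_mm_le (Sf i f) σ
  refine (Finset.sum_le_sum (fun f _ => Finset.sum_le_sum (h1 f))).trans ?_
  rw [Finset.sum_const, Finset.sum_const, Finset.card_univ, nsmul_eq_mul, nsmul_eq_mul]
  unfold Nm
  simp only [Fintype.card_fun, Fintype.card_fin]
  push_cast
  apply le_of_eq
  field_simp

theorem Av_short {A : V → V → Prop} {d i : ℕ} (hV : 0 < Fintype.card V) (hd : 0 < d)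
    (hC : (CF A).Nonempty) (hi1 : 1 ≤ i) (hi : i ≤ d) (L : ℕ) :
    Av A d i (fun S v σ => if mm S σ v < L then 1 else 0) ≤ aa A d i + L * (i / d : ℝ) := by
  have hN := Nm_pos hV hd hi1 hC
  have hi' : (0 : ℝ) < i := by exact_mod_cast hi1
  have hd' : (0 : ℝ) < d := by exact_mod_cast hd
  have h1 : Av A d i (fun S v σ => if mm S σ v < L then 1 else 0) ≤
      Av A d i (fun S v σ => (if σ v = pth S σ v then (1 : ℝ) else 0) +
        ∑ r ∈ Finset.range L, if (σ⁻¹ ^ (r + 1)) v ∈ S ∧ (σ⁻¹ ^ (r + 1)) v ≠ v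
          then (1 : ℝ) else 0) := by
    apply Av_mono
    intro f σ _ v hv
    have hnn : ∀ r ∈ Finset.range L, (0 : ℝ) ≤
        if (σ⁻¹ ^ (r + 1)) v ∈ Sf i f ∧ (σ⁻¹ ^ (r + 1)) v ≠ v then (1 : ℝ) else 0 := by
      intro r _; split_ifs <;> norm_num
    have hnn' := Finset.sum_nonneg hnn
    by_cases hm : mm (Sf i f) σ v < L
    · rw [if_pos hm]
      by_cases hl : (σ⁻¹ ^ (mm (Sf i f) σ v + 1)) v = v
      · rw [if_pos]
        · linarith
        · unfold pth
          rw [inv_pow_succ, Equiv.Perm.inv_eq_iff_eq] at hl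
          exact hl.symm
      · have h2 := Finset.single_le_sum hnn (Finset.mem_range.2 hm)
        rw [if_pos ⟨mm_spec σ hv, hl⟩] at h2
        have h3 : (0 : ℝ) ≤ if σ v = pth (Sf i f) σ v then (1 : ℝ) else 0 := by
          split_ifs <;> norm_num
        linarith
    · rw [if_neg hm]
      have h3 : (0 : ℝ) ≤ if σ v = pth (Sf i f) σ v then (1 : ℝ) else 0 := by
        split_ifs <;> norm_num
      linarith
  refine h1.trans ?_
  rw [Av_add]
  have h2 : Av A d i (fun S v σ => ∑ r ∈ Finset.range L,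
      if (σ⁻¹ ^ (r + 1)) v ∈ S ∧ (σ⁻¹ ^ (r + 1)) v ≠ v then (1 : ℝ) else 0) ≤
      L * (i / d : ℝ) := by
    unfold Av
    rw [div_le_iff₀ hN]
    unfold Tot
    rw [Finset.sum_comm]
    have h3 : ∀ σ ∈ CF A, ∑ f : V → Fin d, ∑ v ∈ Sf i f, ∑ r ∈ Finset.range L,
        (if (σ⁻¹ ^ (r + 1)) v ∈ Sf i f ∧ (σ⁻¹ ^ (r + 1)) v ≠ v then (1 : ℝ) else 0) ≤
        L * ((Fintype.card V : ℝ) * (i / d : ℝ) ^ 2 * (d : ℝ) ^ Fintype.card V) := by
      intro σ _
      have h4 : ∑ f : V → Fin d, ∑ v ∈ Sf i f, ∑ r ∈ Finset.range L,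
        (if (σ⁻¹ ^ (r + 1)) v ∈ Sf i f ∧ (σ⁻¹ ^ (r + 1)) v ≠ v then (1 : ℝ) else 0) =
        ∑ r ∈ Finset.range L, ∑ f : V → Fin d, ∑ v ∈ Sf i f,
        (if (σ⁻¹ ^ (r + 1)) v ∈ Sf i f ∧ (σ⁻¹ ^ (r + 1)) v ≠ v then (1 : ℝ) else 0) := by
        rw [Finset.sum_comm]
        exact Finset.sum_congr rfl (fun f _ => Finset.sum_comm)
      rw [h4]
      refine (Finset.sum_le_sum (fun r _ => tot_pair hd hi
        (fun v => (σ⁻¹ ^ (r + 1)) v))).trans ?_
      rw [Finset.sum_const, Finset.card_range, nsmul_eq_mul]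
    refine (Finset.sum_le_sum h3).trans ?_
    rw [Finset.sum_const, nsmul_eq_mul]
    unfold Nm
    apply le_of_eq; ring
  exact add_le_add le_rfl h2

theorem coeff_lower {d i m : ℕ} {η : ℝ} (hη : 0 < η) (hη3 : η ≤ 1 / 3) (hi1 : 1 ≤ i)
    (hi : (i : ℝ) ≤ η * d) (hm1 : η * d / i ≤ m) (hm2 : (m : ℝ) + 1 ≤ d / (η * i)) :
    η * Real.exp (-(4 / η)) ≤ (m : ℝ) * (i / (d - i) : ℝ) *
      ((d - 2 * i) / (d - i) : ℝ) ^ (m - 1) := by
  have hi' : (0 : ℝ) < i := by exact_mod_cast hi1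
  have hd' : (0 : ℝ) < d := by
    by_contra h
    push Not at h
    nlinarith
  have h3 : (i : ℝ) ≤ d / 3 := by nlinarith
  have hdi : (0 : ℝ) < (d : ℝ) - i := by linarith
  have h1 : η ≤ (m : ℝ) * (i / (d - i) : ℝ) := by
    rw [div_le_iff₀ hi'] at hm1
    rw [mul_div_assoc', le_div_iff₀ hdi]
    nlinarith
  have h2 : Real.exp (-(4 / η)) ≤ ((d - 2 * i) / (d - i) : ℝ) ^ (m - 1) := by
    set p : ℝ := i / (d - i) with hp
    have hp0 : 0 < p := by positivity
    have hp1 : p ≤ 1 / 2 := by rw [hp, div_le_iff₀ hdi]; linarith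
    have hp2 : p ≤ 2 * i / d := by
      rw [hp, div_le_div_iff₀ hdi hd']; nlinarith
    have h4 : ((d - 2 * i) / (d - i) : ℝ) = 1 - p := by rw [hp]; field_simp; ring
    rw [h4]
    have h5 : Real.exp (-(2 * p)) ≤ 1 - p := by
      have h6 : Real.exp (-(2 * p)) = (Real.exp (2 * p))⁻¹ := Real.exp_neg _
      have h7 : 1 + 2 * p ≤ Real.exp (2 * p) := by
        have := Real.add_one_le_exp (2 * p); linarith
      rw [h6]
      have h8 : (Real.exp (2 * p))⁻¹ ≤ (1 + 2 * p)⁻¹ :=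
        inv_anti₀ (by positivity) h7
      refine h8.trans ?_
      rw [inv_le_iff_one_le_mul₀ (by positivity)]
      nlinarith
    have h6 : Real.exp (-(2 * p)) ^ (m - 1) ≤ (1 - p) ^ (m - 1) :=
      pow_le_pow_left₀ (Real.exp_nonneg _) h5 _
    refine le_trans ?_ h6
    rw [← Real.exp_nat_mul]
    apply Real.exp_le_exp.2
    have h7 : ((m - 1 : ℕ) : ℝ) ≤ d / (η * i) := by
      have : ((m - 1 : ℕ) : ℝ) ≤ m := by exact_mod_cast Nat.sub_le _ _
      linarith
    have h8 : ((m - 1 : ℕ) : ℝ) * (2 * p) ≤ (d / (η * i)) * (2 * (2 * i / d)) := by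
      apply mul_le_mul h7 (by linarith) (by positivity) (by positivity)
    have h9 : (d / (η * i)) * (2 * (2 * i / d)) = 4 / η := by
      have : (i : ℝ) ≠ 0 := hi'.ne'
      have : (d : ℝ) ≠ 0 := hd'.ne'
      field_simp
      norm_num
    linarith
  exact mul_le_mul h1 h2 (Real.exp_nonneg _) (by linarith)

/-- Heavy values are rarely hit by the start of the revealed path. -/
theorem ph_le {A : V → V → Prop} {d i : ℕ} (hV : 0 < Fintype.card V) (hd : 0 < d)
    (hC : (CF A).Nonempty) (hi1 : 1 ≤ i) {η ε : ℝ} (hη : 0 < η) (hη3 : η ≤ 1 / 3)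
    (hi : (i : ℝ) ≤ η * d) (hε : 0 < ε) :
    ph A ε d i ≤ 3 * η + aa A d i + (1 / (η * Real.exp (-(4 / η)))) *
      (slack (rev A) d i + ((Real.exp 1 - 1) / phi (1 + ε)) * slack A d i) := by
  have hN := Nm_pos hV hd hi1 hC
  have hi' : (0 : ℝ) < i := by exact_mod_cast hi1
  have hd' : (0 : ℝ) < d := by exact_mod_cast hd
  have hid3 : (3 : ℝ) * i ≤ d := by nlinarith
  have hid3' : 3 * i ≤ d := by exact_mod_cast hid3
  have hid : i ≤ d := by omega
  set c : ℝ := η * Real.exp (-(4 / η)) with hc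
  have hcpos : 0 < c := by positivity
  set X : ℝ := d / (η * i) with hX
  have hXpos : 0 < X := by positivity
  set L : ℕ := ⌈η * d / i⌉₊ with hL
  set E : Finset V → V → Equiv.Perm V → Prop := fun S v σ =>
    pth S σ v ∈ heavy A (i + 1) ε S v σ ∧ L ≤ mm S σ v ∧ (mm S σ v : ℝ) + 1 ≤ X with hE
  -- decomposition
  have h1 : ph A ε d i ≤ Av A d i (fun S v σ => (if X < (mm S σ v : ℝ) + 1 then 1 else 0) +
      (if mm S σ v < L then 1 else 0)) +
      Av A d i (fun S v σ => if E S v σ then 1 else 0) := by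
    unfold ph
    rw [← Av_add]
    apply Av_mono
    intro f σ _ v _
    by_cases hh : pth (Sf i f) σ v ∈ heavy A (i + 1) ε (Sf i f) v σ
    · rw [if_pos hh]
      by_cases h2 : X < (mm (Sf i f) σ v : ℝ) + 1
      · rw [if_pos h2]
        have h3 : (0 : ℝ) ≤ if mm (Sf i f) σ v < L then (1 : ℝ) else 0 := by
          split_ifs <;> norm_num
        have h4 : (0 : ℝ) ≤ if E (Sf i f) v σ then (1 : ℝ) else 0 := by
          split_ifs <;> norm_num
        linarith
      · by_cases h3 : mm (Sf i f) σ v < L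
        · rw [if_pos h3, if_neg h2]
          have h4 : (0 : ℝ) ≤ if E (Sf i f) v σ then (1 : ℝ) else 0 := by
            split_ifs <;> norm_num
          linarith
        · rw [if_neg h2, if_neg h3, if_pos]
          · norm_num
          · exact ⟨hh, not_lt.1 h3, not_lt.1 h2⟩
    · rw [if_neg hh]
      have h2 : (0 : ℝ) ≤ if X < (mm (Sf i f) σ v : ℝ) + 1 then (1 : ℝ) else 0 := by
        split_ifs <;> norm_num
      have h3 : (0 : ℝ) ≤ if mm (Sf i f) σ v < L then (1 : ℝ) else 0 := by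
        split_ifs <;> norm_num
      have h4 : (0 : ℝ) ≤ if E (Sf i f) v σ then (1 : ℝ) else 0 := by
        split_ifs <;> norm_num
      linarith
  rw [Av_add] at h1
  have h2 : Av A d i (fun S v σ => if X < (mm S σ v : ℝ) + 1 then 1 else 0) ≤ η := by
    refine (Av_long hV hd hC hi1 hXpos).trans (le_of_eq ?_)
    rw [hX]; field_simp
  have h3 : Av A d i (fun S v σ => if mm S σ v < L then 1 else 0) ≤ aa A d i + 2 * η := by
    refine (Av_short hV hd hC hi1 hid L).trans ?_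
    have h4 : (L : ℝ) ≤ η * d / i + 1 := (Nat.ceil_lt_add_one (by positivity)).le
    have h5 : (L : ℝ) * (i / d : ℝ) ≤ (η * d / i + 1) * (i / d : ℝ) :=
      mul_le_mul_of_nonneg_right h4 (by positivity)
    have h6 : (η * d / i + 1) * (i / d : ℝ) = η + i / d := by field_simp
    have h7 : (i / d : ℝ) ≤ η := by rw [div_le_iff₀ hd']; exact hi
    linarith
  -- the resampling part
  have h4 : c * Tot A d i (fun S v σ => if E S v σ then 1 else 0) ≤
      Tot (rev A) d i (fun S v σ => Kd (rev A) (i + 1) S v σ) +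
      ((Real.exp 1 - 1) / phi (1 + ε)) * Tot A d i (fun S v σ => Kd A (i + 1) S v σ) := by
    refine le_trans ?_ (resample A (by omega : 2 * i ≤ d) hε)
    unfold Tot
    rw [Finset.sum_comm, Finset.mul_sum, Finset.sum_comm (s := (univ : Finset (V → Fin d)))]
    refine Finset.sum_le_sum (fun σ _ => ?_)
    have h5 := group_T (d := d) (i := i) (by omega) (fun S v => E S v σ) (fun S v => Qs S σ v)
      (fun S v => Qs_disj S σ v) (c := c) (by
        intro S v hv hEv
        rw [Qs_card σ hv]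
        refine coeff_lower hη hη3 hi1 hi ?_ hEv.2.2
        exact (Nat.le_ceil _).trans (by exact_mod_cast hEv.2.1))
    refine le_trans (le_of_eq ?_) (h5.trans ?_)
    · congr 1
      refine Finset.sum_congr rfl (fun f _ => Finset.sum_congr rfl (fun v _ => ?_))
      by_cases h7 : E (Sf i f) v σ
      · simp only [if_pos h7]
      · simp only [if_neg h7]
    refine Finset.sum_le_sum (fun f _ => Finset.sum_le_sum (fun v _ => ?_))
    by_cases h6 : E (Sf i f) v σ ∧ (Tf i f ∩ Qs (Sf i f) σ v).card = 1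
    · rw [if_pos h6, if_pos ⟨h6.1.1, h6.2⟩]
    · rw [if_neg h6]
      split_ifs <;> norm_num
  have h5 : Av A d i (fun S v σ => if E S v σ then 1 else 0) ≤
      (1 / c) * (slack (rev A) d i + ((Real.exp 1 - 1) / phi (1 + ε)) * slack A d i) := by
    rw [one_div, ← div_eq_inv_mul, le_div_iff₀ hcpos]
    unfold slack Av
    have hNr : Nm (rev A) d i = Nm A d i := by unfold Nm; rw [card_CF_rev]
    rw [hNr, div_mul_eq_mul_div, mul_div_assoc', ← add_div]
    apply div_le_div_of_nonneg_right _ hN.le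
    linarith
  linarith

end Pool.Agent.Lib.MP_3cdeb8_co
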